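import Mathlib

set_option autoImplicit false

/-!
# Tame sets: closed sets with totally disconnected frontier and two locally connected sides
-/

open Set Topology Filter

namespace Run7.h116

variable {M : Type*} [TopologicalSpace M]

/-- the two sets agree near `s` -/
def GermEq (R R' : Set M) (s : M) : Prop := ∃ W, IsOpen W ∧ s ∈ W ∧ R ∩ W = R' ∩ W

theorem GermEq.symm {R R' : Set M} {s : M} (h : GermEq R R' s) : GermEq R' R s := by
  obtain ⟨W, h1, h2, h3⟩ := h
  exact ⟨W, h1, h2, h3.symm⟩

theorem GermEq.compl {R R' : Set M} {s : M} (h : GermEq R R' s) : GermEq Rᶜ R'ᶜ s := by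
  obtain ⟨W, h1, h2, h3⟩ := h
  refine ⟨W, h1, h2, ?_⟩
  ext x
  have := Set.ext_iff.1 h3 x
  simp only [mem_inter_iff, mem_compl_iff] at this ⊢
  tauto

theorem interior_inter_open {R W : Set M} (hW : IsOpen W) : interior R ∩ W = interior (R ∩ W) := by
  rw [interior_inter, hW.interior_eq]

theorem GermEq.interior {R R' : Set M} {s : M} (h : GermEq R R' s) :
    GermEq (interior R) (interior R') s := by
  obtain ⟨W, h1, h2, h3⟩ := h
  exact ⟨W, h1, h2, by rw [interior_inter_open h1, interior_inter_open h1, h3]⟩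

theorem GermEq.closure {R R' : Set M} {s : M} (h : GermEq R R' s) :
    GermEq (closure R) (closure R') s := by
  have := h.compl.interior.compl
  simpa [interior_compl] using this

theorem GermEq.inter {R R' S S' : Set M} {s : M} (h : GermEq R R' s) (h' : GermEq S S' s) :
    GermEq (R ∩ S) (R' ∩ S') s := by
  obtain ⟨W, h1, h2, h3⟩ := h
  obtain ⟨V, g1, g2, g3⟩ := h'
  refine ⟨W ∩ V, h1.inter g1, ⟨h2, g2⟩, ?_⟩
  ext x
  have a := Set.ext_iff.1 h3 x
  have b := Set.ext_iff.1 g3 x
  simp only [mem_inter_iff] at a b ⊢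
  tauto

theorem GermEq.frontier {R R' : Set M} {s : M} (h : GermEq R R' s) :
    GermEq (frontier R) (frontier R') s := by
  rw [frontier_eq_closure_inter_closure, frontier_eq_closure_inter_closure]
  exact h.closure.inter h.compl.closure

theorem GermEq.mem_iff {R R' : Set M} {s : M} (h : GermEq R R' s) : s ∈ R ↔ s ∈ R' := by
  obtain ⟨W, h1, h2, h3⟩ := h
  have := Set.ext_iff.1 h3 s
  simp only [mem_inter_iff] at this
  tauto

/-- `O` is locally connected at `s` -/
def LCAt (O : Set M) (s : M) : Prop :=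
  ∀ W ∈ 𝓝 s, ∃ W' ∈ 𝓝 s, ∃ C : Set M, C ⊆ O ∩ W ∧ IsPreconnected C ∧ O ∩ W' ⊆ C

theorem LCAt.germ {O O' : Set M} {s : M} (h : LCAt O s) (g : GermEq O O' s) : LCAt O' s := by
  obtain ⟨V, h1, h2, h3⟩ := g
  intro W hW
  obtain ⟨W', hW', C, hC, hCp, hC2⟩ := h (W ∩ V) (inter_mem hW (h1.mem_nhds h2))
  refine ⟨W' ∩ V, inter_mem hW' (h1.mem_nhds h2), C, ?_, hCp, ?_⟩
  · intro x hx
    obtain ⟨a, b, c⟩ := hC hx
    have := Set.ext_iff.1 h3 x
    simp only [mem_inter_iff] at this
    exact ⟨(this.1 ⟨a, c⟩).1, b⟩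
  · rintro x ⟨a, b, c⟩
    have := Set.ext_iff.1 h3 x
    simp only [mem_inter_iff] at this
    exact hC2 ⟨(this.2 ⟨a, c⟩).1, b⟩

/-- the local conditions on a tame set at a point of its frontier -/
structure TameAt (R : Set M) (s : M) : Prop where
  acc : AccPt s (𝓟 (frontier R))
  inn : LCAt (interior R) s
  out : LCAt Rᶜ s

theorem accPt_germ {A B : Set M} {s : M} (h : AccPt s (𝓟 A)) (g : GermEq A B s) :
    AccPt s (𝓟 B) := by
  obtain ⟨V, h1, h2, h3⟩ := g
  rw [accPt_iff_nhds] at h ⊢
  intro U hU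
  obtain ⟨y, ⟨hy, hyA⟩, hne⟩ := h (U ∩ V) (inter_mem hU (h1.mem_nhds h2))
  have := Set.ext_iff.1 h3 y
  simp only [mem_inter_iff] at this
  exact ⟨y, ⟨hy.1, (this.1 ⟨hyA, hy.2⟩).1⟩, hne⟩

theorem TameAt.germ {R R' : Set M} {s : M} (h : TameAt R s) (g : GermEq R R' s) : TameAt R' s :=
  ⟨accPt_germ h.acc g.frontier, h.inn.germ g.interior, h.out.germ g.compl⟩

/-- a tame set: a regular closed set with totally disconnected frontier without isolated points,
such that both sides are locally connected at the frontier -/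
structure Tame (R : Set M) : Prop where
  closed : IsClosed R
  reg : R ⊆ closure (interior R)
  td : IsTotallyDisconnected (frontier R)
  tameAt : ∀ s ∈ frontier R, TameAt R s

/-- a cell: a compact tame set with connected interior -/
structure Cell (R : Set M) : Prop extends Tame R where
  compact : IsCompact R
  conn : IsConnected (interior R)

theorem Tame.closure_interior {R : Set M} (h : Tame R) : closure (interior R) = R :=
  Subset.antisymm (closure_minimal interior_subset h.closed) h.reg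

theorem Tame.frontier_subset {R : Set M} (h : Tame R) : frontier R ⊆ R := h.closed.frontier_subset

theorem Tame.frontier_eq {R : Set M} (h : Tame R) : frontier R = R \ interior R :=
  h.closed.frontier_eq

theorem Cell.connected {R : Set M} (h : Cell R) : IsConnected R := by
  rw [← h.closure_interior]
  exact h.conn.closure

theorem Cell.nonempty {R : Set M} (h : Cell R) : R.Nonempty := h.connected.nonempty

theorem td_subset {A B : Set M} (h : IsTotallyDisconnected B) (hAB : A ⊆ B) :
    IsTotallyDisconnected A := fun t ht hp => h t (ht.trans hAB) hp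

theorem td_union {A B : Set M} (hA : IsClosed A) (hB : IsClosed B) (hd : Disjoint A B)
    (h1 : IsTotallyDisconnected A) (h2 : IsTotallyDisconnected B) :
    IsTotallyDisconnected (A ∪ B) := by
  intro t ht hp
  rcases isPreconnected_iff_subset_of_disjoint_closed.1 hp A B hA hB ht (by
    rw [disjoint_iff_inter_eq_empty.1 hd, inter_empty]) with h | h
  · exact h1 t h hp
  · exact h2 t h hp

theorem td_empty : IsTotallyDisconnected (∅ : Set M) := by
  intro t ht _
  rw [subset_empty_iff.1 ht]
  exact subsingleton_empty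

theorem td_biUnion {ι : Type*} {F : Set ι} (hF : F.Finite) (A : ι → Set M)
    (hc : ∀ i ∈ F, IsClosed (A i)) (hd : ∀ i ∈ F, ∀ j ∈ F, i ≠ j → Disjoint (A i) (A j))
    (ht : ∀ i ∈ F, IsTotallyDisconnected (A i)) : IsTotallyDisconnected (⋃ i ∈ F, A i) := by
  induction F, hF using Set.Finite.induction_on with
  | empty => simpa using td_empty
  | @insert a s ha hs ih =>
    rw [biUnion_insert]
    refine td_union (hc a (mem_insert _ _)) ?_ ?_ (ht a (mem_insert _ _)) ?_
    · exact hs.isClosed_biUnion fun i hi => hc i (mem_insert_of_mem _ hi)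
    · rw [disjoint_iUnion₂_right]
      intro i hi
      refine hd a (mem_insert _ _) i (mem_insert_of_mem _ hi) ?_
      rintro rfl
      exact ha hi
    · exact ih (fun i hi => hc i (mem_insert_of_mem _ hi))
        (fun i hi j hj => hd i (mem_insert_of_mem _ hi) j (mem_insert_of_mem _ hj))
        (fun i hi => ht i (mem_insert_of_mem _ hi))

theorem frontier_inter_subset' (A B : Set M) : frontier (A ∩ B) ⊆ frontier A ∪ frontier B := by
  refine (frontier_inter_subset A B).trans ?_
  intro x hx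
  rcases hx with h | h
  · exact Or.inl h.1
  · exact Or.inr h.2

theorem Tame.inter {A B : Set M} (hA : Tame A) (hB : Tame B)
    (hd : Disjoint (frontier A) (frontier B)) : Tame (A ∩ B) := by
  have key : ∀ {A B : Set M}, Tame A → Tame B → Disjoint (frontier A) (frontier B) →
      ∀ s ∈ A ∩ B, s ∈ frontier A → s ∈ interior B := by
    intro A B hA hB hd s hs hsA
    by_contra h
    exact Set.disjoint_left.1 hd hsA (by rw [hB.frontier_eq]; exact ⟨hs.2, h⟩)
  refine ⟨hA.closed.inter hB.closed, ?_, ?_, ?_⟩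
  · rintro s ⟨h1, h2⟩
    by_cases h3 : s ∈ interior A
    · by_cases h4 : s ∈ interior B
      · exact subset_closure (by rw [interior_inter]; exact ⟨h3, h4⟩)
      · have := hB.reg h2
        rw [mem_closure_iff_nhds] at this ⊢
        intro t ht
        obtain ⟨y, hy, hy2⟩ := this (t ∩ interior A) (inter_mem ht (isOpen_interior.mem_nhds h3))
        exact ⟨y, hy.1, by rw [interior_inter]; exact ⟨hy.2, hy2⟩⟩
    · have h4 : s ∈ interior B := key hA hB hd s ⟨h1, h2⟩ (by rw [hA.frontier_eq]; exact ⟨h1, h3⟩)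
      have := hA.reg h1
      rw [mem_closure_iff_nhds] at this ⊢
      intro t ht
      obtain ⟨y, hy, hy2⟩ := this (t ∩ interior B) (inter_mem ht (isOpen_interior.mem_nhds h4))
      exact ⟨y, hy.1, by rw [interior_inter]; exact ⟨hy2, hy.2⟩⟩
  · exact td_subset (td_union isClosed_frontier isClosed_frontier hd hA.td hB.td)
      (frontier_inter_subset' A B)
  · intro s hs
    have hsAB : s ∈ A ∩ B := (hA.closed.inter hB.closed).frontier_subset hs
    rcases frontier_inter_subset' A B hs with h | h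
    · have h4 : s ∈ interior B := key hA hB hd s hsAB h
      refine (hA.tameAt s h).germ ⟨interior B, isOpen_interior, h4, ?_⟩
      ext x
      simp only [mem_inter_iff]
      constructor
      · rintro ⟨a, b⟩; exact ⟨⟨a, interior_subset b⟩, b⟩
      · rintro ⟨⟨a, _⟩, b⟩; exact ⟨a, b⟩
    · have h4 : s ∈ interior A := key hB hA hd.symm s hsAB.symm h
      refine (hB.tameAt s h).germ ⟨interior A, isOpen_interior, h4, ?_⟩
      ext x
      simp only [mem_inter_iff]
      constructor
      · rintro ⟨a, b⟩; exact ⟨⟨interior_subset b, a⟩, b⟩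
      · rintro ⟨⟨_, a⟩, b⟩; exact ⟨a, b⟩

theorem tame_univ : Tame (univ : Set M) :=
  ⟨isClosed_univ, by simp, by simpa using td_empty, by simp⟩

/-- the regularised complement -/
theorem Tame.star {A : Set M} (hA : Tame A) : Tame (interior A)ᶜ ∧
    frontier (interior A)ᶜ = frontier A := by
  have h1 : interior (interior A)ᶜ = Aᶜ := by rw [interior_compl, hA.closure_interior]
  have hf : frontier (interior A)ᶜ = frontier A := by
    rw [frontier_compl, isOpen_interior.frontier_eq, hA.closure_interior, hA.frontier_eq]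
  refine ⟨⟨isOpen_interior.isClosed_compl, ?_, ?_, ?_⟩, hf⟩
  · rw [h1, closure_compl]
  · rw [hf]; exact hA.td
  · intro s hs
    rw [hf] at hs
    have h := hA.tameAt s hs
    exact ⟨by rw [hf]; exact h.acc, by rw [h1]; exact h.out, by rw [compl_compl]; exact h.inn⟩

/-- components of the interior of a compact tame set -/
theorem Tame.exists_components [T2Space M] [LocallyConnectedSpace M] {R : Set M} (hR : Tame R)
    (hc : IsCompact R) : ∃ 𝒞 : Set (Set M), 𝒞.Finite ∧ (∀ c ∈ 𝒞, Cell c) ∧ ⋃₀ 𝒞 = R ∧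
      (∀ c ∈ 𝒞, ∀ d ∈ 𝒞, c ≠ d → Disjoint c d) ∧ ∀ c ∈ 𝒞, frontier c ⊆ frontier R := by
  classical
  -- local data
  have hloc : ∀ s ∈ R, ∃ W, IsOpen W ∧ s ∈ W ∧ ∃ x ∈ interior R,
      interior R ∩ W ⊆ connectedComponentIn (interior R) x := by
    intro s hs
    by_cases h : s ∈ interior R
    · exact ⟨connectedComponentIn (interior R) s, isOpen_interior.connectedComponentIn,
        mem_connectedComponentIn h, s, h, inter_subset_right⟩
    · obtain ⟨W', hW', C, hC, hCp, hC2⟩ :=
        (hR.tameAt s (by rw [hR.frontier_eq]; exact ⟨hs, h⟩)).inn Set.univ univ_mem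
      obtain ⟨W, hWW, hW, hsW⟩ := mem_nhds_iff.1 hW'
      obtain ⟨x, hxW, hx⟩ := mem_closure_iff_nhds.1 (hR.reg hs) W (hW.mem_nhds hsW)
      have hxC : x ∈ C := hC2 ⟨hx, hWW hxW⟩
      refine ⟨W, hW, hsW, x, hx, ?_⟩
      rintro y ⟨hy, hyW⟩
      exact hCp.subset_connectedComponentIn hxC (fun z hz => (hC hz).1) (hC2 ⟨hy, hWW hyW⟩)
  choose! W hWo hsW xx hxx hWc using hloc
  obtain ⟨t, htR⟩ := hc.elim_nhds_subcover' (fun s hs => W s)
    (fun s hs => (hWo s hs).mem_nhds (hsW s hs))
  have hK : ∀ y ∈ R, ∃ s ∈ R, s ∈ Subtype.val '' (t : Set R) ∧ y ∈ W s := by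
    intro y hy
    obtain ⟨s, hs, hys⟩ := mem_iUnion₂.1 (htR hy)
    exact ⟨s, s.2, ⟨s, hs, rfl⟩, hys⟩
  set K : M → Set M := fun x => connectedComponentIn (interior R) x with hKdef
  have hKo : ∀ x, IsOpen (K x) := fun x => isOpen_interior.connectedComponentIn
  have hKsub : ∀ x, K x ⊆ interior R := fun x => connectedComponentIn_subset _ _
  have hKeq : ∀ x y z, z ∈ K x → z ∈ K y → K x = K y := by
    intro x y z h1 h2
    rw [hKdef] at *
    simp only at *
    rw [connectedComponentIn_eq h1, connectedComponentIn_eq h2]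
  -- if `W s` meets `K x`, then `K x = K (xx s)`
  have hmeet : ∀ s ∈ R, ∀ x, (K x ∩ W s).Nonempty → K x = K (xx s) := by
    rintro s hs x ⟨y, hy, hyW⟩
    exact hKeq _ _ y hy (hWc s hs ⟨hKsub x hy, hyW⟩)
  have hclR : ∀ x, closure (K x) ⊆ R := fun x =>
    (closure_mono (hKsub x)).trans (closure_minimal interior_subset hR.closed)
  have hcl : ∀ x s, s ∈ R → (closure (K x) ∩ W s).Nonempty → K x = K (xx s) := by
    rintro x s hs ⟨y, hy, hyW⟩
    obtain ⟨z, hz1, hz2⟩ := mem_closure_iff_nhds.1 hy (W s) ((hWo s hs).mem_nhds hyW)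
    exact hmeet s hs x ⟨z, hz2, hz1⟩
  have hcl2 : ∀ x y z, z ∈ closure (K x) → z ∈ closure (K y) → K x = K y := by
    intro x y z h1 h2
    have hz : z ∈ R := hclR x h1
    rw [hcl x z hz ⟨z, h1, hsW z hz⟩, hcl y z hz ⟨z, h2, hsW z hz⟩]
  have hint : ∀ x, x ∈ interior R → interior (closure (K x)) = K x := by
    intro x hx
    refine Subset.antisymm ?_ (interior_maximal subset_closure (hKo x))
    intro y hy
    have hyR : y ∈ interior R := interior_mono (hclR x) hy
    have hyK : y ∈ K y := mem_connectedComponentIn hyR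
    rw [hcl2 x y y (interior_subset hy) (subset_closure hyK)]
    exact hyK
  have hfr : ∀ x, x ∈ interior R → frontier (closure (K x)) ⊆ frontier R := by
    intro x hx y hy
    rw [isClosed_closure.frontier_eq, hint x hx] at hy
    rw [hR.frontier_eq]
    refine ⟨hclR x hy.1, fun hyR => hy.2 ?_⟩
    have hyK : y ∈ K y := mem_connectedComponentIn hyR
    rw [hcl2 x y y hy.1 (subset_closure hyK)]
    exact hyK
  refine ⟨(fun x => closure (K x)) '' interior R, ?_, ?_, ?_, ?_, ?_⟩
  · refine (t.finite_toSet.image (fun s : R => closure (K (xx s)))).subset ?_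
    rintro _ ⟨x, hx, rfl⟩
    obtain ⟨s, hs, ⟨s', hs't, rfl⟩, hys⟩ := hK x (interior_subset hx)
    refine ⟨s', hs't, ?_⟩
    simp only
    rw [hmeet s' hs x ⟨x, mem_connectedComponentIn hx, hys⟩]
  · rintro _ ⟨x, hx, rfl⟩
    have hcomp : IsCompact (closure (K x)) := hc.of_isClosed_subset isClosed_closure (hclR x)
    refine ⟨⟨isClosed_closure, ?_, ?_, ?_⟩, hcomp, ?_⟩
    · simp only [hint x hx]; exact subset_rfl
    · exact td_subset hR.td (hfr x hx)
    · intro s hs
      have hsR : s ∈ R := hclR x (isClosed_closure.frontier_subset hs)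
      have hsc : s ∈ closure (K x) := isClosed_closure.frontier_subset hs
      refine (hR.tameAt s (hfr x hx hs)).germ ⟨W s, hWo s hsR, hsW s hsR, ?_⟩
      refine Subset.antisymm ?_ (inter_subset_inter_left _ (hclR x))
      rintro y ⟨hy, hyW⟩
      refine ⟨?_, hyW⟩
      have hKx : K x = K (xx s) := hcl x s hsR ⟨s, hsc, hsW s hsR⟩
      rw [mem_closure_iff_nhds]
      intro u hu
      obtain ⟨z, hz, hz2⟩ := mem_closure_iff_nhds.1 (hR.reg hy) (u ∩ W s)
        (inter_mem hu ((hWo s hsR).mem_nhds hyW))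
      exact ⟨z, hz.1, by rw [hKx]; exact hWc s hsR ⟨hz2, hz.2⟩⟩
    · simp only [hint x hx]
      exact isConnected_connectedComponentIn_iff.2 hx
  · refine Subset.antisymm (sUnion_subset ?_) ?_
    · rintro _ ⟨x, hx, rfl⟩
      exact hclR x
    · intro y hy
      obtain ⟨z, hz, hz2⟩ := mem_closure_iff_nhds.1 (hR.reg hy) (W y)
        ((hWo y hy).mem_nhds (hsW y hy))
      refine mem_sUnion.2 ⟨closure (K z), ⟨z, hz2, rfl⟩, ?_⟩
      have hzK : K z = K (xx y) := hmeet y hy z ⟨z, mem_connectedComponentIn hz2, hz⟩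
      rw [mem_closure_iff_nhds]
      intro u hu
      obtain ⟨w, hw, hw2⟩ := mem_closure_iff_nhds.1 (hR.reg hy) (u ∩ W y)
        (inter_mem hu ((hWo y hy).mem_nhds (hsW y hy)))
      exact ⟨w, hw.1, by rw [hzK]; exact hWc y hy ⟨hw2, hw.2⟩⟩
  · rintro _ ⟨x, hx, rfl⟩ _ ⟨y, hy, rfl⟩ hne
    rw [Set.disjoint_left]
    intro z h1 h2
    exact hne (by simp only [hcl2 x y z h1 h2])
  · rintro _ ⟨x, hx, rfl⟩
    exact hfr x hx

end Run7.h116
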