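import Pool.Agent.Run7.h116.T5

set_option autoImplicit false
set_option linter.unusedSectionVars false

/-!
# The uniqueness theorem for cells
-/

open Set Topology Filter

namespace Run7.h116

/-- every cell has a finite partition into good cells -/
def HasFine {X : Type*} [TopologicalSpace X] (good : Set X → Prop) : Prop :=
  ∀ R : Set X, Cell R → ∃ 𝒯 : Set (Set X), 𝒯.Finite ∧ IsPart R 𝒯 id ∧ ∀ t ∈ 𝒯, good t

section

variable {X : Type*} [TopologicalSpace X]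

theorem Matched.refine1 [T2Space X] (hs : HasSplit X) {good : Set X → Prop} (hf : HasFine good)
    {P Q : Set X} {f g : X → X} (hfg : BdHomeo P Q f g) (hPc : IsCompact P) (n : ℕ) :
    ∀ (F : Set (Set X × Set X)), Matched P Q f F → {b ∈ F | ¬ good b.1}.ncard ≤ n →
      ∃ F', Matched P Q f F' ∧ Ref F F' ∧ ∀ b ∈ F', good b.1 := by
  induction n with
  | zero =>
    intro F hm hcard
    refine ⟨F, hm, Ref.refl F, ?_⟩
    have hfin : {b ∈ F | ¬ good b.1}.Finite := hm.fin.subset fun b hb => hb.1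
    have h0 : {b ∈ F | ¬ good b.1} = ∅ := by
      rw [← Set.ncard_eq_zero hfin]; omega
    intro b hb
    by_contra hbg
    exact (h0 ▸ (⟨hb, hbg⟩ : b ∈ {b ∈ F | ¬ good b.1}) : b ∈ (∅ : Set (Set X × Set X)))
  | succ n ih =>
    intro F hm hcard
    by_cases hall : ∀ b ∈ F, good b.1
    · exact ⟨F, hm, Ref.refl F, hall⟩
    push Not at hall
    obtain ⟨a, ha, hag⟩ := hall
    obtain ⟨𝒯, hfin, hpart, hgood⟩ := hf a.1 (hm.part1.cell a ha)
    obtain ⟨F1, hm1, hR1, hbad⟩ := Matched.peel hs hfg hPc good 𝒯.ncard F hm a ha 𝒯 hfin le_rfl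
      hpart hgood
    have hfinF : {b ∈ F | ¬ good b.1}.Finite := hm.fin.subset fun b hb => hb.1
    have h1 : {b ∈ F1 | ¬ good b.1} ⊆ {b ∈ F | ¬ good b.1} \ {a} := by
      rintro b ⟨hb, hbg⟩
      have := hbad b hb hbg
      exact ⟨⟨this.1, hbg⟩, this.2⟩
    have h2 : {b ∈ F1 | ¬ good b.1}.ncard ≤ n := by
      have h3 := Set.ncard_le_ncard h1 (hfinF.subset sdiff_subset)
      rw [Set.ncard_sdiff_singleton_of_mem (show a ∈ {b ∈ F | ¬ good b.1} from ⟨ha, hag⟩)] at h3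
      omega
    obtain ⟨F', hF', hR', hgood'⟩ := ih F1 hm1 h2
    exact ⟨F', hF', hR1.trans hR', hgood'⟩

theorem Ref.swap {F F' : Set (Set X × Set X)} (h : Ref F F') :
    Ref (Prod.swap '' F) (Prod.swap '' F') := by
  rintro _ ⟨a', ha', rfl⟩
  obtain ⟨a, ha, h1, h2⟩ := h a' ha'
  exact ⟨a.swap, ⟨a, ha, rfl⟩, h2, h1⟩

theorem swap_swap_image (F : Set (Set X × Set X)) : Prod.swap '' (Prod.swap '' F) = F := by
  rw [← image_comp]; simp

theorem Matched.refine [T2Space X] (hs : HasSplit X) {good : Set X → Prop} (hf : HasFine good)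
    (hmono : ∀ A B, A ⊆ B → good B → good A)
    {P Q : Set X} {f g : X → X} (hfg : BdHomeo P Q f g) (hPc : IsCompact P) (hQc : IsCompact Q)
    {F : Set (Set X × Set X)} (hm : Matched P Q f F) :
    ∃ F', Matched P Q f F' ∧ Ref F F' ∧ ∀ b ∈ F', good b.1 ∧ good b.2 := by
  obtain ⟨F1, hm1, hR1, hg1⟩ := Matched.refine1 hs hf hfg hPc _ F hm le_rfl
  obtain ⟨F2, hm2, hR2, hg2⟩ := Matched.refine1 hs hf hfg.symm hQc _ _ (hm1.symm hfg) le_rfl
  have hm3 := hm2.symm hfg.symm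
  have hR3 := hR2.swap
  rw [swap_swap_image] at hR3
  refine ⟨_, hm3, hR1.trans hR3, ?_⟩
  rintro _ ⟨b, hb, rfl⟩
  refine ⟨?_, hg2 b hb⟩
  obtain ⟨a, ha, h1, _⟩ := hR3 b.swap ⟨b, hb, rfl⟩
  exact hmono _ _ h1 (hg1 a ha)

end

section lim

variable {X : Type*} [MetricSpace X]

/-- small sets -/
def Small (ε : ℝ) (t : Set X) : Prop := ∀ x ∈ t, ∀ y ∈ t, dist x y < ε

theorem Small.mono {ε : ℝ} {A B : Set X} (h : A ⊆ B) (hB : Small ε B) : Small ε A :=
  fun x hx y hy => hB x (h hx) y (h hy)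

/-- data of the limit construction -/
structure Lim (P Q : Set X) (F : ℕ → Set (Set X × Set X)) : Prop where
  fin : ∀ k, (F k).Finite
  cpt1 : ∀ k, ∀ a ∈ F k, IsCompact a.1
  cpt2 : ∀ k, ∀ a ∈ F k, IsCompact a.2
  ne1 : ∀ k, ∀ a ∈ F k, a.1.Nonempty
  ne2 : ∀ k, ∀ a ∈ F k, a.2.Nonempty
  un1 : ∀ k, ⋃ a ∈ F k, a.1 = P
  un2 : ∀ k, ⋃ a ∈ F k, a.2 = Q
  adj : ∀ k, ∀ a ∈ F k, ∀ b ∈ F k, a ≠ b → ((a.1 ∩ b.1).Nonempty ↔ (a.2 ∩ b.2).Nonempty)
  ref : ∀ k, Ref (F k) (F (k + 1))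
  mesh : ∀ ε > 0, ∃ k, ∀ a ∈ F k, Small ε a.1 ∧ Small ε a.2

theorem Lim.symm {P Q : Set X} {F : ℕ → Set (Set X × Set X)} (L : Lim P Q F) :
    Lim Q P (fun k => Prod.swap '' F k) := by
  refine ⟨fun k => (L.fin k).image _, ?_, ?_, ?_, ?_, ?_, ?_, ?_, fun k => (L.ref k).swap, ?_⟩
  · rintro k _ ⟨a, ha, rfl⟩; exact L.cpt2 k a ha
  · rintro k _ ⟨a, ha, rfl⟩; exact L.cpt1 k a ha
  · rintro k _ ⟨a, ha, rfl⟩; exact L.ne2 k a ha
  · rintro k _ ⟨a, ha, rfl⟩; exact L.ne1 k a ha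
  · intro k; rw [biUnion_image, ← L.un2 k]; rfl
  · intro k; rw [biUnion_image, ← L.un1 k]; rfl
  · rintro k _ ⟨a, ha, rfl⟩ _ ⟨b, hb, rfl⟩ hab
    exact (L.adj k a ha b hb (fun h => hab (by rw [h]))).symm
  · intro ε hε
    obtain ⟨k, hk⟩ := L.mesh ε hε
    refine ⟨k, ?_⟩
    rintro _ ⟨a, ha, rfl⟩
    exact ⟨(hk a ha).2, (hk a ha).1⟩

/-- the limit relation -/
def LRel (F : ℕ → Set (Set X × Set X)) (x y : X) : Prop := ∀ k, ∃ a ∈ F k, x ∈ a.1 ∧ y ∈ a.2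

theorem LRel.swap {F : ℕ → Set (Set X × Set X)} {x y : X} (h : LRel F x y) :
    LRel (fun k => Prod.swap '' F k) y x := by
  intro k
  obtain ⟨a, ha, h1, h2⟩ := h k
  exact ⟨a.swap, ⟨a, ha, rfl⟩, h2, h1⟩

theorem LRel.of_swap {F : ℕ → Set (Set X × Set X)} {x y : X}
    (h : LRel (fun k => Prod.swap '' F k) y x) : LRel F x y := by
  intro k
  obtain ⟨_, ⟨a, ha, rfl⟩, h1, h2⟩ := h k
  exact ⟨a, ha, h2, h1⟩

theorem Lim.exists_right {P Q : Set X} {F : ℕ → Set (Set X × Set X)} (L : Lim P Q F) {x : X}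
    (hx : x ∈ P) : ∃ y, LRel F x y := by
  set Y : ℕ → Set X := fun k => ⋃ a ∈ {a ∈ F k | x ∈ a.1}, a.2 with hY
  have hfin : ∀ k, {a ∈ F k | x ∈ a.1}.Finite := fun k => (L.fin k).subset fun a ha => ha.1
  have hc : ∀ k, IsCompact (Y k) := fun k =>
    (hfin k).isCompact_biUnion fun a ha => L.cpt2 k a ha.1
  have hanti : ∀ k, Y (k + 1) ⊆ Y k := by
    intro k y hy
    obtain ⟨a', ha', hy'⟩ := mem_iUnion₂.1 hy
    obtain ⟨a, ha, h1, h2⟩ := L.ref k a' ha'.1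
    exact mem_iUnion₂.2 ⟨a, ⟨ha, h1 ha'.2⟩, h2 hy'⟩
  have hne : ∀ k, (Y k).Nonempty := by
    intro k
    have : x ∈ ⋃ a ∈ F k, a.1 := by rw [L.un1 k]; exact hx
    obtain ⟨a, ha, hxa⟩ := mem_iUnion₂.1 this
    obtain ⟨y, hy⟩ := L.ne2 k a ha
    exact ⟨y, mem_iUnion₂.2 ⟨a, ⟨ha, hxa⟩, hy⟩⟩
  obtain ⟨y, hy⟩ := IsCompact.nonempty_iInter_of_sequence_nonempty_isCompact_isClosed Y hanti
    hne (hc 0) (fun k => (hc k).isClosed)
  refine ⟨y, fun k => ?_⟩
  obtain ⟨a, ha, hya⟩ := mem_iUnion₂.1 (mem_iInter.1 hy k)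
  exact ⟨a, ha.1, ha.2, hya⟩

theorem Lim.unique_right {P Q : Set X} {F : ℕ → Set (Set X × Set X)} (L : Lim P Q F) {x y z : X}
    (hy : LRel F x y) (hz : LRel F x z) : y = z := by
  by_contra hne
  obtain ⟨k, hk⟩ := L.mesh (dist y z / 2) (half_pos (dist_pos.2 hne))
  obtain ⟨a, ha, h1, h2⟩ := hy k
  obtain ⟨b, hb, h3, h4⟩ := hz k
  by_cases hab : a = b
  · subst hab
    have := (hk a ha).2 y h2 z h4
    have := dist_nonneg (x := y) (y := z)
    linarith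
  · obtain ⟨w, hw1, hw2⟩ := (L.adj k a ha b hb hab).1 ⟨x, h1, h3⟩
    have h5 := (hk a ha).2 y h2 w hw1
    have h6 := (hk b hb).2 w hw2 z h4
    have h7 := dist_triangle y w z
    linarith

theorem Lim.exists_left {P Q : Set X} {F : ℕ → Set (Set X × Set X)} (L : Lim P Q F) {y : X}
    (hy : y ∈ Q) : ∃ x, LRel F x y := by
  obtain ⟨x, hx⟩ := L.symm.exists_right hy
  exact ⟨x, hx.of_swap⟩

theorem Lim.unique_left {P Q : Set X} {F : ℕ → Set (Set X × Set X)} (L : Lim P Q F) {x y z : X}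
    (hy : LRel F y x) (hz : LRel F z x) : y = z :=
  L.symm.unique_right hy.swap hz.swap

theorem Lim.mem {P Q : Set X} {F : ℕ → Set (Set X × Set X)} (L : Lim P Q F) {x y : X}
    (h : LRel F x y) : x ∈ P ∧ y ∈ Q := by
  obtain ⟨a, ha, h1, h2⟩ := h 0
  constructor
  · rw [← L.un1 0]; exact mem_iUnion₂.2 ⟨a, ha, h1⟩
  · rw [← L.un2 0]; exact mem_iUnion₂.2 ⟨a, ha, h2⟩

theorem Lim.closed {P Q : Set X} {F : ℕ → Set (Set X × Set X)} (L : Lim P Q F) :
    IsClosed {p : X × X | LRel F p.1 p.2} := by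
  have : {p : X × X | LRel F p.1 p.2} = ⋂ k, ⋃ a ∈ F k, a.1 ×ˢ a.2 := by
    ext p
    simp only [mem_ofPred_eq, LRel, mem_iInter, mem_iUnion, mem_prod, exists_prop]
  rw [this]
  exact isClosed_iInter fun k => (L.fin k).isClosed_biUnion fun a ha =>
    (L.cpt1 k a ha).isClosed.prod (L.cpt2 k a ha).isClosed

theorem Lim.continuousOn {P Q : Set X} (hP : IsCompact P) (hQ : IsCompact Q)
    {F : ℕ → Set (Set X × Set X)} (L : Lim P Q F)
    {φ : X → X} (hφ : ∀ x ∈ P, LRel F x (φ x)) : ContinuousOn φ P := by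
  rw [continuousOn_iff_isClosed]
  intro C hC
  have hH : IsCompact {p : X × X | LRel F p.1 p.2} :=
    (hP.prod hQ).of_isClosed_subset L.closed fun p hp => L.mem hp
  have h1 : IsCompact ({p : X × X | LRel F p.1 p.2} ∩ univ ×ˢ C) :=
    hH.inter_right (isClosed_univ.prod hC)
  refine ⟨Prod.fst '' ({p : X × X | LRel F p.1 p.2} ∩ univ ×ˢ C),
    (h1.image continuous_fst).isClosed, ?_⟩
  ext x
  constructor
  · rintro ⟨hx, hxP⟩
    exact ⟨⟨(x, φ x), ⟨hφ x hxP, mem_univ _, hx⟩, rfl⟩, hxP⟩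
  · rintro ⟨⟨⟨x', y⟩, ⟨h2, _, h4⟩, rfl⟩, hxP⟩
    refine ⟨?_, hxP⟩
    have : y = φ x' := L.unique_right h2 (hφ x' hxP)
    exact this ▸ h4

/-- the uniqueness theorem: cells with homeomorphic frontiers are homeomorphic rel frontier -/
theorem exists_homeoOn (hs : HasSplit X) (hf : ∀ ε > 0, HasFine (X := X) (Small ε))
    {P Q : Set X} (hP : Cell P) (hQ : Cell Q) {f g : X → X} (hfg : BdHomeo P Q f g) :
    ∃ φ ψ : X → X, HomeoOn P Q φ ψ ∧ (∀ x ∈ frontier P, φ x = f x) := by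
  classical
  have hPc := hP.compact
  have hQc := hQ.compact
  -- the sequence of matched families
  have h0 : Matched P Q f {(P, Q)} := by
    refine ⟨finite_singleton _, IsPart.single _ rfl hP, IsPart.single _ rfl hQ, ?_, ?_⟩
    · rintro a rfl b rfl hab; exact absurd rfl hab
    · rintro a rfl x hx
      simp only
      exact ⟨fun _ => hQ.closed.frontier_subset (hfg.fm hx),
        fun _ => hP.closed.frontier_subset hx⟩
  have hstep : ∀ (k : ℕ) (F : {F : Set (Set X × Set X) // Matched P Q f F}),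
      ∃ F' : {F : Set (Set X × Set X) // Matched P Q f F}, Ref F.1 F'.1 ∧
        ∀ b ∈ F'.1, Small (1 / ((k : ℝ) + 1)) b.1 ∧ Small (1 / ((k : ℝ) + 1)) b.2 := by
    rintro k ⟨F, hF⟩
    obtain ⟨F', h1, h2, h3⟩ := hF.refine hs (hf (1 / ((k : ℝ) + 1)) (by positivity))
      (fun A B h => Small.mono h) hfg hPc hQc
    exact ⟨⟨F', h1⟩, h2, h3⟩
  choose nxt hn1 hn2 using hstep
  set S : ℕ → {F : Set (Set X × Set X) // Matched P Q f F} := fun k =>
    Nat.rec ⟨_, h0⟩ (fun k F => nxt k F) k with hS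
  have hSs : ∀ k, S (k + 1) = nxt k (S k) := fun k => rfl
  have L : Lim P Q (fun k => (S k).1) := by
    refine ⟨fun k => (S k).2.fin, fun k a ha => ((S k).2.part1.cell a ha).compact,
      fun k a ha => ((S k).2.part2.cell a ha).compact,
      fun k a ha => ((S k).2.part1.cell a ha).nonempty,
      fun k a ha => ((S k).2.part2.cell a ha).nonempty, fun k => (S k).2.part1.union,
      fun k => (S k).2.part2.union, fun k => (S k).2.adj, ?_, ?_⟩
    · intro k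
      rw [hSs]
      exact hn1 k (S k)
    · intro ε hε
      obtain ⟨k, hk⟩ := exists_nat_one_div_lt hε
      refine ⟨k + 1, ?_⟩
      intro a ha
      rw [hSs] at ha
      have := hn2 k (S k) a ha
      exact ⟨fun x hx y hy => (this.1 x hx y hy).trans hk,
        fun x hx y hy => (this.2 x hx y hy).trans hk⟩
  have hφ : ∀ x, ∃ y, x ∈ P → LRel (fun k => (S k).1) x y := by
    intro x
    by_cases hx : x ∈ P
    · obtain ⟨y, hy⟩ := L.exists_right hx
      exact ⟨y, fun _ => hy⟩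
    · exact ⟨x, fun h => absurd h hx⟩
  have hψ : ∀ y, ∃ x, y ∈ Q → LRel (fun k => (S k).1) x y := by
    intro y
    by_cases hy : y ∈ Q
    · obtain ⟨x, hx⟩ := L.exists_left hy
      exact ⟨x, fun _ => hx⟩
    · exact ⟨y, fun h => absurd h hy⟩
  choose φ hφ using hφ
  choose ψ hψ using hψ
  refine ⟨φ, ψ, ⟨?_, ?_, ?_, ?_, ?_, ?_⟩, ?_⟩
  · intro x hx; exact (L.mem (hφ x hx)).2
  · intro y hy; exact (L.mem (hψ y hy)).1
  · intro x hx; exact L.unique_left (hψ _ (L.mem (hφ x hx)).2) (hφ x hx)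
  · intro y hy; exact L.unique_right (hφ _ (L.mem (hψ y hy)).1) (hψ y hy)
  · exact L.continuousOn hPc hQc hφ
  · exact L.symm.continuousOn hQc hPc fun y hy => (hψ y hy).swap
  · intro x hx
    have hxP : x ∈ P := hP.closed.frontier_subset hx
    refine L.unique_right (hφ x hxP) ?_
    intro k
    have : x ∈ ⋃ a ∈ (S k).1, a.1 := by rw [(S k).2.part1.union]; exact hxP
    obtain ⟨a, ha, hxa⟩ := mem_iUnion₂.1 this
    exact ⟨a, ha, hxa, ((S k).2.bd a ha x hx).1 hxa⟩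

end lim

end Run7.h116
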