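import Pool.Agent.Run7.h116.T3
import Pool.Agent.Run7.h116.T6

set_option autoImplicit false
set_option linter.unusedSectionVars false

/-!
# Digital structures
-/

open Set Topology Filter

namespace Run7.h116

/-- a sequence of nested finite partitions of `X` into cells -/
structure Dig {X V : Type*} [MetricSpace X] (D : ℕ → V → Set X) (par : V → V) : Prop where
  closed : ∀ m v, IsClosed (D m v)
  fin : ∀ m, {v | (D m v).Nonempty}.Finite
  cov : ∀ m x, ∃ v, x ∈ D m v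
  conn : ∀ m v, (D m v).Nonempty → IsConnected (interior (D m v))
  reg : ∀ m v, D m v ⊆ closure (interior (D m v))
  dis : ∀ m v w, v ≠ w → Disjoint (interior (D m v)) (interior (D m w))
  triple : ∀ m u v w, u ≠ v → v ≠ w → u ≠ w → ∀ x, x ∈ D m u → x ∈ D m v → x ∈ D m w → False
  sub : ∀ m u, D (m + 1) u ⊆ D m (par u)
  td : ∀ m v w, v ≠ w → IsTotallyDisconnected (D m v ∩ D m w)
  acc : ∀ m v w, v ≠ w → ∀ x ∈ D m v ∩ D m w, AccPt x (𝓟 (D m v ∩ D m w))
  mesh : ∀ ε > 0, ∃ m, ∀ k ≥ m, ∀ v, Small ε (D k v)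

variable {X V : Type*} [MetricSpace X] {D : ℕ → V → Set X} {par : V → V}

namespace Dig

theorem eq_of_mem_int (h : Dig D par) {m : ℕ} {v w : V} {x : X} (hx : x ∈ D m v)
    (hy : x ∈ interior (D m w)) : v = w := by
  by_contra hne
  obtain ⟨y, h1, h2⟩ := mem_closure_iff_nhds.1 (h.reg m v hx) _ (isOpen_interior.mem_nhds hy)
  exact Set.disjoint_left.1 (h.dis m v w hne) h2 h1

theorem sub_iter (h : Dig D par) (m i : ℕ) : ∀ u, D (m + i) u ⊆ D m (par^[i] u) := by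
  induction i with
  | zero => intro u; exact subset_rfl
  | succ i ih =>
    intro u
    rw [Function.iterate_succ_apply]
    exact (h.sub (m + i) u).trans (ih (par u))

theorem closed_biUnion (h : Dig D par) (m : ℕ) (T : Set V) : IsClosed (⋃ v ∈ T, D m v) := by
  have : ⋃ v ∈ T, D m v = ⋃ v ∈ T ∩ {v | (D m v).Nonempty}, D m v := by
    ext x
    simp only [mem_iUnion, mem_inter_iff, exists_prop]
    constructor
    · rintro ⟨v, hv, hx⟩; exact ⟨v, ⟨hv, ⟨x, hx⟩⟩, hx⟩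
    · rintro ⟨v, hv, hx⟩; exact ⟨v, hv.1, hx⟩
  rw [this]
  exact ((h.fin m).subset inter_subset_right).isClosed_biUnion fun v _ => h.closed m v

theorem refine (h : Dig D par) {m : ℕ} (i : ℕ) {v : V} {x : X} (hx : x ∈ D m v) :
    ∃ u, par^[i] u = v ∧ x ∈ D (m + i) u := by
  have h1 : interior (D m v) ⊆ ⋃ u ∈ {u | par^[i] u = v}, D (m + i) u := by
    intro y hy
    obtain ⟨u, hu⟩ := h.cov (m + i) y
    exact mem_iUnion₂.2 ⟨u, h.eq_of_mem_int (h.sub_iter m i u hu) hy, hu⟩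
  have h2 := closure_minimal h1 (h.closed_biUnion (m + i) _) (h.reg m v hx)
  obtain ⟨u, hu, hxu⟩ := mem_iUnion₂.1 h2
  exact ⟨u, hu, hxu⟩

theorem mem_interior (h : Dig D par) {m : ℕ} {T : Set V} {x : X}
    (hx : ∀ v, x ∈ D m v → v ∈ T) : x ∈ interior (⋃ v ∈ T, D m v) := by
  refine _root_.mem_interior.2 ⟨(⋃ v ∈ Tᶜ, D m v)ᶜ, ?_, (h.closed_biUnion m _).isOpen_compl, ?_⟩
  · intro y hy
    obtain ⟨v, hv⟩ := h.cov m y
    by_cases hvT : v ∈ T
    · exact mem_iUnion₂.2 ⟨v, hvT, hv⟩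
    · exact absurd (mem_iUnion₂.2 ⟨v, hvT, hv⟩) hy
  · intro hx2
    obtain ⟨v, hv, hxv⟩ := mem_iUnion₂.1 hx2
    exact hv (hx v hxv)

theorem mem_interior_two (h : Dig D par) {m : ℕ} {v w : V} (hvw : v ≠ w) {x : X}
    (hx : x ∈ D m v) (hx' : x ∈ D m w) : x ∈ interior (D m v ∪ D m w) := by
  have h1 := h.mem_interior (m := m) (T := {v, w}) (x := x) (by
    intro u hu
    by_contra hcon
    simp only [mem_insert_iff, mem_singleton_iff, not_or] at hcon
    exact h.triple m u v w hcon.1 hvw hcon.2 x hu hx hx')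
  simpa using h1

theorem mem_frontier (h : Dig D par) {m : ℕ} {v : V} {x : X} (hx : x ∈ frontier (D m v)) :
    ∃ w, w ≠ v ∧ x ∈ D m w := by
  rw [(h.closed m v).frontier_eq] at hx
  by_contra hcon
  push Not at hcon
  have h1 := h.mem_interior (m := m) (T := {v}) (x := x) (by
    intro u hu
    by_contra hu2
    exact hcon u hu2 hu)
  exact hx.2 (by simpa using h1)

theorem inter_sub_frontier (h : Dig D par) {m : ℕ} {v w : V} (hvw : v ≠ w) :
    D m v ∩ D m w ⊆ frontier (D m v) := by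
  rintro x ⟨h1, h2⟩
  rw [(h.closed m v).frontier_eq]
  exact ⟨h1, fun h3 => hvw (h.eq_of_mem_int h2 h3).symm⟩

theorem frontier_eq (h : Dig D par) (m : ℕ) (v : V) :
    frontier (D m v) = ⋃ w ∈ {w | w ≠ v}, D m v ∩ D m w := by
  ext x
  constructor
  · intro hx
    obtain ⟨w, hw, hxw⟩ := h.mem_frontier hx
    exact mem_iUnion₂.2 ⟨w, hw, (h.closed m v).frontier_subset hx, hxw⟩
  · intro hx
    obtain ⟨w, hw, hxw⟩ := mem_iUnion₂.1 hx
    exact h.inter_sub_frontier (Ne.symm hw) hxw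

theorem small_sub (h : Dig D par) (m : ℕ) {s : X} {W : Set X} (hW : W ∈ 𝓝 s) :
    ∃ i, ∀ u, s ∈ D (m + i) u → D (m + i) u ⊆ W := by
  obtain ⟨ε, hε, hεW⟩ := Metric.mem_nhds_iff.1 hW
  obtain ⟨k, hk⟩ := h.mesh ε hε
  refine ⟨k, fun u hu y hy => hεW ?_⟩
  exact hk (m + k) (by omega) u y hy s hu

theorem tameAt (h : Dig D par) {m : ℕ} {v : V} {s : X} (hs : s ∈ frontier (D m v)) :
    TameAt (D m v) s := by
  obtain ⟨w, hw, hsw⟩ := h.mem_frontier hs
  have hsv : s ∈ D m v := (h.closed m v).frontier_subset hs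
  -- common data
  have key : ∀ W ∈ 𝓝 s, ∃ k u u', D k u ⊆ D m v ∧ D k u' ⊆ D m w ∧ D k u ⊆ W ∧ D k u' ⊆ W ∧
      u ≠ u' ∧ s ∈ D k u ∧ s ∈ D k u' := by
    intro W hW
    obtain ⟨i, hi⟩ := h.small_sub m hW
    obtain ⟨u, hu, hsu⟩ := h.refine i hsv
    obtain ⟨u', hu', hsu'⟩ := h.refine i hsw
    refine ⟨m + i, u, u', ?_, ?_, hi u hsu, hi u' hsu', ?_, hsu, hsu'⟩
    · rw [← hu]; exact h.sub_iter m i u
    · rw [← hu']; exact h.sub_iter m i u'
    · rintro rfl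
      exact hw (hu'.symm.trans hu)
  refine ⟨?_, ?_, ?_⟩
  · exact (h.acc m v w (Ne.symm hw) s ⟨hsv, hsw⟩).mono
      (principal_mono.2 (h.inter_sub_frontier (Ne.symm hw)))
  · intro W hW
    obtain ⟨k, u, u', h1, h2, h3, h4, h5, h6, h7⟩ := key W hW
    refine ⟨interior (D k u ∪ D k u'),
      isOpen_interior.mem_nhds (h.mem_interior_two h5 h6 h7), interior (D k u), ?_, ?_, ?_⟩
    · exact fun x hx => ⟨interior_mono h1 hx, h3 (interior_subset hx)⟩
    · exact (h.conn k u ⟨s, h6⟩).isPreconnected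
    · refine interior_maximal ?_ (isOpen_interior.inter isOpen_interior)
      rintro y ⟨hy1, hy2⟩
      rcases interior_subset hy2 with hy | hy
      · exact hy
      · exact absurd (h.eq_of_mem_int (h2 hy) hy1) hw
  · intro W hW
    obtain ⟨k, u, u', h1, h2, h3, h4, h5, h6, h7⟩ := key W hW
    refine ⟨interior (D k u ∪ D k u'),
      isOpen_interior.mem_nhds (h.mem_interior_two h5 h6 h7), interior (D k u'), ?_, ?_, ?_⟩
    · intro x hx
      exact ⟨fun hxv => hw.symm (h.eq_of_mem_int hxv (interior_mono h2 hx)),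
        h4 (interior_subset hx)⟩
    · exact (h.conn k u' ⟨s, h7⟩).isPreconnected
    · refine interior_maximal ?_ ((h.closed m v).isOpen_compl.inter isOpen_interior)
      rintro y ⟨hy1, hy2⟩
      rcases interior_subset hy2 with hy | hy
      · exact absurd (h1 hy) hy1
      · exact hy

theorem tame (h : Dig D par) (m : ℕ) (v : V) : Tame (D m v) := by
  refine ⟨h.closed m v, h.reg m v, ?_, fun s hs => h.tameAt hs⟩
  have h1 : frontier (D m v) = ⋃ w ∈ {w | w ≠ v ∧ (D m w).Nonempty}, D m v ∩ D m w := by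
    rw [h.frontier_eq]
    ext x
    simp only [mem_iUnion, mem_ofPred_eq, exists_prop]
    constructor
    · rintro ⟨w, hw, hx⟩; exact ⟨w, ⟨hw, ⟨x, hx.2⟩⟩, hx⟩
    · rintro ⟨w, hw, hx⟩; exact ⟨w, hw.1, hx⟩
  rw [h1]
  refine td_biUnion ((h.fin m).subset fun w hw => hw.2) _ (fun w _ =>
    (h.closed m v).inter (h.closed m w)) ?_ fun w hw => h.td m v w (Ne.symm hw.1)
  intro i hi j hj hij
  rw [Set.disjoint_left]
  rintro x ⟨h2, h3⟩ ⟨_, h4⟩
  exact h.triple m v i j (Ne.symm hi.1) hij (Ne.symm hj.1) x h2 h3 h4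

theorem cell [CompactSpace X] (h : Dig D par) {m : ℕ} {v : V} (hv : (D m v).Nonempty) :
    Cell (D m v) := ⟨h.tame m v, (h.closed m v).isCompact, h.conn m v hv⟩

theorem isPart [CompactSpace X] (h : Dig D par) (m : ℕ) :
    IsPart (univ : Set X) {v | (D m v).Nonempty} (D m) := by
  refine ⟨fun v hv => h.cell hv, ?_, fun v _ w _ hvw => h.dis m v w hvw, ?_, ?_⟩
  · refine eq_univ_of_forall fun x => ?_
    obtain ⟨v, hv⟩ := h.cov m x
    exact mem_iUnion₂.2 ⟨v, ⟨x, hv⟩, hv⟩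
  · intro u _ v _ w _ h1 h2 h3
    rw [← subset_empty_iff]
    rintro x ⟨⟨h4, h5⟩, h6⟩
    exact h.triple m u v w h1 h2 h3 x h4 h5 h6
  · intro v _ w _ _
    rw [interior_univ]
    exact subset_univ _

/-- unions of cells are tame -/
theorem union_tame [CompactSpace X] (h : Dig D par) (m : ℕ) (T : Set V) :
    Tame (⋃ v ∈ T, D m v) := by
  have : ⋃ v ∈ T, D m v = ⋃ v ∈ T ∩ {v | (D m v).Nonempty}, D m v := by
    ext x
    simp only [mem_iUnion, mem_inter_iff, exists_prop]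
    constructor
    · rintro ⟨v, hv, hx⟩; exact ⟨v, ⟨hv, ⟨x, hx⟩⟩, hx⟩
    · rintro ⟨v, hv, hx⟩; exact ⟨v, hv.1, hx⟩
  rw [this]
  exact (h.isPart m).union_tame (h.fin m) inter_subset_right

theorem locallyConnected (h : Dig D par) : LocallyConnectedSpace X := by
  rw [locallyConnectedSpace_iff_connected_subsets]
  intro x U hU
  obtain ⟨i, hi⟩ := h.small_sub 0 hU
  refine ⟨⋃ v ∈ {v | x ∈ D (0 + i) v}, D (0 + i) v, ?_, ?_, ?_⟩
  · exact mem_interior_iff_mem_nhds.1 (h.mem_interior fun v hv => hv)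
  · have h2 : IsPreconnected (⋃₀ ((D (0 + i)) '' {v | x ∈ D (0 + i) v})) := by
      refine isPreconnected_sUnion x _ ?_ ?_
      · rintro _ ⟨v, hv, rfl⟩
        exact hv
      · rintro _ ⟨v, hv, rfl⟩
        have h1 := (h.conn (0 + i) v ⟨x, hv⟩).closure
        rw [(h.tame (0 + i) v).closure_interior] at h1
        exact h1.isPreconnected
    rwa [sUnion_image] at h2
  · exact iUnion₂_subset fun v hv => hi v hv

theorem tameIn [CompactSpace X] (h : Dig D par) {K O : Set X} (hK : IsCompact K) (hO : IsOpen O)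
    (hKO : K ⊆ O) : TameIn K O := by
  classical
  intro Z hZ hZtd
  -- a clopen part of `Z`
  obtain ⟨Z1, hZ1, hZ2, hZ1Z, hKZ, hZ1O⟩ : ∃ Z1 : Set X, IsClosed Z1 ∧ IsClosed (Z \ Z1) ∧
      Z1 ⊆ Z ∧ K ∩ Z ⊆ Z1 ∧ Z1 ⊆ O := by
    have : CompactSpace Z := isCompact_iff_compactSpace.1 hZ
    have : TotallyDisconnectedSpace Z := totallyDisconnectedSpace_subtype_iff.2 hZtd
    have hU : IsOpen (Subtype.val ⁻¹' O : Set Z) := hO.preimage continuous_subtype_val
    have hc : ∀ z : Z, ∃ V : Set Z, (z : X) ∈ K → (IsClopen V ∧ z ∈ V ∧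
        V ⊆ Subtype.val ⁻¹' O) := by
      intro z
      by_cases hz : (z : X) ∈ K
      · obtain ⟨V, h1, h2, h3⟩ := compact_exists_isClopen_in_isOpen hU (hKO hz)
        exact ⟨V, fun _ => ⟨h1, h2, h3⟩⟩
      · exact ⟨∅, fun h => absurd h hz⟩
    choose V hV using hc
    have hKc : IsCompact (Subtype.val ⁻¹' K : Set Z) :=
      (hK.isClosed.preimage continuous_subtype_val).isCompact
    obtain ⟨t, ht1, ht2⟩ := hKc.elim_nhds_subcover V fun z hz =>
      (hV z hz).1.isOpen.mem_nhds (hV z hz).2.1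
    have hcl : IsClopen (⋃ z ∈ t, V z) := by
      exact t.finite_toSet.isClopen_biUnion fun z hz => (hV z (ht1 z hz)).1
    refine ⟨Subtype.val '' (⋃ z ∈ t, V z), ?_, ?_, ?_, ?_, ?_⟩
    · exact hZ.isClosed.isClosedMap_subtype_val _ hcl.isClosed
    · have : Z \ Subtype.val '' (⋃ z ∈ t, V z) = Subtype.val '' (⋃ z ∈ t, V z)ᶜ := by
        ext x
        constructor
        · rintro ⟨h1, h2⟩
          exact ⟨⟨x, h1⟩, fun h => h2 ⟨_, h, rfl⟩, rfl⟩
        · rintro ⟨z, hz, rfl⟩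
          refine ⟨z.2, ?_⟩
          rintro ⟨z', hz', h⟩
          rw [Subtype.ext h] at hz'
          exact hz hz'
      rw [this]
      exact hZ.isClosed.isClosedMap_subtype_val _ hcl.compl.isClosed
    · rintro _ ⟨z, _, rfl⟩; exact z.2
    · rintro x ⟨hxK, hxZ⟩
      exact ⟨⟨x, hxZ⟩, ht2 hxK, rfl⟩
    · rintro _ ⟨z, hz, rfl⟩
      obtain ⟨z', hz', hzz'⟩ := mem_iUnion₂.1 hz
      exact (hV z' (ht1 z' hz')).2.2 hzz'
  have hL : IsCompact (K ∪ Z1) := hK.union hZ1.isCompact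
  have hLO : K ∪ Z1 ⊆ O ∩ (Z \ Z1)ᶜ := by
    rintro x (hx | hx)
    · exact ⟨hKO hx, fun h2 => h2.2 (hKZ ⟨hx, h2.1⟩)⟩
    · exact ⟨hZ1O hx, fun h2 => h2.2 hx⟩
  obtain ⟨ε, hε, hth⟩ := hL.exists_thickening_subset_open (hO.inter hZ2.isOpen_compl) hLO
  obtain ⟨m, hm⟩ := h.mesh ε hε
  set T : Set V := {v | (D m v ∩ (K ∪ Z1)).Nonempty} with hT
  have hGth : ⋃ v ∈ T, D m v ⊆ O ∩ (Z \ Z1)ᶜ := by
    refine Subset.trans ?_ hth
    intro x hx
    obtain ⟨v, ⟨y, hy1, hy2⟩, hxv⟩ := mem_iUnion₂.1 hx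
    rw [Metric.mem_thickening_iff]
    exact ⟨y, hy2, hm m le_rfl v x hxv y hy1⟩
  have hGint : K ∪ Z1 ⊆ interior (⋃ v ∈ T, D m v) := by
    intro x hx
    exact h.mem_interior fun v hv => ⟨x, hv, hx⟩
  refine ⟨⋃ v ∈ T, D m v, h.union_tame m T, (h.closed_biUnion m T).isCompact,
    subset_union_left.trans hGint, fun x hx => (hGth hx).1, ?_⟩
  rw [Set.disjoint_left]
  intro x hx hxZ
  by_cases hx1 : x ∈ Z1
  · exact hx.2 (hGint (Or.inr hx1))
  · exact (hGth ((h.closed_biUnion m T).frontier_subset hx)).2 ⟨hxZ, hx1⟩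

theorem hasFine [CompactSpace X] (h : Dig D par) : ∀ ε > 0, HasFine (X := X) (Small ε) := by
  intro ε hε R hR
  have := h.locallyConnected
  obtain ⟨𝒯, h1, h2, h3⟩ := exists_fine_compact (fun K O => h.tameIn) hR.toTame hR.compact
    (fun x => Metric.ball x (ε / 2)) (fun x _ => Metric.ball_mem_nhds x (half_pos hε))
  refine ⟨𝒯, h1, h2, fun t ht => ?_⟩
  obtain ⟨x, _, hx⟩ := h3 t ht
  intro y hy z hz
  have h4 := hx hy
  have h5 := hx hz
  rw [Metric.mem_ball] at h4 h5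
  have h6 := dist_triangle_right y z x
  linarith

end Dig

end Run7.h116
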