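import Pool.Agent.Run7.h116.T10

set_option autoImplicit false
set_option linter.unusedSectionVars false

/-!
# Splitting of cells from splitting of digital cells
-/

open Set Topology Filter

namespace Run7.h116

/-- a compact subset of a connected open set lies in a compact connected subset -/
theorem exists_compact_connected {X : Type*} [TopologicalSpace X] [T2Space X]
    [LocallyCompactSpace X] [LocallyConnectedSpace X] {U K : Set X} (hU : IsOpen U)
    (hc : IsConnected U) (hK : IsCompact K) (hKU : K ⊆ U) :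
    ∃ K', IsCompact K' ∧ IsConnected K' ∧ K ⊆ K' ∧ K' ⊆ U := by
  classical
  have hN : ∀ x ∈ U, ∃ N, IsCompact N ∧ IsPreconnected N ∧ N ⊆ U ∧ N ∈ 𝓝 x := by
    intro x hx
    obtain ⟨L, hL1, hL2, hL3⟩ := local_compact_nhds (hU.mem_nhds hx)
    obtain ⟨V, hV1, hV2, hV3, hV4⟩ := locallyConnectedSpace_iff_subsets_isOpen_isConnected.1
      inferInstance x L hL1
    refine ⟨closure V, hL3.of_isClosed_subset isClosed_closure
      (closure_minimal hV1 hL3.isClosed), hV4.isPreconnected.closure,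
      (closure_minimal hV1 hL3.isClosed).trans hL2, ?_⟩
    exact mem_of_superset (hV2.mem_nhds hV3) subset_closure
  set P : X → X → Prop := fun x y => ∃ C, IsCompact C ∧ IsPreconnected C ∧ C ⊆ U ∧ x ∈ C ∧ y ∈ C
    with hP
  have hPall : ∀ x ∈ U, ∀ y ∈ U, P x y := by
    intro x hx y hy
    refine hc.isPreconnected.induction₂ P ?_ ?_ ?_ hx hy
    · intro z hz
      obtain ⟨N, h1, h2, h3, h4⟩ := hN z hz
      filter_upwards [mem_nhdsWithin_of_mem_nhds h4] with w hw
      exact ⟨N, h1, h2, h3, mem_of_mem_nhds h4, hw⟩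
    · rintro a b c _ _ _ ⟨C, h1, h2, h3, h4, h5⟩ ⟨C', g1, g2, g3, g4, g5⟩
      exact ⟨C ∪ C', h1.union g1, h2.union b h5 g4 g2, union_subset h3 g3, Or.inl h4, Or.inr g5⟩
    · rintro a b _ _ ⟨C, h1, h2, h3, h4, h5⟩
      exact ⟨C, h1, h2, h3, h5, h4⟩
  obtain ⟨x0, hx0⟩ := hc.nonempty
  choose! N hN1 hN2 hN3 hN4 using hN
  have hC : ∀ y ∈ U, ∃ C, IsCompact C ∧ IsPreconnected C ∧ C ⊆ U ∧ x0 ∈ C ∧ y ∈ C :=
    fun y hy => hPall x0 hx0 y hy
  choose! C hC1 hC2 hC3 hC4 hC5 using hC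
  obtain ⟨t, htK, ht⟩ := hK.elim_nhds_subcover N fun x hx => hN4 x (hKU hx)
  refine ⟨{x0} ∪ ⋃ y ∈ t, (C y ∪ N y), ?_, ⟨⟨x0, Or.inl rfl⟩, ?_⟩, ?_, ?_⟩
  · exact isCompact_singleton.union (t.isCompact_biUnion fun y hy =>
      (hC1 y (hKU (htK y hy))).union (hN1 y (hKU (htK y hy))))
  · refine isPreconnected_of_forall x0 ?_
    rintro y (hy | hy)
    · rw [mem_singleton_iff] at hy
      subst hy
      exact ⟨{y}, subset_union_left, rfl, rfl, isPreconnected_singleton⟩
    · obtain ⟨z, hz, hyz⟩ := mem_iUnion₂.1 hy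
      have hzU := hKU (htK z hz)
      refine ⟨C z ∪ N z, ?_, Or.inl (hC4 z hzU), hyz, ?_⟩
      · exact (subset_biUnion_of_mem (u := fun y => C y ∪ N y) hz).trans subset_union_right
      · exact (hC2 z hzU).union z (hC5 z hzU) (mem_of_mem_nhds (hN4 z hzU)) (hN2 z hzU)
  · intro x hx
    obtain ⟨y, hy, hxy⟩ := mem_iUnion₂.1 (ht hx)
    exact Or.inr (mem_iUnion₂.2 ⟨y, hy, Or.inr hxy⟩)
  · refine union_subset (singleton_subset_iff.2 hx0) (iUnion₂_subset fun y hy => ?_)
    exact union_subset (hC3 y (hKU (htK y hy))) (hN3 y (hKU (htK y hy)))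

/-- one half of a splitting -/
theorem cell_half {X : Type*} [TopologicalSpace X] [T2Space X] [CompactSpace X]
    {R E E' N N' W : Set X} (hR : Cell R) (hE : Cell E) (hE' : IsClosed E')
    (hN : IsClosed N) (hN' : IsClosed N') (hun : (E ∪ N) ∪ (E' ∪ N') = R)
    (hNE' : Disjoint N E') (hN'E : Disjoint N' E) (hNN' : Disjoint N N') (hW : IsOpen W)
    (hEE' : E ∩ E' ⊆ W) (hNW : Disjoint N W) (hEfr : E ∩ E' ⊆ frontier E)
    (hWR : W ⊆ interior R) : Cell (E ∪ N) := by
  set P := E ∪ N with hP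
  set P' := E' ∪ N' with hP'
  have hPc : IsClosed P := hE.closed.union hN
  have hP'c : IsClosed P' := hE'.union hN'
  have hPP' : P ∩ P' ⊆ E ∩ E' := by
    rintro x ⟨h1 | h1, h2 | h2⟩
    · exact ⟨h1, h2⟩
    · exact absurd h1 (Set.disjoint_left.1 hN'E h2)
    · exact absurd h2 (Set.disjoint_left.1 hNE' h1)
    · exact absurd h2 (Set.disjoint_left.1 hNN' h1)
  have hPR : P ⊆ R := by rw [← hun]; exact subset_union_left
  have hg1 : ∀ x, x ∉ P' → GermEq P R x := by
    intro x hx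
    refine ⟨P'ᶜ, hP'c.isOpen_compl, hx, ?_⟩
    ext y
    constructor
    · rintro ⟨h1, h2⟩; exact ⟨hPR h1, h2⟩
    · rintro ⟨h1, h2⟩
      rw [← hun] at h1
      exact ⟨h1.resolve_right h2, h2⟩
  have hg2 : ∀ x, x ∈ E ∩ E' → GermEq P E x := by
    intro x hx
    refine ⟨W, hW, hEE' hx, ?_⟩
    ext y
    constructor
    · rintro ⟨h1 | h1, h2⟩
      · exact ⟨h1, h2⟩
      · exact absurd h2 (Set.disjoint_left.1 hNW h1)
    · rintro ⟨h1, h2⟩; exact ⟨Or.inl h1, h2⟩
  have hdich : ∀ x ∈ P, x ∉ P' ∨ x ∈ E ∩ E' := by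
    intro x hx
    by_cases h : x ∈ P'
    · exact Or.inr (hPP' ⟨hx, h⟩)
    · exact Or.inl h
  have hEP : interior E ⊆ interior P := interior_mono subset_union_left
  refine ⟨⟨hPc, ?_, ?_, ?_⟩, hPc.isCompact, ?_, ?_⟩
  · intro x hx
    rcases hdich x hx with h | h
    · exact ((hg1 x h).interior.closure.mem_iff).2 (hR.reg (hPR hx))
    · exact ((hg2 x h).interior.closure.mem_iff).2 (hE.reg h.1)
  · have h1 : frontier P ⊆ (P ∩ frontier R) ∪ (E ∩ E') := by
      intro x hx
      have hxP : x ∈ P := hPc.frontier_subset hx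
      rcases hdich x hxP with h | h
      · exact Or.inl ⟨hxP, ((hg1 x h).frontier.mem_iff).1 hx⟩
      · exact Or.inr h
    refine td_subset (td_union (hPc.inter isClosed_frontier) (hE.closed.inter hE') ?_ ?_ ?_) h1
    · rw [Set.disjoint_left]
      rintro x ⟨_, h2⟩ h3
      exact h2.2 (hWR (hEE' h3))
    · exact td_subset hR.td inter_subset_right
    · exact td_subset hE.td hEfr
  · intro x hx
    have hxP : x ∈ P := hPc.frontier_subset hx
    rcases hdich x hxP with h | h
    · exact (hR.tameAt x (((hg1 x h).frontier.mem_iff).1 hx)).germ (hg1 x h).symm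
    · exact (hE.tameAt x (hEfr h)).germ (hg2 x h).symm
  · exact hE.conn.nonempty.mono hEP
  · have key : ∀ A B : Set X, IsOpen A → IsOpen B → interior P ⊆ A ∪ B → interior E ⊆ A →
        (interior P ∩ B).Nonempty → (interior P ∩ (A ∩ B)).Nonempty := by
      intro A B hA hB hAB hEA hBne
      by_contra hcon
      have hno : ∀ y, y ∈ interior P → y ∈ A → y ∈ B → False :=
        fun y h1 h2 h3 => hcon ⟨y, h1, h2, h3⟩
      set V := interior P ∩ B with hV
      have hVo : IsOpen V := isOpen_interior.inter hB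
      have hVE : ∀ y ∈ V, y ∉ E := by
        intro y hy hyE
        obtain ⟨z, hz1, hz2⟩ := mem_closure_iff_nhds.1 (hE.reg hyE) V (hVo.mem_nhds hy)
        exact hno z hz1.1 (hEA hz2) hz1.2
      have hVN : V ⊆ N := fun y hy => (interior_subset hy.1).resolve_left (hVE y hy)
      have hclo : ∀ y ∈ interior R, y ∈ closure V → y ∈ V := by
        intro y hyR hy
        have hyP : y ∈ P := closure_minimal (inter_subset_left.trans interior_subset) hPc hy
        rcases hdich y hyP with h | h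
        · have hyi : y ∈ interior P := ((hg1 y h).interior.mem_iff).2 hyR
          refine ⟨hyi, ?_⟩
          rcases hAB hyi with h1 | h1
          · obtain ⟨z, hz1, hz2⟩ := mem_closure_iff_nhds.1 hy (A ∩ interior P)
              ((hA.inter isOpen_interior).mem_nhds ⟨h1, hyi⟩)
            exact absurd hz2.2 (fun h3 => hno z hz1.2 hz1.1 h3)
          · exact h1
        · obtain ⟨z, hz1, hz2⟩ := mem_closure_iff_nhds.1 hy W (hW.mem_nhds (hEE' h))
          exact absurd hz1 (Set.disjoint_left.1 hNW (hVN hz2))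
      obtain ⟨e, he⟩ := hE.conn.nonempty
      have heV : e ∉ closure V := by
        intro h
        obtain ⟨z, hz1, hz2⟩ := mem_closure_iff_nhds.1 h _ (isOpen_interior.mem_nhds he)
        exact hVE z hz2 (interior_subset hz1)
      obtain ⟨v, hv⟩ := hBne
      have hER : interior P ⊆ interior R := interior_mono hPR
      obtain ⟨z, hz1, hz2, hz3⟩ := hR.conn.isPreconnected V (closure V)ᶜ hVo
        isClosed_closure.isOpen_compl (by
          intro y hy
          by_cases h : y ∈ closure V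
          · exact Or.inl (hclo y hy h)
          · exact Or.inr h) ⟨v, hER hv.1, hv⟩ ⟨e, hER (hEP he), heV⟩
      exact hz3 (subset_closure hz2)
    intro A B hA hB hAB hneA hneB
    by_cases hEA : (interior E ∩ A).Nonempty
    · by_cases hEB : (interior E ∩ B).Nonempty
      · obtain ⟨z, hz, hz2⟩ := hE.conn.isPreconnected A B hA hB (hEP.trans hAB) hEA hEB
        exact ⟨z, hEP hz, hz2⟩
      · refine key A B hA hB hAB ?_ hneB
        intro x hx
        exact (hAB (hEP hx)).resolve_right fun h => hEB ⟨x, hx, h⟩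
    · have h1 := key B A hB hA (by rwa [union_comm]) (by
        intro x hx
        exact (hAB (hEP hx)).resolve_left fun h => hEA ⟨x, hx, h⟩) hneA
      rwa [inter_comm B A] at h1

variable {X V : Type*} [MetricSpace X]

/-- connected digital cells can be split with prescribed types of the boundary cells -/
def DigSplit (D : ℕ → V → Set X) : Prop :=
  ∀ (m : ℕ) (S : Set V), (∀ v ∈ S, (D m v).Nonempty) → AdjConn S (D m) → ∀ t : V → Prop,
    ∃ (k : ℕ) (E1 E2 : Set V), Disjoint E1 E2 ∧ AdjConn E1 (D k) ∧ AdjConn E2 (D k) ∧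
      (∀ u ∈ E1 ∪ E2, (D k u).Nonempty) ∧ (⋃ u ∈ E1 ∪ E2, D k u) = (⋃ v ∈ S, D m v) ∧
      ∀ v ∈ S, ∀ w ∉ S, ∀ x ∈ D m v ∩ D m w, ∀ u ∈ E1 ∪ E2, x ∈ D k u → (u ∈ E1 ↔ t v)

theorem Dig.hasSplit [CompactSpace X] {D : ℕ → V → Set X} {par : V → V} (h : Dig D par)
    (hd : DigSplit D) : HasSplit X := by
  classical
  have := h.locallyConnected
  intro R B1 B2 hR hB1 hB2 hdis hun
  -- disjoint neighbourhoods
  obtain ⟨δ, hδ, hth⟩ := hdis.exists_thickenings hB1.isCompact hB2
  set O1 := Metric.thickening (δ / 2) B1 with hO1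
  set O2 := Metric.thickening (δ / 2) B2 with hO2
  have hO1o : IsOpen O1 := Metric.isOpen_thickening
  have hO2o : IsOpen O2 := Metric.isOpen_thickening
  have hBO1 : B1 ⊆ O1 := Metric.self_subset_thickening (half_pos hδ) _
  have hBO2 : B2 ⊆ O2 := Metric.self_subset_thickening (half_pos hδ) _
  have hfar : ∀ x ∈ O1, ∀ y ∈ O2, δ / 2 ≤ dist x y := by
    intro x hx y hy
    by_contra hlt
    push Not at hlt
    rw [hO1, Metric.mem_thickening_iff] at hx
    rw [hO2, Metric.mem_thickening_iff] at hy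
    obtain ⟨b, hb, hxb⟩ := hx
    obtain ⟨c, hc, hyc⟩ := hy
    have h1 : y ∈ Metric.thickening δ B1 := by
      rw [Metric.mem_thickening_iff]
      refine ⟨b, hb, ?_⟩
      have := dist_triangle y x b
      rw [dist_comm y x] at this
      linarith
    have h2 : y ∈ Metric.thickening δ B2 := by
      rw [Metric.mem_thickening_iff]
      exact ⟨c, hc, by linarith⟩
    exact Set.disjoint_left.1 hth h1 h2
  have hO12 : Disjoint O1 O2 := by
    rw [Set.disjoint_left]
    intro x hx hx2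
    have := hfar x hx x hx2
    rw [dist_self] at this
    linarith
  -- the compact core
  have hK0 : IsCompact (R \ (O1 ∪ O2)) := hR.compact.diff (hO1o.union hO2o)
  have hK0R : R \ (O1 ∪ O2) ⊆ interior R := by
    rintro x ⟨h1, h2⟩
    by_contra h3
    have h4 : x ∈ frontier R := by rw [hR.frontier_eq]; exact ⟨h1, h3⟩
    rw [← hun] at h4
    rcases h4 with h4 | h4
    · exact h2 (Or.inl (hBO1 h4))
    · exact h2 (Or.inr (hBO2 h4))
  obtain ⟨K, hKc, hKcon, hK0K, hKR⟩ := exists_compact_connected isOpen_interior hR.conn hK0 hK0R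
  obtain ⟨ε, hε, hεR⟩ := hKc.exists_thickening_subset_open isOpen_interior hKR
  obtain ⟨m, hm⟩ := h.mesh (min ε (δ / 2)) (lt_min hε (half_pos hδ))
  have hm' := hm m le_rfl
  set S : Set V := {v | (D m v ∩ K).Nonempty} with hS
  have hSne : ∀ v ∈ S, (D m v).Nonempty := fun v hv => hv.mono inter_subset_left
  set DS : Set X := ⋃ v ∈ S, D m v with hDS
  have hDSc : IsClosed DS := h.closed_biUnion m S
  have hDSR : DS ⊆ interior R := by
    refine Subset.trans ?_ hεR
    intro x hx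
    obtain ⟨v, ⟨y, hy1, hy2⟩, hxv⟩ := mem_iUnion₂.1 hx
    rw [Metric.mem_thickening_iff]
    exact ⟨y, hy2, (hm' v x hxv y hy1).trans_le (min_le_left _ _)⟩
  have hKDS : K ⊆ interior DS := fun x hx => h.mem_interior fun v hv => ⟨x, hv, hx⟩
  have hDScon : IsConnected DS := by
    obtain ⟨k0, hk0⟩ := hKcon.nonempty
    refine ⟨⟨k0, interior_subset (hKDS hk0)⟩, isPreconnected_of_forall k0 ?_⟩
    intro y hy
    obtain ⟨v, hv, hyv⟩ := mem_iUnion₂.1 hy
    obtain ⟨z, hz1, hz2⟩ := hv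
    refine ⟨K ∪ D m v, union_subset (hKDS.trans interior_subset) ?_, Or.inl hk0, Or.inr hyv, ?_⟩
    · exact subset_biUnion_of_mem (u := fun v => D m v) (show v ∈ S from ⟨z, hz1, hz2⟩)
    · exact hKcon.isPreconnected.union z hz2 hz1 (h.cell ⟨z, hz1⟩).connected.isPreconnected
  have hpS : IsPart DS S (D m) := by
    refine ⟨fun v hv => h.cell (hSne v hv), rfl, fun v _ w _ hvw => h.dis m v w hvw, ?_, ?_⟩
    · intro u _ v _ w _ h1 h2 h3
      rw [← subset_empty_iff]
      rintro x ⟨⟨h4, h5⟩, h6⟩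
      exact h.triple m u v w h1 h2 h3 x h4 h5 h6
    · rintro v hv w hw hvw x ⟨h1, h2⟩
      refine interior_mono (union_subset ?_ ?_) (h.mem_interior_two hvw h1 h2)
      · exact subset_biUnion_of_mem (u := fun v => D m v) hv
      · exact subset_biUnion_of_mem (u := fun v => D m v) hw
  have hSfin : S.Finite := (h.fin m).subset hSne
  have hadj : AdjConn S (D m) := hpS.adjConn hSfin hDScon
  -- the collar
  set N := R \ interior DS with hN
  have hNc : IsClosed N := hR.closed.sdiff isOpen_interior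
  have hNO : N ⊆ O1 ∪ O2 := by
    rintro x ⟨h1, h2⟩
    by_contra h3
    exact h2 (hKDS (hK0K ⟨h1, h3⟩))
  set N1 := N ∩ O2ᶜ with hN1
  set N2 := N ∩ O1ᶜ with hN2
  have hN1c : IsClosed N1 := hNc.inter hO2o.isClosed_compl
  have hN2c : IsClosed N2 := hNc.inter hO1o.isClosed_compl
  have hN1O : N1 ⊆ O1 := fun x hx => (hNO hx.1).resolve_right hx.2
  have hN2O : N2 ⊆ O2 := fun x hx => (hNO hx.1).resolve_left hx.2
  have hN12 : Disjoint N1 N2 := by
    rw [Set.disjoint_left]
    intro x h1 h2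
    exact h2.2 (hN1O h1)
  have hNun : ∀ x ∈ N, x ∈ N1 ∨ x ∈ N2 := by
    intro x hx
    by_cases hx2 : x ∈ O2
    · exact Or.inr ⟨hx, fun h1 => Set.disjoint_left.1 hO12 h1 hx2⟩
    · exact Or.inl ⟨hx, hx2⟩
  obtain ⟨k, E1, E2, hE12, hE1, hE2, hEne, hEun, hEbd⟩ := hd m S hSne hadj
    (fun v => (D m v ∩ N1).Nonempty)
  set F1 : Set X := ⋃ u ∈ E1, D k u with hF1
  set F2 : Set X := ⋃ u ∈ E2, D k u with hF2
  have hF12 : F1 ∪ F2 = DS := by
    rw [hDS, ← hEun, biUnion_union]
  have hF1cell : Cell F1 := (h.isPart k).union_cell (h.fin k)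
    (fun u hu => hEne u (Or.inl hu)) hE1
  have hF2cell : Cell F2 := (h.isPart k).union_cell (h.fin k)
    (fun u hu => hEne u (Or.inr hu)) hE2
  -- points of the boundary of `DS`
  have hbdpt : ∀ x ∈ N, x ∈ DS → ∃ v ∈ S, ∃ w ∉ S, x ∈ D m v ∩ D m w := by
    intro x hx hxD
    obtain ⟨v, hv, hxv⟩ := mem_iUnion₂.1 hxD
    by_contra hcon
    push Not at hcon
    refine hx.2 (h.mem_interior fun w hw => ?_)
    by_contra hwS
    exact hcon v hv w hwS ⟨hxv, hw⟩
  have hN1F2 : Disjoint N1 F2 := by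
    rw [Set.disjoint_left]
    intro x hx hxF
    obtain ⟨u, hu, hxu⟩ := mem_iUnion₂.1 hxF
    obtain ⟨v, hv, w, hw, hxvw⟩ := hbdpt x hx.1 (by rw [← hF12]; exact Or.inr hxF)
    have h1 := (hEbd v hv w hw x hxvw u (Or.inr hu) hxu).2 ⟨x, hxvw.1, hx⟩
    exact Set.disjoint_left.1 hE12 h1 hu
  have hN2F1 : Disjoint N2 F1 := by
    rw [Set.disjoint_left]
    intro x hx hxF
    obtain ⟨u, hu, hxu⟩ := mem_iUnion₂.1 hxF
    obtain ⟨v, hv, w, hw, hxvw⟩ := hbdpt x hx.1 (by rw [← hF12]; exact Or.inl hxF)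
    obtain ⟨y, hy1, hy2⟩ := (hEbd v hv w hw x hxvw u (Or.inl hu) hxu).1 hu
    have h1 := hfar y (hN1O hy2) x (hN2O hx)
    have h2 := (hm' v y hy1 x hxvw.1).trans_le (min_le_right _ _)
    linarith
  have hF12W : F1 ∩ F2 ⊆ interior DS := by
    rintro x ⟨h1, h2⟩
    by_contra h3
    have h4 : x ∈ DS := by rw [← hF12]; exact Or.inl h1
    rcases hNun x ⟨interior_subset (hDSR h4), h3⟩ with h5 | h5
    · exact Set.disjoint_left.1 hN1F2 h5 h2
    · exact Set.disjoint_left.1 hN2F1 h5 h1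
  have hF12int : Disjoint (interior F1) F2 := by
    rw [Set.disjoint_left]
    intro x hx hx2
    obtain ⟨u, hu, hxu⟩ := mem_iUnion₂.1 hx2
    obtain ⟨y, hy1, hy2⟩ := mem_closure_iff_nhds.1 (h.reg k u hxu) _ (isOpen_interior.mem_nhds hx)
    obtain ⟨u', hu', hyu'⟩ := mem_iUnion₂.1 (interior_subset hy1)
    have := h.eq_of_mem_int hyu' hy2
    subst this
    exact Set.disjoint_left.1 hE12 hu' hu
  have hF21int : Disjoint (interior F2) F1 := by
    rw [Set.disjoint_left]
    intro x hx hx2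
    obtain ⟨u, hu, hxu⟩ := mem_iUnion₂.1 hx2
    obtain ⟨y, hy1, hy2⟩ := mem_closure_iff_nhds.1 (h.reg k u hxu) _ (isOpen_interior.mem_nhds hx)
    obtain ⟨u', hu', hyu'⟩ := mem_iUnion₂.1 (interior_subset hy1)
    have := h.eq_of_mem_int hyu' hy2
    subst this
    exact Set.disjoint_left.1 hE12 hu hu'
  have hfr1 : F1 ∩ F2 ⊆ frontier F1 := by
    rintro x ⟨h1, h2⟩
    rw [hF1cell.frontier_eq]
    exact ⟨h1, fun h3 => Set.disjoint_left.1 hF12int h3 h2⟩
  have hfr2 : F2 ∩ F1 ⊆ frontier F2 := by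
    rintro x ⟨h1, h2⟩
    rw [hF2cell.frontier_eq]
    exact ⟨h1, fun h3 => Set.disjoint_left.1 hF21int h3 h2⟩
  have hNW : Disjoint N (interior DS) := by
    rw [Set.disjoint_left]
    intro x hx h1
    exact hx.2 h1
  have hunR : (F1 ∪ N1) ∪ (F2 ∪ N2) = R := by
    ext x
    constructor
    · rintro ((h1 | h1) | (h1 | h1))
      · exact interior_subset (hDSR (by rw [← hF12]; exact Or.inl h1))
      · exact h1.1.1
      · exact interior_subset (hDSR (by rw [← hF12]; exact Or.inr h1))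
      · exact h1.1.1
    · intro hx
      by_cases h1 : x ∈ interior DS
      · have h2 := interior_subset h1
        rw [← hF12] at h2
        rcases h2 with h2 | h2
        · exact Or.inl (Or.inl h2)
        · exact Or.inr (Or.inl h2)
      · rcases hNun x ⟨hx, h1⟩ with h2 | h2
        · exact Or.inl (Or.inr h2)
        · exact Or.inr (Or.inr h2)
  have hWR : interior DS ⊆ interior R := interior_subset.trans hDSR
  have hP1 : Cell (F1 ∪ N1) := cell_half hR hF1cell hF2cell.closed hN1c hN2c hunR hN1F2 hN2F1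
    hN12 isOpen_interior hF12W (hNW.mono_left inter_subset_left) hfr1 hWR
  have hP2 : Cell (F2 ∪ N2) := cell_half hR hF2cell hF1cell.closed hN2c hN1c
    (by rw [union_comm]; exact hunR) hN2F1 hN1F2 hN12.symm isOpen_interior
    (by rw [inter_comm]; exact hF12W) (hNW.mono_left inter_subset_left) hfr2 hWR
  have hPP : (F1 ∪ N1) ∩ (F2 ∪ N2) ⊆ F1 ∩ F2 := by
    rintro x ⟨h1 | h1, h2 | h2⟩
    · exact ⟨h1, h2⟩
    · exact absurd h1 (Set.disjoint_left.1 hN2F1 h2)
    · exact absurd h2 (Set.disjoint_left.1 hN1F2 h1)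
    · exact absurd h2 (Set.disjoint_left.1 hN12 h1)
  have hfrD : ∀ x ∈ frontier R, x ∉ DS := fun x hx hxD => hx.2 (hDSR hxD)
  have hfrN : ∀ x ∈ frontier R, x ∈ N := fun x hx =>
    ⟨hR.frontier_subset hx, fun h1 => hfrD x hx (interior_subset h1)⟩
  refine ⟨F1 ∪ N1, F2 ∪ N2, ⟨hP1, hP2, hunR, ?_, ?_, ?_⟩, ?_, ?_⟩
  · rw [Set.disjoint_left]
    intro x hx1 hx2
    have h1 := hPP ⟨interior_subset hx1, interior_subset hx2⟩
    have h2 : x ∈ interior F1 := by
      refine _root_.mem_interior.2 ⟨interior (F1 ∪ N1) ∩ interior DS, ?_,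
        isOpen_interior.inter isOpen_interior, hx1, hF12W h1⟩
      rintro y ⟨hy1, hy2⟩
      exact (interior_subset hy1).resolve_right fun h3 => h3.1.2 hy2
    exact Set.disjoint_left.1 hF12int h2 h1.2
  · exact (hPP.trans hF12W).trans hWR
  · obtain ⟨z, hz, hz1, hz2⟩ := isPreconnected_closed_iff.1 hDScon.isPreconnected F1 F2
      hF1cell.closed hF2cell.closed (by rw [hF12]) (by
        obtain ⟨x, hx⟩ := hF1cell.nonempty
        exact ⟨x, by rw [← hF12]; exact Or.inl hx, hx⟩) (by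
        obtain ⟨x, hx⟩ := hF2cell.nonempty
        exact ⟨x, by rw [← hF12]; exact Or.inr hx, hx⟩)
    exact ⟨z, Or.inl hz1, Or.inl hz2⟩
  · ext x
    constructor
    · rintro ⟨h1 | h1, h2⟩
      · exact absurd (by rw [← hF12]; exact Or.inl h1) (hfrD x h2)
      · rw [← hun] at h2
        rcases h2 with h2 | h2
        · exact h2
        · exact absurd (hBO2 h2) h1.2
    · intro hx
      have hxf : x ∈ frontier R := by rw [← hun]; exact Or.inl hx
      exact ⟨Or.inr ⟨hfrN x hxf, fun h1 => Set.disjoint_left.1 hO12 (hBO1 hx) h1⟩, hxf⟩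
  · ext x
    constructor
    · rintro ⟨h1 | h1, h2⟩
      · exact absurd (by rw [← hF12]; exact Or.inr h1) (hfrD x h2)
      · rw [← hun] at h2
        rcases h2 with h2 | h2
        · exact absurd (hBO1 h2) h1.2
        · exact h2
    · intro hx
      have hxf : x ∈ frontier R := by rw [← hun]; exact Or.inr hx
      exact ⟨Or.inr ⟨hfrN x hxf, fun h1 => Set.disjoint_left.1 hO12 h1 (hBO2 hx)⟩, hxf⟩

end Run7.h116
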