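import Pool.Agent.Run7.h116.T11
import Pool.Agent.Helper259.Menger.Digits

set_option autoImplicit false
set_option linter.unusedSectionVars false

/-!
# The cells of the Menger curve
-/

open Set Topology Filter
open Pool.Agent.Helper259.Menger

namespace Run7.h116

/-- the index set of the coordinates -/
abbrev J := Fin (2 * 1 + 1)

/-- closed cells -/
def D (m : ℕ) (v : J → ℕ) : Set (menger 1) :=
  {x | ∀ i, |3 ^ m * (x : J → ℝ) i - v i| ≤ 1 / 2}

/-- open cells -/
def I (m : ℕ) (v : J → ℕ) : Set (menger 1) :=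
  {x | ∀ i, |3 ^ m * (x : J → ℝ) i - v i| < 1 / 2}

/-- the parent of a vertex -/
def par (u : J → ℕ) : J → ℕ := fun i => (u i + 1) / 3

/-- `p` is a vertex of the cube `b` -/
def Vtx (b p : J → ℕ) : Prop := ∀ j, p j = b j ∨ p j = b j + 1

/-- the point with integer coordinates `u` at level `k` -/
noncomputable def pt (k : ℕ) (u : J → ℕ) : J → ℝ := fun i => (u i : ℝ) / 3 ^ k

theorem three_pos (m : ℕ) : (0 : ℝ) < 3 ^ m := by positivity

theorem exists_cube (x : menger 1) (k : ℕ) : ∃ a : J → ℕ, Kept 1 k a ∧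
    ∀ j, (a j : ℝ) ≤ 3 ^ k * (x : J → ℝ) j ∧ 3 ^ k * (x : J → ℝ) j ≤ (a j : ℝ) + 1 :=
  exists_kept x.2 k

theorem x_nonneg (x : menger 1) (j : J) : 0 ≤ (x : J → ℝ) j := by
  obtain ⟨a, ha, h⟩ := exists_cube x 0
  have := (h j).1
  have h1 : a j = 0 := ha j
  rw [h1] at this
  simpa using this

theorem x_le_one (x : menger 1) (j : J) : (x : J → ℝ) j ≤ 1 := by
  obtain ⟨a, ha, h⟩ := exists_cube x 0
  have := (h j).2
  have h1 : a j = 0 := ha j
  rw [h1] at this
  simpa using this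

/-- two coordinates of a kept cube are not both in the middle -/
theorem Kept.not_both {k : ℕ} {a : J → ℕ} (h : Kept 1 (k + 1) a) {i j : J} (hij : i ≠ j) :
    ¬ (a i % 3 = 1 ∧ a j % 3 = 1) := by
  rintro ⟨h1, h2⟩
  have h3 := Finset.card_le_one.1 h.2 i (by simp [h1]) j (by simp [h2])
  exact hij h3

theorem half_cube {k : ℕ} {x : menger 1} {a : J → ℕ} {i : J}
    (h : (a i : ℝ) ≤ 3 ^ (k + 1) * (x : J → ℝ) i ∧ 3 ^ (k + 1) * (x : J → ℝ) i ≤ (a i : ℝ) + 1)
    {c : ℕ} (hc : 3 ^ k * (x : J → ℝ) i = c + 1 / 2) : a i % 3 = 1 := by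
  have e : (3 : ℝ) ^ (k + 1) * (x : J → ℝ) i = 3 * (3 ^ k * (x : J → ℝ) i) := by ring
  rw [e, hc] at h
  have h1 : a i ≤ 3 * c + 1 := by
    have : (a i : ℝ) < (3 * c + 2 : ℕ) := by push_cast; linarith [h.1]
    have := Nat.cast_lt.1 this
    omega
  have h2 : 3 * c + 1 ≤ a i := by
    have : ((3 * c : ℕ) : ℝ) < a i := by push_cast; linarith [h.2]
    have := Nat.cast_lt.1 this
    omega
  omega

theorem two_mid {k : ℕ} {x : menger 1} {i j : J} (hij : i ≠ j) {c d : ℕ}
    (hc : 3 ^ k * (x : J → ℝ) i = c + 1 / 2) (hd : 3 ^ k * (x : J → ℝ) j = d + 1 / 2) : False := by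
  obtain ⟨a, ha, h⟩ := exists_cube x (k + 1)
  exact Kept.not_both ha hij ⟨half_cube (h i) hc, half_cube (h j) hd⟩

theorem half_up {k : ℕ} {x : menger 1} {i : J} {c : ℕ} (hc : 3 ^ k * (x : J → ℝ) i = c + 1 / 2)
    (l : ℕ) : ∃ c' : ℕ, 3 ^ (k + l) * (x : J → ℝ) i = c' + 1 / 2 := by
  induction l with
  | zero => exact ⟨c, hc⟩
  | succ l ih =>
    obtain ⟨c', hc'⟩ := ih
    refine ⟨3 * c' + 1, ?_⟩
    have e : (3 : ℝ) ^ (k + (l + 1)) * (x : J → ℝ) i = 3 * (3 ^ (k + l) * (x : J → ℝ) i) := by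
      ring
    rw [e, hc']
    push_cast
    ring

/-- a coordinate on the boundary of a cell is a half integer -/
theorem half_of_abs {m : ℕ} {x : menger 1} {i : J} {v : ℕ}
    (h : |3 ^ m * (x : J → ℝ) i - v| = 1 / 2) :
    ∃ c : ℕ, 3 ^ m * (x : J → ℝ) i = c + 1 / 2 ∧ (v = c ∨ v = c + 1) := by
  have h3 := three_pos m
  have hx := x_nonneg x i
  rcases abs_cases (3 ^ m * (x : J → ℝ) i - (v : ℝ)) with ⟨h1, _⟩ | ⟨h1, _⟩
  · exact ⟨v, by linarith, Or.inl rfl⟩
  · have h4 : 0 ≤ 3 ^ m * (x : J → ℝ) i := mul_nonneg h3.le hx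
    have h5 : 0 < v := by
      rcases Nat.eq_zero_or_pos v with h0 | h0
      · subst h0
        push_cast at h h1
        linarith
      · exact h0
    refine ⟨v - 1, ?_, Or.inr (by omega)⟩
    rw [Nat.cast_sub h5]
    push_cast
    linarith

/-- two different cells containing a point -/
theorem two_cells {m : ℕ} {x : menger 1} {v w : J → ℕ} (hv : x ∈ D m v) (hw : x ∈ D m w) {i : J}
    (hi : v i ≠ w i) : ∃ c : ℕ, 3 ^ m * (x : J → ℝ) i = c + 1 / 2 ∧ (v i = c ∨ v i = c + 1) ∧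
      (w i = c ∨ w i = c + 1) := by
  have h1 := abs_le.1 (hv i)
  have h2 := abs_le.1 (hw i)
  rcases lt_or_gt_of_ne hi with h | h
  · have h3 : (v i : ℝ) + 1 ≤ w i := by exact_mod_cast h
    refine ⟨v i, by linarith, Or.inl rfl, Or.inr ?_⟩
    have h4 : (w i : ℝ) ≤ v i + 1 := by linarith
    have h5 : w i ≤ v i + 1 := by exact_mod_cast h4
    omega
  · have h3 : (w i : ℝ) + 1 ≤ v i := by exact_mod_cast h
    refine ⟨w i, by linarith, Or.inr ?_, Or.inl rfl⟩
    have h4 : (v i : ℝ) ≤ w i + 1 := by linarith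
    have h5 : v i ≤ w i + 1 := by exact_mod_cast h4
    omega

theorem two_cells_eq {m : ℕ} {x : menger 1} {v w : J → ℕ} (hv : x ∈ D m v) (hw : x ∈ D m w)
    {i : J} (hi : v i ≠ w i) {j : J} (hj : j ≠ i) : v j = w j := by
  by_contra h
  obtain ⟨c, hc, _⟩ := two_cells hv hw hi
  obtain ⟨d, hd, _⟩ := two_cells hv hw h
  exact two_mid hj hd hc

theorem exists_ne_coord {v w : J → ℕ} (h : v ≠ w) : ∃ i, v i ≠ w i := Function.ne_iff.1 h

theorem no_triple (m : ℕ) (u v w : J → ℕ) (huv : u ≠ v) (hvw : v ≠ w) (huw : u ≠ w)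
    (x : menger 1) (hu : x ∈ D m u) (hv : x ∈ D m v) (hw : x ∈ D m w) : False := by
  obtain ⟨i, hi⟩ := exists_ne_coord huv
  obtain ⟨c, hc, h1, h2⟩ := two_cells hu hv hi
  obtain ⟨j, hj⟩ := exists_ne_coord huw
  obtain ⟨d, hd, h3, h4⟩ := two_cells hu hw hj
  by_cases hij : i = j
  · subst hij
    have hcd : c = d := by
      have : (c : ℝ) = d := by linarith
      exact_mod_cast this
    subst hcd
    have h5 : v i = w i := by omega
    apply hvw
    funext l
    by_cases hl : l = i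
    · subst hl; exact h5
    · rw [← two_cells_eq hu hv hi hl, ← two_cells_eq hu hw hj hl]
  · exact two_mid hij hc hd

theorem mem_D_cube {k : ℕ} {x : menger 1} {v a : J → ℕ} (hv : x ∈ D k v)
    (ha : ∀ j, (a j : ℝ) ≤ 3 ^ k * (x : J → ℝ) j ∧ 3 ^ k * (x : J → ℝ) j ≤ (a j : ℝ) + 1) :
    Vtx a v := by
  intro j
  have h1 := abs_le.1 (hv j)
  have h2 := ha j
  have h3 : a j < v j + 1 := by
    have : (a j : ℝ) < (v j + 1 : ℕ) := by push_cast; linarith
    exact_mod_cast this
  have h4 : v j < a j + 2 := by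
    have : (v j : ℝ) < (a j + 2 : ℕ) := by push_cast; linarith
    exact_mod_cast this
  omega

theorem pt_mem {k : ℕ} {b p : J → ℕ} (hb : Kept 1 k b) (hp : Vtx b p) : pt k p ∈ menger 1 := by
  have h3 := three_pos k
  have e : ∀ j, (3 : ℝ) ^ k * pt k p j = p j := by
    intro j
    simp only [pt]
    field_simp
  refine mem_menger_of_endpoints hb ?_ ∅ (by simp) ?_
  · intro j
    rw [e]
    rcases hp j with h | h <;> rw [h] <;> push_cast <;> constructor <;> linarith
  · intro j _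
    rw [e]
    rcases hp j with h | h <;> rw [h]
    · exact Or.inl rfl
    · right; push_cast; ring

/-- the corner cube, one coordinate -/
def cc (a v : ℕ) : ℕ := if a / 3 = v then 3 * v else 3 * v - 1

theorem cc_spec {a u : ℕ} (h : u = a ∨ u = a + 1) :
    cc a ((u + 1) / 3) / 3 = a / 3 ∧ cc a ((u + 1) / 3) % 3 ≠ 1 ∧
      (u = cc a ((u + 1) / 3) ∨ u = cc a ((u + 1) / 3) + 1) ∧
      (3 * ((u + 1) / 3) = cc a ((u + 1) / 3) ∨ 3 * ((u + 1) / 3) = cc a ((u + 1) / 3) + 1) := by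
  unfold cc
  split_ifs with h'
  · omega
  · omega

/-- the chain of cubes along vertices -/
theorem corner_cube {k : ℕ} {x : menger 1} {u : J → ℕ} (hu : x ∈ D (k + 1) u) :
    ∃ b, Kept 1 (k + 1) b ∧ Vtx b u ∧ Vtx b (fun j => 3 * par u j) := by
  obtain ⟨a, ha, hx⟩ := exists_cube x (k + 1)
  have hau := mem_D_cube hu hx
  refine ⟨fun j => cc (a j) ((u j + 1) / 3), ⟨?_, ?_⟩, ?_, ?_⟩
  · have : (fun j => cc (a j) ((u j + 1) / 3) / 3) =
        fun j => a j / 3 := funext fun j => (cc_spec (hau j)).1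
    rw [this]
    exact ha.1
  · have : (Finset.univ.filter fun j => cc (a j) ((u j + 1) / 3) % 3 = 1) = ∅ := by
      apply Finset.filter_eq_empty_iff.2
      intro j _
      exact (cc_spec (hau j)).2.1
    rw [this]
    simp
  · intro j
    exact (cc_spec (hau j)).2.2.1
  · intro j
    exact (cc_spec (hau j)).2.2.2

/-- a connected set containing two points -/
def Linked {X : Type*} [TopologicalSpace X] (A : Set X) (x y : X) : Prop :=
  ∃ C, IsPreconnected C ∧ C ⊆ A ∧ x ∈ C ∧ y ∈ C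

theorem Linked.trans {X : Type*} [TopologicalSpace X] {A : Set X} {x y z : X}
    (h : Linked A x y) (h' : Linked A y z) : Linked A x z := by
  obtain ⟨C, h1, h2, h3, h4⟩ := h
  obtain ⟨C', g1, g2, g3, g4⟩ := h'
  exact ⟨C ∪ C', h1.union y h4 g3 g1, union_subset h2 g2, Or.inl h3, Or.inr g4⟩

/-- the part of the curve in the box spanned by two vertices -/
def Box (k : ℕ) (p q : J → ℕ) : Set (menger 1) :=
  {y | ∀ j, 3 ^ k * (y : J → ℝ) j ∈ uIcc (p j : ℝ) (q j)}

theorem linked_edge {k : ℕ} {b p q : J → ℕ} (hb : Kept 1 k b) (hp : Vtx b p) (hq : Vtx b q)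
    {i : J} (hpq : ∀ j, j ≠ i → p j = q j) :
    Linked (Box k p q) ⟨pt k p, pt_mem hb hp⟩ ⟨pt k q, pt_mem hb hq⟩ := by
  have h3 := three_pos k
  have e : ∀ (u : J → ℕ) j, (3 : ℝ) ^ k * pt k u j = u j := by
    intro u j
    simp only [pt]
    field_simp
  -- a point of the segment
  have hseg : ∀ y ∈ segment ℝ (pt k p) (pt k q), y ∈ menger 1 ∧
      ∀ j, 3 ^ k * y j ∈ uIcc (p j : ℝ) (q j) := by
    rintro y ⟨s, t, hs, ht, hst, rfl⟩
    have hval : ∀ j, 3 ^ k * (s • pt k p + t • pt k q) j = s * p j + t * q j := by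
      intro j
      simp only [Pi.add_apply, Pi.smul_apply, smul_eq_mul]
      rw [← e p j, ← e q j]
      ring
    have hbox : ∀ j, 3 ^ k * (s • pt k p + t • pt k q) j ∈ uIcc (p j : ℝ) (q j) := by
      intro j
      rw [hval, ← segment_eq_uIcc]
      exact ⟨s, t, hs, ht, hst, by simp⟩
    refine ⟨?_, hbox⟩
    refine mem_menger_of_endpoints hb ?_ {i} (by simp) ?_
    · intro j
      have h1 := hbox j
      rw [mem_uIcc] at h1
      have h2 : (b j : ℝ) ≤ p j ∧ (p j : ℝ) ≤ b j + 1 := by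
        rcases hp j with h | h <;> rw [h] <;> push_cast <;> constructor <;> linarith
      have h4 : (b j : ℝ) ≤ q j ∧ (q j : ℝ) ≤ b j + 1 := by
        rcases hq j with h | h <;> rw [h] <;> push_cast <;> constructor <;> linarith
      rcases h1 with h1 | h1 <;> constructor <;> linarith
    · intro j hj
      have hji : j ≠ i := by simpa using hj
      rw [hval, ← hpq j hji, ← add_mul, hst, one_mul]
      rcases hp j with h | h <;> rw [h]
      · exact Or.inl rfl
      · right; push_cast; ring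
  refine ⟨Subtype.val ⁻¹' segment ℝ (pt k p) (pt k q), ?_, ?_, left_mem_segment _ _ _,
    right_mem_segment _ _ _⟩
  · rw [← Topology.IsInducing.subtypeVal.isPreconnected_image]
    have : Subtype.val '' (Subtype.val ⁻¹' segment ℝ (pt k p) (pt k q) : Set (menger 1)) =
        segment ℝ (pt k p) (pt k q) := by
      rw [Subtype.image_preimage_coe]
      exact inter_eq_self_of_subset_right fun y hy => (hseg y hy).1
    rw [this]
    exact (convex_segment _ _).isPreconnected
  · intro y hy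
    exact (hseg y hy).2

theorem Box.mono {k : ℕ} {p q p' q' : J → ℕ} (h : ∀ j, (p' j = p j ∨ p' j = q j) ∧
    (q' j = p j ∨ q' j = q j)) : Box k p' q' ⊆ Box k p q := by
  intro y hy j
  have h1 := hy j
  rcases h j with ⟨h2 | h2, h3 | h3⟩ <;> rw [h2, h3] at h1
  · rw [uIcc_self, mem_singleton_iff] at h1
    rw [h1]; exact left_mem_uIcc
  · exact h1
  · rw [uIcc_comm]; exact h1
  · rw [uIcc_self, mem_singleton_iff] at h1
    rw [h1]; exact right_mem_uIcc

theorem linked_box {k : ℕ} {b p q : J → ℕ} (hb : Kept 1 k b) (hp : Vtx b p) (hq : Vtx b q) :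
    Linked (Box k p q) ⟨pt k p, pt_mem hb hp⟩ ⟨pt k q, pt_mem hb hq⟩ := by
  classical
  have key : ∀ s : Finset J, ∃ hr : Vtx b (s.piecewise q p),
      Linked (Box k p q) ⟨pt k p, pt_mem hb hp⟩ ⟨pt k (s.piecewise q p), pt_mem hb hr⟩ := by
    intro s
    induction s using Finset.induction_on with
    | empty =>
      refine ⟨by simpa using hp, ?_⟩
      refine ⟨{⟨pt k p, pt_mem hb hp⟩}, isPreconnected_singleton, ?_, rfl, ?_⟩
      · rintro y rfl j
        have : (3 : ℝ) ^ k * pt k p j = p j := by simp only [pt]; field_simp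
        simp only [this]
        exact left_mem_uIcc
      · simp
    | insert i s his ih =>
      obtain ⟨hr, hl⟩ := ih
      have hr' : Vtx b ((insert i s).piecewise q p) := by
        intro j
        by_cases hj : j ∈ insert i s
        · rw [Finset.piecewise_eq_of_mem _ _ _ hj]; exact hq j
        · rw [Finset.piecewise_eq_of_notMem _ _ _ hj]; exact hp j
      refine ⟨hr', hl.trans ?_⟩
      have h1 := linked_edge hb hr hr' (i := i) (by
        intro j hj
        by_cases hjs : j ∈ s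
        · rw [Finset.piecewise_eq_of_mem _ _ _ hjs,
            Finset.piecewise_eq_of_mem _ _ _ (Finset.mem_insert_of_mem hjs)]
        · rw [Finset.piecewise_eq_of_notMem _ _ _ hjs,
            Finset.piecewise_eq_of_notMem _ _ _ (by simp [hj, hjs])])
      obtain ⟨C, c1, c2, c3, c4⟩ := h1
      refine ⟨C, c1, c2.trans (Box.mono ?_), c3, c4⟩
      intro j
      refine ⟨?_, ?_⟩
      · by_cases hjs : j ∈ s
        · rw [Finset.piecewise_eq_of_mem _ _ _ hjs]; exact Or.inr rfl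
        · rw [Finset.piecewise_eq_of_notMem _ _ _ hjs]; exact Or.inl rfl
      · by_cases hjs : j ∈ insert i s
        · rw [Finset.piecewise_eq_of_mem _ _ _ hjs]; exact Or.inr rfl
        · rw [Finset.piecewise_eq_of_notMem _ _ _ hjs]; exact Or.inl rfl
  obtain ⟨hr, hl⟩ := key Finset.univ
  simp only [Finset.piecewise_univ] at hl
  exact hl

theorem D_par (m : ℕ) (u : J → ℕ) : D (m + 1) u ⊆ D m (par u) := by
  intro x hx i
  have h1 := abs_le.1 (hx i)
  have e : (3 : ℝ) ^ (m + 1) * (x : J → ℝ) i = 3 * (3 ^ m * (x : J → ℝ) i) := by ring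
  rw [e] at h1
  have h2 : u i ≤ 3 * ((u i + 1) / 3) + 1 := by omega
  have h3 : 3 * ((u i + 1) / 3) ≤ u i + 1 := by omega
  have h2' : (u i : ℝ) ≤ 3 * ((u i + 1) / 3 : ℕ) + 1 := by exact_mod_cast h2
  have h3' : 3 * (((u i + 1) / 3 : ℕ) : ℝ) ≤ u i + 1 := by exact_mod_cast h3
  simp only [par]
  rw [abs_le]
  constructor <;> linarith

theorem D_child {m : ℕ} {v : J → ℕ} {x : menger 1} (hx : x ∈ D m v) :
    ∃ u, par u = v ∧ x ∈ D (m + 1) u := by
  have h : ∀ i, ∃ c : ℕ, (c + 1) / 3 = v i ∧ |3 ^ (m + 1) * (x : J → ℝ) i - c| ≤ 1 / 2 := by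
    intro i
    have h1 := abs_le.1 (hx i)
    have e : (3 : ℝ) ^ (m + 1) * (x : J → ℝ) i = 3 * (3 ^ m * (x : J → ℝ) i) := by ring
    rw [e]
    have hx0 := x_nonneg x i
    have h0 : 0 ≤ 3 ^ m * (x : J → ℝ) i := mul_nonneg (three_pos m).le hx0
    by_cases c1 : 3 * (3 ^ m * (x : J → ℝ) i) - 3 * v i ≤ 1 / 2
    · by_cases c2 : -(1 / 2) ≤ 3 * (3 ^ m * (x : J → ℝ) i) - 3 * v i
      · refine ⟨3 * v i, by omega, ?_⟩
        push_cast
        exact abs_le.2 ⟨c2, c1⟩
      · push Not at c2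
        have hv : 0 < v i := by
          rcases Nat.eq_zero_or_pos (v i) with h0' | h0'
          · rw [h0'] at c2
            push_cast at c2
            linarith
          · exact h0'
        refine ⟨3 * v i - 1, by omega, ?_⟩
        rw [Nat.cast_sub (by omega)]
        push_cast
        rw [abs_le]
        constructor <;> linarith
    · push Not at c1
      refine ⟨3 * v i + 1, by omega, ?_⟩
      push_cast
      rw [abs_le]
      constructor <;> linarith
  choose u hu1 hu2 using h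
  exact ⟨u, funext hu1, hu2⟩

theorem D_iter {m : ℕ} {v : J → ℕ} {x : menger 1} (hx : x ∈ D m v) (i : ℕ) :
    ∃ u, par^[i] u = v ∧ x ∈ D (m + i) u := by
  induction i with
  | zero => exact ⟨v, rfl, hx⟩
  | succ i ih =>
    obtain ⟨u, hu, hxu⟩ := ih
    obtain ⟨w, hw, hxw⟩ := D_child hxu
    exact ⟨w, by rw [Function.iterate_succ_apply, hw, hu], hxw⟩

theorem vtx_exists {k : ℕ} {v : J → ℕ} (h : (D k v).Nonempty) : ∃ b, Kept 1 k b ∧ Vtx b v := by
  obtain ⟨x, hx⟩ := h
  obtain ⟨a, ha, hax⟩ := exists_cube x k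
  exact ⟨a, ha, mem_D_cube hx hax⟩

theorem pt_mem' {k : ℕ} {v : J → ℕ} (h : (D k v).Nonempty) : pt k v ∈ menger 1 := by
  obtain ⟨b, h1, h2⟩ := vtx_exists h
  exact pt_mem h1 h2

theorem pt_succ (k : ℕ) (v : J → ℕ) : pt (k + 1) (fun j => 3 * v j) = pt k v := by
  funext j
  simp only [pt]
  have := three_pos k
  push_cast
  rw [pow_succ]
  field_simp

theorem anc_bound (i : ℕ) : ∀ (u v : J → ℕ), par^[i] u = v → ∀ j,
    2 * u j + 1 ≤ 2 * (3 ^ i * v j) + 3 ^ i ∧ 2 * (3 ^ i * v j) + 1 ≤ 2 * u j + 3 ^ i := by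
  induction i with
  | zero =>
    intro u v h j
    have h' : u = v := h
    subst h'
    simp
  | succ i ih =>
    intro u v h j
    rw [Function.iterate_succ_apply] at h
    obtain ⟨h1, h2⟩ := ih (par u) v h j
    have h3 : par u j = (u j + 1) / 3 := rfl
    have h4 : 3 ^ (i + 1) * v j = 3 * (3 ^ i * v j) := by ring
    have h5 : 3 ^ (i + 1) = 3 * 3 ^ i := by ring
    rw [h4, h5]
    have h6 : 0 < 3 ^ i := by positivity
    generalize 3 ^ i * v j = A at *
    generalize 3 ^ i = B at *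
    omega

end Run7.h116

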