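import Pool.Agent.Run7.h116.T12

set_option autoImplicit false
set_option linter.unusedSectionVars false

/-!
# The digital structure of the Menger curve
-/

open Set Topology Filter
open Pool.Agent.Helper259.Menger

namespace Run7.h116

/-- vertex points -/
noncomputable def vp (k : ℕ) (v : J → ℕ) (h : (D k v).Nonempty) : menger 1 := ⟨pt k v, pt_mem' h⟩

theorem scale_pt (k : ℕ) (u : J → ℕ) (j : J) : (3 : ℝ) ^ k * pt k u j = u j := by
  have := three_pos k
  simp only [pt]
  field_simp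

theorem link_vertices {m : ℕ} {v : J → ℕ} (hv : (D m v).Nonempty) (i : ℕ) :
    ∀ (u : J → ℕ) (hu : (D (m + i) u).Nonempty), par^[i] u = v →
      Linked (I m v) (vp m v hv) (vp (m + i) u hu) := by
  induction i with
  | zero =>
    intro u hu h
    have h' : u = v := h
    subst h'
    refine ⟨{vp m u hv}, isPreconnected_singleton, ?_, rfl, rfl⟩
    rintro y rfl j
    have := scale_pt m u j
    simp only [vp, this, sub_self, abs_zero]
    norm_num
  | succ i ih =>
    intro u hu h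
    rw [Function.iterate_succ_apply] at h
    have hu' : (D (m + i) (par u)).Nonempty := hu.mono (D_par (m + i) u)
    refine (ih (par u) hu' h).trans ?_
    obtain ⟨x, hx⟩ := hu
    have hx' : x ∈ D ((m + i) + 1) u := hx
    obtain ⟨b, hb, h1, h2⟩ := corner_cube hx'
    obtain ⟨C, c1, c2, c3, c4⟩ := linked_box hb h2 h1
    refine ⟨C, c1, ?_, ?_, c4⟩
    · intro y hy j
      have h3 := c2 hy j
      rw [mem_uIcc] at h3
      obtain ⟨g1, g2⟩ := anc_bound i (par u) v h j
      obtain ⟨g3, g4⟩ := anc_bound (i + 1) u v (by rw [Function.iterate_succ_apply]; exact h) j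
      have hB : 0 < 3 ^ i := by positivity
      have e1 : 3 ^ (i + 1) * v j = 3 * (3 ^ i * v j) := by ring
      have e2 : 3 ^ (i + 1) = 3 * 3 ^ i := by ring
      rw [e1, e2] at g3 g4
      have k1 : 2 * (3 * par u j) + 1 ≤ 2 * (3 * (3 ^ i * v j)) + 3 * 3 ^ i := by omega
      have k2 : 2 * (3 * (3 ^ i * v j)) + 1 ≤ 2 * (3 * par u j) + 3 * 3 ^ i := by omega
      have k1' : 2 * (3 * (par u j : ℝ)) + 1 ≤ 2 * (3 * (3 ^ i * v j)) + 3 * 3 ^ i := by
        exact_mod_cast k1
      have k2' : 2 * (3 * (3 ^ i * (v j : ℝ))) + 1 ≤ 2 * (3 * par u j) + 3 * 3 ^ i := by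
        exact_mod_cast k2
      have g3' : 2 * (u j : ℝ) + 1 ≤ 2 * (3 * (3 ^ i * v j)) + 3 * 3 ^ i := by
        exact_mod_cast g3
      have g4' : 2 * (3 * (3 ^ i * (v j : ℝ))) + 1 ≤ 2 * u j + 3 * 3 ^ i := by
        exact_mod_cast g4
      have e3 : (3 : ℝ) ^ (m + i + 1) * (y : J → ℝ) j = 3 * 3 ^ i * (3 ^ m * (y : J → ℝ) j) := by
        ring
      rw [e3] at h3
      push_cast at h3
      have hB' := three_pos i
      set Y := 3 ^ m * (y : J → ℝ) j with hY
      have h5 : |3 * 3 ^ i * (Y - v j)| < 3 * 3 ^ i * (1 / 2) := by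
        rw [abs_lt]
        rcases h3 with h3 | h3 <;> constructor <;> nlinarith
      rw [abs_mul, abs_of_pos (by positivity)] at h5
      exact lt_of_mul_lt_mul_left h5 (by positivity)
    · have : (⟨pt (m + i + 1) (fun j => 3 * par u j), pt_mem hb h2⟩ : menger 1) =
          vp (m + i) (par u) hu' := Subtype.ext (pt_succ (m + i) (par u))
      rw [← this]
      exact c3

theorem I_sub_D (m : ℕ) (v : J → ℕ) : I m v ⊆ D m v := fun _ hx i => (hx i).le

theorem dist_D {k : ℕ} {v : J → ℕ} {x y : menger 1} (hx : x ∈ D k v) (hy : y ∈ D k v) :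
    dist x y ≤ 1 / 3 ^ k := by
  have h3 := three_pos k
  rw [Subtype.dist_eq, dist_pi_le_iff (by positivity)]
  intro j
  have h1 := abs_le.1 (hx j)
  have h2 := abs_le.1 (hy j)
  rw [Real.dist_eq, abs_le, le_div_iff₀ h3, neg_le_iff_add_nonneg]
  constructor
  · have : 0 ≤ 3 ^ k * ((x : J → ℝ) j - (y : J → ℝ) j) + 1 := by linarith
    have h4 : (x : J → ℝ) j - (y : J → ℝ) j + 1 / 3 ^ k =
        (3 ^ k * ((x : J → ℝ) j - (y : J → ℝ) j) + 1) / 3 ^ k := by
      field_simp
    rw [h4]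
    positivity
  · linarith

theorem vp_mem_D {k : ℕ} {v : J → ℕ} (h : (D k v).Nonempty) : vp k v h ∈ D k v := by
  intro j
  have := scale_pt k v j
  simp only [vp, this, sub_self, abs_zero]
  norm_num

theorem exists_small (ε : ℝ) (hε : 0 < ε) : ∃ m : ℕ, ∀ k ≥ m, (1 : ℝ) / 3 ^ k < ε := by
  obtain ⟨m, hm⟩ := exists_pow_lt_of_lt_one hε (by norm_num : (1 / 3 : ℝ) < 1)
  refine ⟨m, fun k hk => ?_⟩
  have h1 : (1 : ℝ) / 3 ^ k = (1 / 3) ^ k := by rw [one_div_pow]
  rw [h1]
  exact (pow_le_pow_of_le_one (by norm_num) (by norm_num) hk).trans_lt hm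

/-- every point of `D m v` is a limit of vertex points in `I m v` -/
theorem exists_vp_near {m : ℕ} {v : J → ℕ} {x : menger 1} (hx : x ∈ D m v) (hv : (D m v).Nonempty)
    {ε : ℝ} (hε : 0 < ε) : ∃ y, dist y x < ε ∧ Linked (I m v) (vp m v hv) y := by
  obtain ⟨n, hn⟩ := exists_small ε hε
  obtain ⟨u, hu, hxu⟩ := D_iter hx n
  refine ⟨vp (m + n) u ⟨x, hxu⟩, ?_, link_vertices hv n u ⟨x, hxu⟩ hu⟩
  exact (dist_D (vp_mem_D ⟨x, hxu⟩) hxu).trans_lt (hn (m + n) (by omega))

theorem D_sub_closure (m : ℕ) (v : J → ℕ) : D m v ⊆ closure (I m v) := by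
  intro x hx
  rw [Metric.mem_closure_iff]
  intro ε hε
  obtain ⟨y, hy, C, _, c2, _, c4⟩ := exists_vp_near hx ⟨x, hx⟩ hε
  exact ⟨y, c2 c4, by rwa [dist_comm]⟩

theorem I_connected {m : ℕ} {v : J → ℕ} (hv : (D m v).Nonempty) : IsConnected (I m v) := by
  obtain ⟨x0, hx0⟩ := hv
  have hv' : (D m v).Nonempty := ⟨x0, hx0⟩
  have hvI : vp m v hv' ∈ I m v := by
    obtain ⟨y, _, C, _, c2, c3, _⟩ := exists_vp_near hx0 hv' one_pos
    exact c2 c3
  refine ⟨⟨_, hvI⟩, ?_⟩
  set C := connectedComponentIn (I m v) (vp m v hv') with hC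
  have hCs : C ⊆ I m v := connectedComponentIn_subset _ _
  have hCp : IsPreconnected C := isPreconnected_connectedComponentIn
  have hmem : ∀ y, Linked (I m v) (vp m v hv') y → y ∈ C := by
    rintro y ⟨B, b1, b2, b3, b4⟩
    exact b1.subset_connectedComponentIn b3 b2 b4
  have hall : I m v ⊆ C := by
    intro x hx
    have hcl : x ∈ closure C := by
      rw [Metric.mem_closure_iff]
      intro ε hε
      obtain ⟨y, hy, hl⟩ := exists_vp_near (I_sub_D m v hx) hv' hε
      exact ⟨y, hmem y hl, by rwa [dist_comm]⟩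
    have h1 : IsPreconnected (insert x C) :=
      hCp.subset_closure (subset_insert _ _) (insert_subset hcl subset_closure)
    have h2 : insert x C ⊆ I m v := insert_subset hx hCs
    exact h1.subset_connectedComponentIn (mem_insert_of_mem _ (mem_connectedComponentIn hvI)) h2
      (mem_insert _ _)
  rw [Subset.antisymm hall hCs]
  exact hCp

theorem continuous_coord (j : J) : Continuous fun x : menger 1 => (x : J → ℝ) j :=
  (continuous_apply j).comp continuous_subtype_val

theorem I_open (m : ℕ) (v : J → ℕ) : IsOpen (I m v) := by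
  have : I m v = ⋂ i, {x : menger 1 | |3 ^ m * (x : J → ℝ) i - v i| < 1 / 2} := by
    ext x; simp [I]
  rw [this]
  refine isOpen_iInter_of_finite fun i => ?_
  exact isOpen_lt ((continuous_const.mul (continuous_coord i)).sub continuous_const).abs
    continuous_const

theorem D_closed (m : ℕ) (v : J → ℕ) : IsClosed (D m v) := by
  have : D m v = ⋂ i, {x : menger 1 | |3 ^ m * (x : J → ℝ) i - v i| ≤ 1 / 2} := by
    ext x; simp [D]
  rw [this]
  refine isClosed_iInter fun i => ?_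
  exact isClosed_le ((continuous_const.mul (continuous_coord i)).sub continuous_const).abs
    continuous_const

theorem I_D_disjoint {m : ℕ} {v w : J → ℕ} (hvw : v ≠ w) {x : menger 1} (hx : x ∈ I m v)
    (hw : x ∈ D m w) : False := by
  obtain ⟨i, hi⟩ := exists_ne_coord hvw
  have h1 := abs_lt.1 (hx i)
  have h2 := abs_le.1 (hw i)
  rcases lt_or_gt_of_ne hi with h | h
  · have h3 : (v i : ℝ) + 1 ≤ w i := by exact_mod_cast h
    linarith
  · have h3 : (w i : ℝ) + 1 ≤ v i := by exact_mod_cast h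
    linarith

theorem not_I {m : ℕ} {v : J → ℕ} {x : menger 1} (hx : x ∈ D m v) (hxI : x ∉ I m v) :
    ∃ w, w ≠ v ∧ x ∈ D m w := by
  classical
  have : ∃ i, ¬ |3 ^ m * (x : J → ℝ) i - v i| < 1 / 2 := by
    by_contra h
    push Not at h
    exact hxI h
  obtain ⟨i, hi⟩ := this
  have h1 : |3 ^ m * (x : J → ℝ) i - v i| = 1 / 2 := le_antisymm (hx i) (not_lt.1 hi)
  obtain ⟨c, hc, hvc⟩ := half_of_abs h1
  have hw : ∀ d : ℕ, (d = c ∨ d = c + 1) → x ∈ D m (Function.update v i d) := by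
    intro d hd j
    by_cases hj : j = i
    · subst hj
      rw [Function.update_self, hc, abs_le]
      rcases hd with h | h <;> rw [h] <;> push_cast <;> constructor <;> linarith
    · rw [Function.update_of_ne hj]
      exact hx j
  rcases hvc with h | h
  · refine ⟨Function.update v i (c + 1), ?_, hw _ (Or.inr rfl)⟩
    intro he
    have := congrFun he i
    rw [Function.update_self] at this
    omega
  · refine ⟨Function.update v i c, ?_, hw _ (Or.inl rfl)⟩
    intro he
    have := congrFun he i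
    rw [Function.update_self] at this
    omega

theorem interior_D (m : ℕ) (v : J → ℕ) : interior (D m v) = I m v := by
  refine Subset.antisymm ?_ (interior_maximal (I_sub_D m v) (I_open m v))
  intro x hx
  by_contra hxI
  obtain ⟨w, hw, hxw⟩ := not_I (interior_subset hx) hxI
  obtain ⟨y, hy1, hy2⟩ := mem_closure_iff_nhds.1 (D_sub_closure m w hxw) _
    (isOpen_interior.mem_nhds hx)
  exact I_D_disjoint hw hy2 (interior_subset hy1)

theorem D_td (m : ℕ) (v w : J → ℕ) (hvw : v ≠ w) : IsTotallyDisconnected (D m v ∩ D m w) := by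
  intro T hT hp x hx y hy
  obtain ⟨i, hi⟩ := exists_ne_coord hvw
  have h3 := three_pos m
  have hhalf : ∀ z ∈ T, ∃ c : ℕ, 3 ^ m * (z : J → ℝ) i = c + 1 / 2 := by
    intro z hz
    obtain ⟨c, hc, _⟩ := two_cells (hT hz).1 (hT hz).2 hi
    exact ⟨c, hc⟩
  have key : ∀ j, j ≠ i → ∀ x ∈ T, ∀ y ∈ T, ¬ (x : J → ℝ) j < (y : J → ℝ) j := by
    intro j hj x hx y hy hlt
    have hpos : 0 < ((y : J → ℝ) j - (x : J → ℝ) j) / 3 := by linarith
    obtain ⟨n, hn⟩ := exists_small _ hpos
    have hn' := hn (m + n) (by omega)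
    have h3' := three_pos (m + n)
    rw [div_lt_iff₀ h3'] at hn'
    obtain ⟨b, hb1, hb2⟩ : ∃ b : ℕ, 3 ^ (m + n) * (x : J → ℝ) j ≤ b + 1 / 2 ∧
        (b : ℝ) + 1 / 2 ≤ 3 ^ (m + n) * (y : J → ℝ) j := by
      refine ⟨⌈3 ^ (m + n) * (x : J → ℝ) j⌉₊, ?_, ?_⟩
      · have := Nat.le_ceil (3 ^ (m + n) * (x : J → ℝ) j)
        linarith
      · have := Nat.ceil_lt_add_one (a := 3 ^ (m + n) * (x : J → ℝ) j)
          (mul_nonneg h3'.le (x_nonneg x j))
        nlinarith
    have him : IsPreconnected ((fun z : menger 1 => 3 ^ (m + n) * (z : J → ℝ) j) '' T) :=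
      hp.image _ (continuous_const.mul (continuous_coord j)).continuousOn
    obtain ⟨z, hz, hzb⟩ := him.Icc_subset ⟨x, hx, rfl⟩ ⟨y, hy, rfl⟩
      (show ((b : ℝ) + 1 / 2) ∈ _ from ⟨hb1, hb2⟩)
    obtain ⟨c, hc⟩ := hhalf z hz
    obtain ⟨c', hc'⟩ := half_up hc n
    exact two_mid hj hzb hc'
  apply Subtype.ext
  funext j
  by_cases hj : j = i
  · subst hj
    obtain ⟨c, hc, h1, h2⟩ := two_cells (hT hx).1 (hT hx).2 hi
    obtain ⟨d, hd, h3', h4⟩ := two_cells (hT hy).1 (hT hy).2 hi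
    have hcd : c = d := by omega
    subst hcd
    have : (3 : ℝ) ^ m * (x : J → ℝ) j = 3 ^ m * (y : J → ℝ) j := by rw [hc, hd]
    exact mul_left_cancel₀ h3.ne' this
  · exact le_antisymm (not_lt.1 (key j hj y hy x hx)) (not_lt.1 (key j hj x hx y hy))

theorem D_acc (m : ℕ) (v w : J → ℕ) (hvw : v ≠ w) : ∀ s ∈ D m v ∩ D m w,
    AccPt s (𝓟 (D m v ∩ D m w)) := by
  classical
  rintro s ⟨hsv, hsw⟩
  obtain ⟨i, hi⟩ := exists_ne_coord hvw
  obtain ⟨c, hc, hvc, hwc⟩ := two_cells hsv hsw hi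
  -- the other coordinates are in the open intervals
  have hopen : ∀ j, j ≠ i → |3 ^ m * (s : J → ℝ) j - v j| < 1 / 2 := by
    intro j hj
    refine lt_of_le_of_ne (hsv j) fun h => ?_
    obtain ⟨d, hd, _⟩ := half_of_abs h
    exact two_mid hj hd hc
  have heq : ∀ j, j ≠ i → v j = w j := fun j hj => two_cells_eq hsv hsw hi hj
  have hnb : {x : menger 1 | ∀ j, j ≠ i → |3 ^ m * (x : J → ℝ) j - v j| < 1 / 2} ∈ 𝓝 s := by
    have : {x : menger 1 | ∀ j, j ≠ i → |3 ^ m * (x : J → ℝ) j - v j| < 1 / 2} =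
        ⋂ j, {x : menger 1 | j ≠ i → |3 ^ m * (x : J → ℝ) j - v j| < 1 / 2} := by
      ext x; simp
    rw [this]
    refine IsOpen.mem_nhds (isOpen_iInter_of_finite fun j => ?_) (mem_iInter.2 hopen)
    by_cases hj : j = i
    · simp [hj]
    · simp only [ne_eq, hj, not_false_eq_true, true_imp_iff]
      exact isOpen_lt ((continuous_const.mul (continuous_coord j)).sub continuous_const).abs
        continuous_const
  rw [accPt_iff_nhds]
  intro U hU
  obtain ⟨ε, hε, hεU⟩ := Metric.mem_nhds_iff.1 (inter_mem hU hnb)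
  obtain ⟨n, hn⟩ := exists_small ε hε
  have hn' := hn n le_rfl
  have h3 := three_pos n
  obtain ⟨a, ha, has⟩ := exists_cube s n
  obtain ⟨j0, hj0⟩ : ∃ j0 : J, j0 ≠ i := exists_ne i
  -- an endpoint different from the coordinate of `s`
  obtain ⟨e, he, hes⟩ : ∃ e : ℕ, (e = a j0 ∨ e = a j0 + 1) ∧ 3 ^ n * (s : J → ℝ) j0 ≠ e := by
    by_cases h : 3 ^ n * (s : J → ℝ) j0 = a j0
    · refine ⟨a j0 + 1, Or.inr rfl, ?_⟩
      rw [h]
      push_cast
      intro h'
      linarith
    · exact ⟨a j0, Or.inl rfl, h⟩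
  set y : J → ℝ := fun j => if j = i then (s : J → ℝ) i else
    if j = j0 then (e : ℝ) / 3 ^ n else (a j : ℝ) / 3 ^ n with hy
  have hyi : y i = (s : J → ℝ) i := by simp [hy]
  have hyj0 : 3 ^ n * y j0 = e := by
    simp only [hy, hj0, if_false, if_true]
    field_simp
  have hyj : ∀ j, j ≠ i → j ≠ j0 → 3 ^ n * y j = a j := by
    intro j h1 h2
    simp only [hy, h1, h2, if_false]
    field_simp
  have hybox : ∀ j, (a j : ℝ) ≤ 3 ^ n * y j ∧ 3 ^ n * y j ≤ (a j : ℝ) + 1 := by
    intro j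
    by_cases h1 : j = i
    · subst h1; rw [hyi]; exact has j
    · by_cases h2 : j = j0
      · subst h2
        rw [hyj0]
        rcases he with h | h <;> rw [h] <;> push_cast <;> constructor <;> linarith
      · rw [hyj j h1 h2]
        constructor <;> linarith
  have hymem : y ∈ menger 1 := by
    refine mem_menger_of_endpoints ha hybox {i} (by simp) ?_
    intro j hj
    have h1 : j ≠ i := by simpa using hj
    by_cases h2 : j = j0
    · subst h2
      rw [hyj0]
      rcases he with h | h <;> rw [h]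
      · exact Or.inl rfl
      · right; push_cast; ring
    · exact Or.inl (hyj j h1 h2)
  have hdist : dist (⟨y, hymem⟩ : menger 1) s < ε := by
    refine lt_of_le_of_lt ?_ hn'
    rw [Subtype.dist_eq, dist_pi_le_iff (by positivity)]
    intro j
    have h1 := hybox j
    have h2 := has j
    rw [Real.dist_eq]
    simp only
    have h4 : |3 ^ n * (y j - (s : J → ℝ) j)| ≤ 1 := by
      rw [abs_le]
      constructor <;> linarith
    rw [abs_mul, abs_of_pos h3] at h4
    rw [le_div_iff₀ h3]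
    linarith
  have hmem := hεU (Metric.mem_ball.2 hdist)
  have hDv : (⟨y, hymem⟩ : menger 1) ∈ D m v := by
    intro j
    by_cases h1 : j = i
    · subst h1
      simp only [hyi]
      exact hsv j
    · exact (hmem.2 j h1).le
  have hDw : (⟨y, hymem⟩ : menger 1) ∈ D m w := by
    intro j
    by_cases h1 : j = i
    · subst h1
      simp only [hyi]
      exact hsw j
    · rw [← heq j h1]
      exact (hmem.2 j h1).le
  refine ⟨⟨y, hymem⟩, ⟨hmem.1, hDv, hDw⟩, ?_⟩
  intro h
  have h1 : y j0 = (s : J → ℝ) j0 := by rw [← h]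
  rw [h1] at hyj0
  exact hes hyj0

theorem D_cov (m : ℕ) (x : menger 1) : ∃ v, x ∈ D m v := by
  refine ⟨fun i => ⌊3 ^ m * (x : J → ℝ) i + 1 / 2⌋₊, fun i => ?_⟩
  have h0 : 0 ≤ 3 ^ m * (x : J → ℝ) i + 1 / 2 := by
    have := mul_nonneg (three_pos m).le (x_nonneg x i)
    linarith
  have h1 := Nat.floor_le h0
  have h2 := Nat.lt_floor_add_one (3 ^ m * (x : J → ℝ) i + 1 / 2)
  rw [abs_le]
  constructor <;> linarith

theorem D_fin (m : ℕ) : {v | (D m v).Nonempty}.Finite := by
  refine (Set.finite_Iic (fun _ => 3 ^ m : J → ℕ)).subset ?_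
  rintro v ⟨x, hx⟩ i
  have h1 := (abs_le.1 (hx i)).1
  have h2 := x_le_one x i
  have h3 := three_pos m
  have h4 : (v i : ℝ) < (3 ^ m + 1 : ℕ) := by
    push_cast
    nlinarith
  have h5 : v i < 3 ^ m + 1 := by exact_mod_cast h4
  exact Nat.lt_succ_iff.1 h5

theorem D_mesh : ∀ ε > 0, ∃ m, ∀ k ≥ m, ∀ v, Small ε (D k v) := by
  intro ε hε
  obtain ⟨m, hm⟩ := exists_small ε hε
  exact ⟨m, fun k hk v x hx y hy => (dist_D hx hy).trans_lt (hm k hk)⟩

/-- the digital structure of the Menger curve -/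
theorem dig : Dig D par := by
  refine ⟨D_closed, D_fin, D_cov, ?_, ?_, ?_, no_triple, D_par, D_td, D_acc, D_mesh⟩
  · intro m v hv
    rw [interior_D]
    exact I_connected hv
  · intro m v
    rw [interior_D]
    exact D_sub_closure m v
  · intro m v w hvw
    rw [interior_D, interior_D, Set.disjoint_left]
    intro x hx hx2
    exact I_D_disjoint hvw hx (I_sub_D m w hx2)

theorem isCompact_menger : IsCompact (menger 1) := by
  have hcl : IsClosed (menger 1) := by
    refine isClosed_iInter fun k => ?_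
    have hfin : {a : J → ℕ | Kept 1 k a}.Finite := by
      refine (Set.finite_Iic (fun _ => 3 ^ k : J → ℕ)).subset ?_
      intro a ha i
      exact (Kept.lt ha i).le
    have : Stage 1 k = ⋃ a ∈ {a : J → ℕ | Kept 1 k a},
        Icc (fun j => (a j : ℝ) / 3 ^ k) (fun j => ((a j : ℝ) + 1) / 3 ^ k) := by
      ext x
      simp only [Stage, mem_ofPred_eq, mem_iUnion, mem_Icc, Pi.le_def, exists_prop]
      constructor
      · rintro ⟨a, ha, h⟩
        exact ⟨a, ha, fun j => (h j).1, fun j => (h j).2⟩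
      · rintro ⟨a, ha, h1, h2⟩
        exact ⟨a, ha, fun j => ⟨h1 j, h2 j⟩⟩
    rw [this]
    exact hfin.isClosed_biUnion fun a _ => isClosed_Icc
  refine (isCompact_Icc (a := (fun _ => 0 : J → ℝ)) (b := fun _ => 1)).of_isClosed_subset hcl ?_
  intro x hx
  exact ⟨fun j => x_nonneg ⟨x, hx⟩ j, fun j => x_le_one ⟨x, hx⟩ j⟩

end Run7.h116
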