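import Pool.Agent.Run7.h116.T13

set_option autoImplicit false
set_option linter.unusedSectionVars false

/-!
# Existence and adjacency of vertices
-/

open Set Topology Filter
open Pool.Agent.Helper259.Menger

namespace Run7.h116

/-- the digit `q` of `b` is the middle digit -/
def Mid (q b : ℕ) : Prop := b / 3 ^ q % 3 = 1

theorem kept1_iff {k : ℕ} {b : J → ℕ} : Kept 1 k b ↔
    (∀ j, b j < 3 ^ k) ∧ ∀ q < k, ∀ i j, Mid q (b i) → Mid q (b j) → i = j := by
  rw [kept_iff]
  refine and_congr_right fun _ => forall₂_congr fun q _ => ?_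
  rw [Finset.card_le_one]
  simp only [Finset.mem_filter, Finset.mem_univ, true_and, Mid]
  constructor
  · intro h i j hi hj; exact h i hi j hj
  · intro h i hi j hj; exact h i j hi hj

/-- the extreme cube coordinate at a vertex coordinate -/
def E : ℕ → ℕ → ℕ
  | 0, _ => 0
  | k + 1, u => if u % 3 = 1 then u - 1 else if u % 3 = 2 then u else
      if E k (u / 3) = u / 3 then u else u - 1

theorem E_spec (k : ℕ) : ∀ u, u ≤ 3 ^ k → (u = E k u ∨ u = E k u + 1) ∧ E k u < 3 ^ k := by
  induction k with
  | zero =>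
    intro u hu
    simp only [E]
    simp only [pow_zero] at hu ⊢
    omega
  | succ k ih =>
    intro u hu
    have h3 : 3 ^ (k + 1) = 3 * 3 ^ k := by ring
    rw [h3] at hu ⊢
    obtain ⟨h1, h2⟩ := ih (u / 3) (by omega)
    simp only [E]
    generalize 3 ^ k = B at *
    split_ifs with c1 c2 c3 <;> omega

theorem E_q0 (k u : ℕ) : E (k + 1) u % 3 ≠ 1 := by
  simp only [E]
  split_ifs with c1 c2 c3 <;> omega

theorem mid_succ (q b : ℕ) : Mid (q + 1) b ↔ Mid q (b / 3) := by
  unfold Mid
  rw [Nat.div_div_eq_div_mul, pow_succ, mul_comm]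

theorem E_min (k : ℕ) : ∀ u b, u ≤ 3 ^ k → (u = b ∨ u = b + 1) →
    ∀ q, Mid q (E k u) → Mid q b := by
  induction k with
  | zero =>
    intro u b _ _ q h
    simp [E, Mid] at h
  | succ k ih =>
    intro u b hu hub q h
    rcases q with _ | q
    · exfalso
      apply E_q0 k u
      simpa [Mid] using h
    · rw [mid_succ] at h ⊢
      have h3 : 3 ^ (k + 1) = 3 * 3 ^ k := by ring
      rw [h3] at hu
      have hs := E_spec k (u / 3) (by omega)
      by_cases c : u % 3 = 0
      · have h1 : E (k + 1) u / 3 = E k (u / 3) := by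
          simp only [E]
          split_ifs with c1 c2 c3 <;> omega
        rw [h1] at h
        exact ih (u / 3) (b / 3) (by omega) (by omega) q h
      · have h1 : E (k + 1) u / 3 = b / 3 := by
          simp only [E]
          split_ifs with c1 c2 c3 <;> omega
        rwa [h1] at h

/-- the extreme cube -/
def Ec (k : ℕ) (u : J → ℕ) : J → ℕ := fun j => E k (u j)

theorem kept_Ec {k : ℕ} {u b : J → ℕ} (hb : Kept 1 k b) (h : Vtx b u) : Kept 1 k (Ec k u) := by
  rw [kept1_iff] at hb ⊢
  have hu : ∀ j, u j ≤ 3 ^ k := by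
    intro j
    have := hb.1 j
    rcases h j with h | h <;> omega
  refine ⟨fun j => (E_spec k (u j) (hu j)).2, fun q hq i j hi hj => ?_⟩
  exact hb.2 q hq i j (E_min k (u i) (b i) (hu i) (h i) q hi)
    (E_min k (u j) (b j) (hu j) (h j) q hj)

theorem vtx_Ec {k : ℕ} {u : J → ℕ} (hu : ∀ j, u j ≤ 3 ^ k) : Vtx (Ec k u) u :=
  fun j => (E_spec k (u j) (hu j)).1

theorem ex_of_cube {k : ℕ} {u b : J → ℕ} (hb : Kept 1 k b) (h : Vtx b u) : (D k u).Nonempty := by
  refine ⟨⟨pt k u, pt_mem hb h⟩, fun j => ?_⟩
  have := scale_pt k u j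
  simp only [this, sub_self, abs_zero]
  norm_num

theorem ex_le {k : ℕ} {u : J → ℕ} (h : (D k u).Nonempty) : ∀ j, u j ≤ 3 ^ k := by
  obtain ⟨b, hb, hu⟩ := vtx_exists h
  intro j
  have := (kept1_iff.1 hb).1 j
  rcases hu j with h | h <;> omega

theorem ex_kept {k : ℕ} {u : J → ℕ} (h : (D k u).Nonempty) : Kept 1 k (Ec k u) := by
  obtain ⟨b, hb, hu⟩ := vtx_exists h
  exact kept_Ec hb hu

/-- adjacency along an edge of a kept cube -/
theorem adj_of_cube {k : ℕ} {u b : J → ℕ} {i : J} (hb : Kept 1 k b) (h : Vtx b u)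
    (hi : b i = u i) : (D k u ∩ D k (Function.update u i (u i + 1))).Nonempty := by
  classical
  have h3 := three_pos k
  set y : J → ℝ := fun j => if j = i then ((u i : ℝ) + 1 / 2) / 3 ^ k else (u j : ℝ) / 3 ^ k
    with hy
  have hyi : 3 ^ k * y i = u i + 1 / 2 := by
    simp only [hy, if_true]
    field_simp
  have hyj : ∀ j, j ≠ i → 3 ^ k * y j = u j := by
    intro j h1
    simp only [hy, h1, if_false]
    field_simp
  have hymem : y ∈ menger 1 := by
    refine mem_menger_of_endpoints hb ?_ {i} (by simp) ?_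
    · intro j
      by_cases h1 : j = i
      · subst h1
        rw [hyi, hi]
        constructor <;> linarith
      · rw [hyj j h1]
        rcases h j with h | h <;> rw [h] <;> push_cast <;> constructor <;> linarith
    · intro j hj
      have h1 : j ≠ i := by simpa using hj
      rw [hyj j h1]
      rcases h j with h | h <;> rw [h]
      · exact Or.inl rfl
      · right; push_cast; ring
  refine ⟨⟨y, hymem⟩, fun j => ?_, fun j => ?_⟩
  · by_cases h1 : j = i
    · subst h1
      simp only [hyi, add_sub_cancel_left]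
      norm_num [abs_of_pos]
    · simp only [hyj j h1, sub_self, abs_zero]
      norm_num
  · by_cases h1 : j = i
    · subst h1
      simp only [hyi, Function.update_self]
      push_cast
      rw [show (u j : ℝ) + 1 / 2 - (u j + 1) = -(1 / 2) by ring, abs_neg]
      norm_num [abs_of_pos]
    · simp only [Function.update_of_ne h1, hyj j h1, sub_self, abs_zero]
      norm_num

/-- the cube at an edge dominated by the extreme cube -/
theorem kept_of_dom {K : ℕ} {u : J → ℕ} (hu : (D (K + 1) u).Nonempty) {i : J} {c : ℕ}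
    (hc : c < 3 ^ (K + 1)) (hd : ∀ q, Mid (q + 1) c → Mid (q + 1) (E (K + 1) (u i))) :
    Kept 1 (K + 1) (Function.update (Ec (K + 1) u) i c) := by
  have h := kept1_iff.1 (ex_kept hu)
  rw [kept1_iff]
  have hq0 : ∀ v, ¬ Mid 0 (E (K + 1) v) := by
    intro v hv
    apply E_q0 K v
    simpa [Mid] using hv
  refine ⟨fun j => ?_, fun q hq a b ha hb => ?_⟩
  · by_cases hj : j = i
    · subst hj; rw [Function.update_self]; exact hc
    · rw [Function.update_of_ne hj]; exact h.1 j
  · rcases q with _ | q
    · by_cases h1 : a = i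
      · by_cases h2 : b = i
        · rw [h1, h2]
        · rw [Function.update_of_ne h2] at hb
          exact absurd hb (hq0 _)
      · rw [Function.update_of_ne h1] at ha
        exact absurd ha (hq0 _)
    · have key : ∀ j, Mid (q + 1) (Function.update (Ec (K + 1) u) i c j) →
          Mid (q + 1) (Ec (K + 1) u j) := by
        intro j hj
        by_cases h1 : j = i
        · subst h1
          rw [Function.update_self] at hj
          exact hd q hj
        · rwa [Function.update_of_ne h1] at hj
      exact h.2 (q + 1) hq a b (key a ha) (key b hb)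

theorem lt_of_Mid_dom {K u c : ℕ} (hu : u ≤ 3 ^ (K + 1)) (h : c / 3 = E (K + 1) u / 3) :
    c < 3 ^ (K + 1) := by
  have h1 := (E_spec (K + 1) u hu).2
  have h3 : 3 ^ (K + 1) = 3 * 3 ^ K := by ring
  rw [h3] at h1 ⊢
  omega

/-- upward edge with a dominated cube -/
theorem adj_up {K : ℕ} {u : J → ℕ} (hu : (D (K + 1) u).Nonempty) {i : J}
    (hd : u i / 3 = E (K + 1) (u i) / 3) :
    (D (K + 1) u ∩ D (K + 1) (Function.update u i (u i + 1))).Nonempty := by
  have hc := lt_of_Mid_dom (ex_le hu i) hd
  have hk := kept_of_dom hu (i := i) hc (by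
    intro q hq
    rw [mid_succ] at hq ⊢
    rwa [hd] at hq)
  refine adj_of_cube hk ?_ (Function.update_self _ _ _)
  intro j
  by_cases hj : j = i
  · subst hj; rw [Function.update_self]; exact Or.inl rfl
  · rw [Function.update_of_ne hj]; exact vtx_Ec (ex_le hu) j

/-- downward edge with a dominated cube -/
theorem adj_down {K : ℕ} {u : J → ℕ} (hu : (D (K + 1) u).Nonempty) {i : J} (hpos : 0 < u i)
    (hd : (u i - 1) / 3 = E (K + 1) (u i) / 3) :
    (D (K + 1) u ∩ D (K + 1) (Function.update u i (u i - 1))).Nonempty := by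
  have hc := lt_of_Mid_dom (ex_le hu i) hd
  have hk := kept_of_dom hu (i := i) hc (by
    intro q hq
    rw [mid_succ] at hq ⊢
    rwa [hd] at hq)
  have h1 := adj_of_cube (u := Function.update u i (u i - 1)) (i := i) hk (by
    intro j
    by_cases hj : j = i
    · subst hj; rw [Function.update_self, Function.update_self]; exact Or.inl rfl
    · rw [Function.update_of_ne hj, Function.update_of_ne hj]
      exact vtx_Ec (ex_le hu) j) (by rw [Function.update_self, Function.update_self])
  rw [Function.update_idem, Function.update_self, Nat.sub_add_cancel hpos,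
    Function.update_eq_self] at h1
  rwa [inter_comm]

end Run7.h116

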