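import Pool.Agent.Run7.h116.T14

set_option autoImplicit false
set_option linter.unusedSectionVars false

/-!
# Digital splitting for the Menger curve
-/

open Set Topology Filter
open Pool.Agent.Helper259.Menger

namespace Run7.h116

/-! ### one coordinate -/

/-- the absolute value of the relative coordinate -/
def za (u : ℕ) : ℕ := ((u + 4) % 9 - 4) + (4 - (u + 4) % 9)

theorem in_pos {m u : ℕ} (h : 4 < (u + 4) % 9) : (u - 1) / 3 = E (m + 2) u / 3 ∧ 0 < u := by
  simp only [E]
  split_ifs <;> omega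

theorem in_neg {m u : ℕ} (h : (u + 4) % 9 < 4) : u / 3 = E (m + 2) u / 3 := by
  simp only [E]
  split_ifs <;> omega

theorem out_pos {m u : ℕ} (h : 4 < (u + 4) % 9) (h' : (u + 4) % 9 < 7) :
    u / 3 = E (m + 2) u / 3 := by
  simp only [E]
  split_ifs <;> omega

theorem out_neg {m u : ℕ} (h : (u + 4) % 9 < 4) (h' : 1 < (u + 4) % 9) :
    (u - 1) / 3 = E (m + 2) u / 3 ∧ 0 < u := by
  simp only [E]
  split_ifs <;> omega

theorem zero_pos' {m u : ℕ} (h : (u + 4) % 9 = 4) (h' : E m ((u + 4) / 9) = (u + 4) / 9) :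
    u / 3 = E (m + 2) u / 3 := by
  have e : (u + 4) / 9 = u / 3 / 3 := by omega
  rw [e] at h'
  simp only [E]
  split_ifs <;> omega

theorem zero_neg' {m u : ℕ} (h : (u + 4) % 9 = 4) (h' : E m ((u + 4) / 9) ≠ (u + 4) / 9)
    (h0 : 0 < u) : (u - 1) / 3 = E (m + 2) u / 3 := by
  have e : (u + 4) / 9 = u / 3 / 3 := by omega
  rw [e] at h'
  simp only [E]
  split_ifs <;> omega

theorem E_zero (m : ℕ) : E m 0 = 0 := by
  induction m with
  | zero => rfl
  | succ m ih => simp [E, ih]

theorem E_nine (m v : ℕ) (hv : v ≤ 3 ^ m) : E (m + 2) (9 * v) / 9 = E m v ∧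
    ¬ Mid 0 (E (m + 2) (9 * v)) ∧ ¬ Mid 1 (E (m + 2) (9 * v)) := by
  have hs := (E_spec m v hv).1
  have e : 9 * v / 3 / 3 = v := by omega
  have e' : 9 * v / 3 = 3 * v := by omega
  simp only [E, Mid, e]
  simp only [e']
  norm_num
  split_ifs <;> omega

/-- the corner -/
def kap (m v : ℕ) : ℕ := if E m v = v then 9 * v + 3 else 9 * v - 3

theorem E_kap (m v : ℕ) (hv : v ≤ 3 ^ m) : E (m + 2) (kap m v) / 9 = E m v ∧
    ¬ Mid 0 (E (m + 2) (kap m v)) ∧ ¬ Mid 1 (E (m + 2) (kap m v)) ∧ kap m v ≤ 3 ^ (m + 2) := by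
  have hs := (E_spec m v hv)
  have h9 : 3 ^ (m + 2) = 9 * 3 ^ m := by ring
  unfold kap
  split_ifs with h
  · have h1 : E (m + 2) (9 * v + 3) = 9 * v + 2 := by
      simp only [E]
      split_ifs <;> omega
    rw [h1, h]
    refine ⟨by omega, ?_, ?_, by omega⟩
    · simp only [Mid]; norm_num; omega
    · simp only [Mid]; norm_num; omega
  · have h0 : 0 < v := by omega
    have h1 : E (m + 2) (9 * v - 3) = 9 * v - 3 := by
      simp only [E]
      split_ifs <;> omega
    rw [h1]
    refine ⟨by omega, ?_, ?_, by omega⟩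
    · simp only [Mid]; norm_num; omega
    · simp only [Mid]; norm_num; omega

theorem kap_rel (m v : ℕ) (hv : v ≤ 3 ^ m) : (kap m v + 4) / 9 = v ∧ za (kap m v) = 3 := by
  have hs := (E_spec m v hv)
  unfold kap za
  split_ifs with h <;> omega

/-! ### links -/

/-- linked inside `T` at level `k` -/
def Lk (k : ℕ) (T : Set (J → ℕ)) : (J → ℕ) → (J → ℕ) → Prop :=
  Relation.ReflTransGen (fun a b => a ∈ T ∧ b ∈ T ∧ (D k a ∩ D k b).Nonempty)

theorem Lk.symm {k : ℕ} {T : Set (J → ℕ)} {a b : J → ℕ} (h : Lk k T a b) : Lk k T b a := by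
  unfold Lk at h ⊢
  induction h with
  | refl => exact Relation.ReflTransGen.refl
  | tail _ hbc ih =>
    exact Relation.ReflTransGen.head ⟨hbc.2.1, hbc.1, by rw [inter_comm]; exact hbc.2.2⟩ ih

theorem Lk.trans {k : ℕ} {T : Set (J → ℕ)} {a b c : J → ℕ} (h : Lk k T a b) (h' : Lk k T b c) :
    Lk k T a c := Relation.ReflTransGen.trans h h'

theorem Lk.single {k : ℕ} {T : Set (J → ℕ)} {a b : J → ℕ} (ha : a ∈ T) (hb : b ∈ T)
    (h : (D k a ∩ D k b).Nonempty) : Lk k T a b := Relation.ReflTransGen.single ⟨ha, hb, h⟩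

theorem Lk.refl {k : ℕ} {T : Set (J → ℕ)} (a : J → ℕ) : Lk k T a a := Relation.ReflTransGen.refl

theorem adjConn_of_lk {k : ℕ} {T : Set (J → ℕ)} (hne : T.Nonempty)
    (h : ∀ a ∈ T, ∀ b ∈ T, Lk k T a b) : AdjConn T (D k) := by
  refine ⟨hne, ?_⟩
  intro T' hT' hne' hne''
  by_contra hcon
  push Not at hcon
  obtain ⟨a, ha⟩ := hne'
  obtain ⟨b, hb, hbT⟩ : ∃ b ∈ T, b ∉ T' := by
    by_contra hc
    push Not at hc
    exact hne'' (Subset.antisymm hT' hc)
  have h1 : ∀ c, Lk k T a c → c ∈ T' := by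
    intro c hc
    induction hc with
    | refl => exact ha
    | tail _ hbc ih =>
      by_contra hcT
      have := hcon _ ih _ ⟨hbc.2.1, hcT⟩
      rw [this] at hbc
      exact not_nonempty_empty hbc.2.2
  exact hbT (h1 b (h a (hT' ha) b hb))

theorem lk_of_adjConn {k : ℕ} {T : Set (J → ℕ)} (h : AdjConn T (D k)) :
    ∀ a ∈ T, ∀ b ∈ T, Lk k T a b := by
  intro a ha b hb
  by_contra hcon
  obtain ⟨i, hi, j, hj, hij⟩ := h.2 {c ∈ T | Lk k T a c} (fun c hc => hc.1)
    ⟨a, ha, Lk.refl a⟩ (by
      intro he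
      have : b ∈ {c ∈ T | Lk k T a c} := by rw [he]; exact hb
      exact hcon this.2)
  exact hj.2 ⟨hj.1, hi.2.trans (Lk.single hi.1 hj.1 hij)⟩

/-! ### colours -/

/-- the grandparent -/
def gp (u : J → ℕ) : J → ℕ := fun j => (u j + 4) / 9

theorem par_par (u : J → ℕ) : par (par u) = gp u := by
  funext j
  simp only [par, gp]
  omega

/-- the vertex `u` is on an outer face -/
def Outer (S : Set (J → ℕ)) (u : J → ℕ) : Prop :=
  ∃ j, ((u j + 4) % 9 = 8 ∧ Function.update (gp u) j (gp u j + 1) ∉ S) ∨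
    ((u j + 4) % 9 = 0 ∧ Function.update (gp u) j (gp u j - 1) ∉ S)

/-- the coordinate is not in the middle part -/
def Big (u : ℕ) : Prop := (u + 4) % 9 / 3 ≠ 1

/-- at most one coordinate is not in the middle part -/
def Cross (u : J → ℕ) : Prop := ∀ i j, Big (u i) → Big (u j) → i = j

/-- the first colour -/
def Col (S : Set (J → ℕ)) (t : (J → ℕ) → Prop) (u : J → ℕ) : Prop :=
  (Outer S u ∧ t (gp u)) ∨ (¬ Outer S u ∧ Cross u)

/-- all the subcells -/
def SS (m : ℕ) (S : Set (J → ℕ)) : Set (J → ℕ) := {u | (D (m + 2) u).Nonempty ∧ gp u ∈ S}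

/-- the first part -/
def F1 (m : ℕ) (S : Set (J → ℕ)) (t : (J → ℕ) → Prop) : Set (J → ℕ) := {u ∈ SS m S | Col S t u}

/-- the second part -/
def F2 (m : ℕ) (S : Set (J → ℕ)) (t : (J → ℕ) → Prop) : Set (J → ℕ) := {u ∈ SS m S | ¬ Col S t u}

/-- move inward in coordinate `j` -/
def mvIn (u : J → ℕ) (j : J) : J → ℕ :=
  Function.update u j (if 4 < (u j + 4) % 9 then u j - 1 else u j + 1)

theorem gp_update {u : J → ℕ} {j : J} {c : ℕ} (h : (c + 4) / 9 = (u j + 4) / 9) :
    gp (Function.update u j c) = gp u := by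
  funext l
  by_cases hl : l = j
  · subst hl; simp only [gp, Function.update_self, h]
  · simp only [gp, Function.update_of_ne hl]

theorem mvIn_spec {m : ℕ} {S : Set (J → ℕ)} {u : J → ℕ} (hu : u ∈ SS m S) {j : J}
    (hj : (u j + 4) % 9 ≠ 4) :
    mvIn u j ∈ SS m S ∧ (D (m + 2) u ∩ D (m + 2) (mvIn u j)).Nonempty ∧ gp (mvIn u j) = gp u ∧
      za (mvIn u j j) + 1 = za (u j) := by
  have hadj : (D (m + 2) u ∩ D (m + 2) (mvIn u j)).Nonempty := by
    unfold mvIn
    split_ifs with h
    · have h1 := in_pos (m := m) h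
      exact adj_down hu.1 h1.2 h1.1
    · exact adj_up hu.1 (in_neg (m := m) (by omega))
  have hgp : gp (mvIn u j) = gp u := by
    unfold mvIn
    apply gp_update
    split_ifs with h <;> omega
  refine ⟨⟨hadj.mono inter_subset_right, by rw [hgp]; exact hu.2⟩, hadj, hgp, ?_⟩
  unfold mvIn za
  rw [Function.update_self]
  split_ifs with h <;> omega

/-- move towards distance three in coordinate `j` -/
def mv3 (m : ℕ) (u : J → ℕ) (j : J) : J → ℕ :=
  Function.update u j (
    if za (u j) = 4 then (if 4 < (u j + 4) % 9 then u j - 1 else u j + 1)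
    else if (u j + 4) % 9 = 4 then
      (if E m ((u j + 4) / 9) = (u j + 4) / 9 then u j + 1 else u j - 1)
    else (if 4 < (u j + 4) % 9 then u j + 1 else u j - 1))

theorem mv3_spec {m : ℕ} {S : Set (J → ℕ)} {u : J → ℕ} (hu : u ∈ SS m S) {j : J}
    (hj : za (u j) ≠ 3) :
    mv3 m u j ∈ SS m S ∧ (D (m + 2) u ∩ D (m + 2) (mv3 m u j)).Nonempty ∧ gp (mv3 m u j) = gp u ∧
      (za (mv3 m u j j) - 3) + (3 - za (mv3 m u j j)) + 1 = (za (u j) - 3) + (3 - za (u j)) ∧
      za (mv3 m u j j) ≤ 3 := by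
  by_cases h4 : za (u j) = 4
  · have he : mv3 m u j = mvIn u j := by unfold mv3 mvIn; rw [if_pos h4]
    rw [he]
    have hj4 : (u j + 4) % 9 ≠ 4 := by unfold za at h4; omega
    obtain ⟨h1, h2, h3, h5⟩ := mvIn_spec hu hj4
    exact ⟨h1, h2, h3, by omega, by omega⟩
  by_cases h0 : (u j + 4) % 9 = 4
  · by_cases hE : E m ((u j + 4) / 9) = (u j + 4) / 9
    · have he : mv3 m u j = Function.update u j (u j + 1) := by
        unfold mv3; rw [if_neg h4, if_pos h0, if_pos hE]
      rw [he]
      have hadj := adj_up hu.1 (zero_pos' h0 hE)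
      have hgp : gp (Function.update u j (u j + 1)) = gp u := gp_update (by omega)
      refine ⟨⟨hadj.mono inter_subset_right, by rw [hgp]; exact hu.2⟩, hadj, hgp, ?_, ?_⟩
      · rw [Function.update_self]; unfold za; omega
      · rw [Function.update_self]; unfold za; omega
    · have he : mv3 m u j = Function.update u j (u j - 1) := by
        unfold mv3; rw [if_neg h4, if_pos h0, if_neg hE]
      rw [he]
      have hpos : 0 < u j := by
        rcases Nat.eq_zero_or_pos (u j) with h | h
        · rw [h] at hE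
          exact absurd (E_zero m) hE
        · exact h
      have hadj := adj_down hu.1 hpos (zero_neg' h0 hE hpos)
      have hgp : gp (Function.update u j (u j - 1)) = gp u := gp_update (by omega)
      refine ⟨⟨hadj.mono inter_subset_right, by rw [hgp]; exact hu.2⟩, hadj, hgp, ?_, ?_⟩
      · rw [Function.update_self]; unfold za; omega
      · rw [Function.update_self]; unfold za; omega
  by_cases hp : 4 < (u j + 4) % 9
  · have he : mv3 m u j = Function.update u j (u j + 1) := by
      unfold mv3; rw [if_neg h4, if_neg h0, if_pos hp]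
    rw [he]
    have hlt : (u j + 4) % 9 < 7 := by unfold za at h4 hj; omega
    have hadj := adj_up hu.1 (out_pos (m := m) hp hlt)
    have hgp : gp (Function.update u j (u j + 1)) = gp u := gp_update (by omega)
    refine ⟨⟨hadj.mono inter_subset_right, by rw [hgp]; exact hu.2⟩, hadj, hgp, ?_, ?_⟩
    · rw [Function.update_self]; unfold za; omega
    · rw [Function.update_self]; unfold za; omega
  · have he : mv3 m u j = Function.update u j (u j - 1) := by
      unfold mv3; rw [if_neg h4, if_neg h0, if_neg hp]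
    rw [he]
    have hlt : 1 < (u j + 4) % 9 := by unfold za at h4 hj; omega
    have ho := out_neg (m := m) (by omega : (u j + 4) % 9 < 4) hlt
    have hadj := adj_down hu.1 ho.2 ho.1
    have hgp : gp (Function.update u j (u j - 1)) = gp u := gp_update (by omega)
    refine ⟨⟨hadj.mono inter_subset_right, by rw [hgp]; exact hu.2⟩, hadj, hgp, ?_, ?_⟩
    · rw [Function.update_self]; unfold za; omega
    · rw [Function.update_self]; unfold za; omega

theorem mvIn_ne {u : J → ℕ} {j l : J} (h : l ≠ j) : mvIn u j l = u l := by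
  unfold mvIn; rw [Function.update_of_ne h]

theorem mv3_ne {m : ℕ} {u : J → ℕ} {j l : J} (h : l ≠ j) : mv3 m u j l = u l := by
  unfold mv3; rw [Function.update_of_ne h]

theorem big_iff (u : ℕ) : Big u ↔ 2 ≤ za u := by
  unfold Big za; omega

theorem za_le (u : ℕ) : za u ≤ 4 := by unfold za; omega

theorem za_zero (u : ℕ) : za u = 0 ↔ (u + 4) % 9 = 4 := by unfold za; omega

theorem za_four (u : ℕ) : za u = 4 ↔ (u + 4) % 9 = 8 ∨ (u + 4) % 9 = 0 := by unfold za; omega

/-- an outer vertex stays outer if the outer coordinate and the grandparent do not change -/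
theorem Outer.congr {S : Set (J → ℕ)} {u u' : J → ℕ} (hgp : gp u' = gp u) {j : J}
    (h : ((u j + 4) % 9 = 8 ∧ Function.update (gp u) j (gp u j + 1) ∉ S) ∨
      ((u j + 4) % 9 = 0 ∧ Function.update (gp u) j (gp u j - 1) ∉ S)) (hj : u' j = u j) :
    Outer S u' := by
  refine ⟨j, ?_⟩
  rw [hgp, hj]
  exact h

/-- no new outer coordinates -/
theorem not_outer {S : Set (J → ℕ)} {u u' : J → ℕ} (h : ¬ Outer S u) (hgp : gp u' = gp u)
    (hj : ∀ j, u' j = u j ∨ za (u' j) ≤ 3) : ¬ Outer S u' := by
  rintro ⟨j, hj'⟩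
  rcases hj j with h1 | h1
  · exact h (Outer.congr hgp.symm hj' h1.symm)
  · have h2 : za (u' j) = 4 := by
      rw [za_four]
      rcases hj' with h3 | h3
      · exact Or.inl h3.1
      · exact Or.inr h3.1
    omega

theorem not_outer_of_za {S : Set (J → ℕ)} {u : J → ℕ} (h : ∀ j, za (u j) ≤ 3) : ¬ Outer S u := by
  rintro ⟨j, hj'⟩
  have h2 : za (u j) = 4 := by
    rw [za_four]
    rcases hj' with h3 | h3
    · exact Or.inl h3.1
    · exact Or.inr h3.1
  have := h j
  omega

/-- the centre -/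
def cen (v : J → ℕ) : J → ℕ := fun j => 9 * v j

theorem eq_cen {u : J → ℕ} (h : ∀ j, za (u j) = 0) : u = cen (gp u) := by
  funext j
  have := h j
  unfold za at this
  simp only [cen, gp]
  omega

/-- the first part is connected to the centre -/
theorem link_cen {m : ℕ} {S : Set (J → ℕ)} {t : (J → ℕ) → Prop} (n : ℕ) :
    ∀ u ∈ F1 m S t, ∑ j, za (u j) ≤ n → Lk (m + 2) (F1 m S t) u (cen (gp u)) := by
  induction n with
  | zero =>
    intro u hu hn
    have h : ∀ j, za (u j) = 0 := by
      intro j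
      have := Finset.single_le_sum (f := fun j => za (u j)) (fun i _ => Nat.zero_le _)
        (Finset.mem_univ j)
      omega
    rw [← eq_cen h]
    exact Lk.refl u
  | succ n ih =>
    intro u hu hn
    by_cases hall : ∀ j, za (u j) = 0
    · rw [← eq_cen hall]
      exact Lk.refl u
    push Not at hall
    -- one step
    have step : ∀ j, za (u j) ≠ 0 → Col S t (mvIn u j) →
        Lk (m + 2) (F1 m S t) u (cen (gp u)) := by
      intro j hj hcol
      obtain ⟨h1, h2, h3, h4⟩ := mvIn_spec hu.1 (j := j) (fun h => hj ((za_zero _).2 h))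
      have hlt : ∑ l, za (mvIn u j l) < ∑ l, za (u l) := by
        refine Finset.sum_lt_sum (fun l _ => ?_) ⟨j, Finset.mem_univ j, by omega⟩
        by_cases hl : l = j
        · subst hl; omega
        · rw [mvIn_ne hl]
      have h5 := ih (mvIn u j) ⟨h1, hcol⟩ (by omega)
      rw [h3] at h5
      exact (Lk.single hu ⟨h1, hcol⟩ h2).trans h5
    rcases hu.2 with ⟨⟨i, hi⟩, ht⟩ | ⟨hno, hcr⟩
    · by_cases hex : ∃ j, j ≠ i ∧ za (u j) ≠ 0
      · obtain ⟨j, hji, hj⟩ := hex
        obtain ⟨h1, h2, h3, h4⟩ := mvIn_spec hu.1 (j := j) (fun h => hj ((za_zero _).2 h))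
        exact step j hj (Or.inl ⟨Outer.congr h3 hi (mvIn_ne (Ne.symm hji)), by rwa [h3]⟩)
      · push Not at hex
        have hi4 : za (u i) = 4 := by
          rw [za_four]
          rcases hi with h | h
          · exact Or.inl h.1
          · exact Or.inr h.1
        obtain ⟨h1, h2, h3, h4⟩ := mvIn_spec hu.1 (j := i) (by
          intro h
          rw [← za_zero] at h
          omega)
        refine step i (by omega) (Or.inr ⟨?_, ?_⟩)
        · refine not_outer_of_za fun j => ?_
          by_cases hj : j = i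
          · subst hj; omega
          · rw [mvIn_ne hj, hex j hj]; omega
        · intro a b ha hb
          have key : ∀ c, Big (mvIn u i c) → c = i := by
            intro c hc
            by_contra hci
            rw [mvIn_ne hci, big_iff, hex c hci] at hc
            omega
          rw [key a ha, key b hb]
    · obtain ⟨j, hj⟩ := hall
      obtain ⟨h1, h2, h3, h4⟩ := mvIn_spec hu.1 (j := j) (fun h => hj ((za_zero _).2 h))
      refine step j hj (Or.inr ⟨not_outer hno h3 fun l => ?_, ?_⟩)
      · by_cases hl : l = j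
        · subst hl
          have := za_le (u l)
          right; omega
        · exact Or.inl (mvIn_ne hl)
      · intro a b ha hb
        have key : ∀ c, Big (mvIn u j c) → Big (u c) := by
          intro c hc
          by_cases hcj : c = j
          · subst hcj
            rw [big_iff] at hc ⊢
            omega
          · rwa [mvIn_ne hcj] at hc
        exact hcr a b (key a ha) (key b hb)

end Run7.h116
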