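import Pool.Agent.Run7.h116.T15

set_option autoImplicit false
set_option linter.unusedSectionVars false

/-!
# Digital splitting for the Menger curve: the second part and the assembly
-/

open Set Topology Filter
open Pool.Agent.Helper259.Menger

namespace Run7.h116

theorem Lk.mem {k : ℕ} {T : Set (J → ℕ)} {a b : J → ℕ} (h : Lk k T a b) (ha : a ∈ T) : b ∈ T := by
  induction h with
  | refl => exact ha
  | tail _ hbc _ => exact hbc.2.1

theorem exists_two_ne (i : J) : ∃ a b : J, a ≠ b ∧ a ≠ i ∧ b ≠ i := by
  revert i; decide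

theorem not_col_outer {S : Set (J → ℕ)} {t : (J → ℕ) → Prop} {u : J → ℕ} (h : Outer S u)
    (ht : ¬ t (gp u)) : ¬ Col S t u := by
  rintro (⟨_, h2⟩ | ⟨h1, _⟩)
  · exact ht h2
  · exact h1 h

theorem not_col_cross {S : Set (J → ℕ)} {t : (J → ℕ) → Prop} {u : J → ℕ} (h : ¬ Outer S u)
    (hc : ¬ Cross u) : ¬ Col S t u := by
  rintro (⟨h1, _⟩ | ⟨_, h2⟩)
  · exact h h1
  · exact hc h2

theorem mem_F2 {m : ℕ} {S : Set (J → ℕ)} {t : (J → ℕ) → Prop} {u : J → ℕ} (hu : u ∈ SS m S)
    {j : J} (h : ∀ l, l ≠ j → za (u l) = 3) (hj : za (u j) ≤ 3) : u ∈ F2 m S t := by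
  refine ⟨hu, not_col_cross (not_outer_of_za fun l => ?_) ?_⟩
  · by_cases hl : l = j
    · subst hl; exact hj
    · rw [h l hl]
  · intro hc
    obtain ⟨a, b, hab, ha, hb⟩ := exists_two_ne j
    refine hab (hc a b ?_ ?_)
    · rw [big_iff, h a ha]; omega
    · rw [big_iff, h b hb]; omega

theorem link_three {m : ℕ} {S : Set (J → ℕ)} {t : (J → ℕ) → Prop} (n : ℕ) :
    ∀ u ∈ F2 m S t, ∑ j, ((za (u j) - 3) + (3 - za (u j))) ≤ n →
      ∃ u', u' ∈ F2 m S t ∧ Lk (m + 2) (F2 m S t) u u' ∧ gp u' = gp u ∧ ∀ j, za (u' j) = 3 := by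
  induction n with
  | zero =>
    intro u hu hn
    refine ⟨u, hu, Lk.refl u, rfl, fun j => ?_⟩
    have := Finset.single_le_sum (f := fun j => (za (u j) - 3) + (3 - za (u j)))
      (fun i _ => Nat.zero_le _) (Finset.mem_univ j)
    omega
  | succ n ih =>
    intro u hu hn
    by_cases hall : ∀ j, za (u j) = 3
    · exact ⟨u, hu, Lk.refl u, rfl, hall⟩
    push Not at hall
    have step : ∀ j, za (u j) ≠ 3 → ¬ Col S t (mv3 m u j) →
        ∃ u', u' ∈ F2 m S t ∧ Lk (m + 2) (F2 m S t) u u' ∧ gp u' = gp u ∧ ∀ j, za (u' j) = 3 := by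
      intro j hj hcol
      obtain ⟨h1, h2, h3, h4, h5⟩ := mv3_spec hu.1 hj
      have hlt : ∑ l, ((za (mv3 m u j l) - 3) + (3 - za (mv3 m u j l))) <
          ∑ l, ((za (u l) - 3) + (3 - za (u l))) := by
        refine Finset.sum_lt_sum (fun l _ => ?_) ⟨j, Finset.mem_univ j, by omega⟩
        by_cases hl : l = j
        · subst hl; omega
        · rw [mv3_ne hl]
      obtain ⟨u', k1, k2, k3, k4⟩ := ih (mv3 m u j) ⟨h1, hcol⟩ (by omega)
      exact ⟨u', k1, (Lk.single hu ⟨h1, hcol⟩ h2).trans k2, k3.trans h3, k4⟩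
    by_cases ho : Outer S u
    · have ht : ¬ t (gp u) := fun ht => hu.2 (Or.inl ⟨ho, ht⟩)
      obtain ⟨i, hi⟩ := ho
      by_cases hex : ∃ j, j ≠ i ∧ za (u j) ≠ 3
      · obtain ⟨j, hji, hj⟩ := hex
        obtain ⟨h1, h2, h3, h4, h5⟩ := mv3_spec hu.1 hj
        exact step j hj (not_col_outer (Outer.congr h3 hi (mv3_ne (Ne.symm hji))) (by rwa [h3]))
      · push Not at hex
        have hi4 : za (u i) = 4 := by
          rw [za_four]
          rcases hi with h | h
          · exact Or.inl h.1
          · exact Or.inr h.1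
        have hi3 : za (u i) ≠ 3 := by omega
        obtain ⟨h1, h2, h3, h4, h5⟩ := mv3_spec hu.1 hi3
        exact step i hi3 (mem_F2 (t := t) h1 (j := i) (fun l hl => by
          rw [mv3_ne hl]; exact hex l hl) h5).2
    · have hcr : ¬ Cross u := fun h => hu.2 (Or.inr ⟨ho, h⟩)
      obtain ⟨j, hj⟩ := hall
      obtain ⟨h1, h2, h3, h4, h5⟩ := mv3_spec hu.1 hj
      refine step j hj (not_col_cross (not_outer ho h3 fun l => ?_) ?_)
      · by_cases hl : l = j
        · subst hl; right; exact h5
        · exact Or.inl (mv3_ne hl)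
      · intro hc
        apply hcr
        have key : ∀ c, Big (u c) → Big (mv3 m u j c) := by
          intro c hbc
          by_cases hcj : c = j
          · subst hcj
            rw [big_iff] at hbc ⊢
            have := za_le (u c)
            omega
          · rwa [mv3_ne hcj]
        intro a b ha hb
        exact hc a b (key a ha) (key b hb)

theorem link_zero {m : ℕ} {S : Set (J → ℕ)} {t : (J → ℕ) → Prop} {j : J} (n : ℕ) :
    ∀ u ∈ SS m S, (∀ l, l ≠ j → za (u l) = 3) → za (u j) ≤ 3 → za (u j) ≤ n →
      Lk (m + 2) (F2 m S t) u (Function.update u j (9 * gp u j)) := by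
  induction n with
  | zero =>
    intro u hu h hj hn
    have : Function.update u j (9 * gp u j) = u := by
      rw [Function.update_eq_self_iff]
      unfold za at hn
      simp only [gp]
      omega
    rw [this]
    exact Lk.refl u
  | succ n ih =>
    intro u hu h hj hn
    by_cases h0 : za (u j) = 0
    · exact ih u hu h hj (by omega)
    · obtain ⟨h1, h2, h3, h4⟩ := mvIn_spec hu (j := j) (fun h => h0 ((za_zero _).2 h))
      have hot : ∀ l, l ≠ j → za (mvIn u j l) = 3 := fun l hl => by rw [mvIn_ne hl]; exact h l hl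
      have h5 := ih (mvIn u j) h1 hot (by omega) (by omega)
      rw [h3] at h5
      have h6 : Function.update (mvIn u j) j (9 * gp u j) = Function.update u j (9 * gp u j) := by
        unfold mvIn; rw [Function.update_idem]
      rw [h6] at h5
      exact (Lk.single (mem_F2 hu h hj) (mem_F2 h1 hot (by omega)) h2).trans h5

theorem link_side {m : ℕ} {S : Set (J → ℕ)} {t : (J → ℕ) → Prop} {j : J} (n : ℕ) :
    ∀ u ∈ SS m S, (∀ l, l ≠ j → za (u l) = 3) → ∀ z, z + n = 3 →
      ((E m (gp u j) = gp u j ∧ u j = 9 * gp u j + z) ∨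
        (E m (gp u j) ≠ gp u j ∧ u j + z = 9 * gp u j)) →
      Lk (m + 2) (F2 m S t) u (Function.update u j (kap m (gp u j))) := by
  induction n with
  | zero =>
    intro u hu h z hz hs
    have : Function.update u j (kap m (gp u j)) = u := by
      rw [Function.update_eq_self_iff]
      unfold kap
      rcases hs with ⟨h1, h2⟩ | ⟨h1, h2⟩
      · rw [if_pos h1]; omega
      · rw [if_neg h1]; omega
    rw [this]
    exact Lk.refl u
  | succ n ih =>
    intro u hu h z hz hs
    have hzj : za (u j) = z := by
      unfold za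
      rcases hs with ⟨h1, h2⟩ | ⟨h1, h2⟩ <;> omega
    obtain ⟨h1, h2, h3, h4, h5⟩ := mv3_spec hu (j := j) (by omega)
    have hot : ∀ l, l ≠ j → za (mv3 m u j l) = 3 := fun l hl => by rw [mv3_ne hl]; exact h l hl
    have hgj : gp u j = (u j + 4) / 9 := rfl
    have hval : (E m (gp u j) = gp u j ∧ mv3 m u j j = 9 * gp u j + (z + 1)) ∨
        (E m (gp u j) ≠ gp u j ∧ mv3 m u j j + (z + 1) = 9 * gp u j) := by
      have hne4 : za (u j) ≠ 4 := by omega
      unfold mv3
      rw [Function.update_self, if_neg hne4, ← hgj]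
      rcases hs with ⟨g1, g2⟩ | ⟨g1, g2⟩
      · left
        refine ⟨g1, ?_⟩
        rw [if_pos g1]
        split_ifs <;> omega
      · right
        refine ⟨g1, ?_⟩
        have hpos : gp u j ≠ 0 := by
          intro h0
          rw [h0] at g1
          exact g1 (E_zero m)
        rw [if_neg g1]
        split_ifs <;> omega
    have h6 := ih (mv3 m u j) h1 hot (z + 1) (by omega) (by rw [h3]; exact hval)
    rw [h3] at h6
    have h7 : Function.update (mv3 m u j) j (kap m (gp u j)) =
        Function.update u j (kap m (gp u j)) := by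
      unfold mv3; rw [Function.update_idem]
    rw [h7] at h6
    exact (Lk.single (mem_F2 hu h (by omega)) (mem_F2 h1 hot h5) h2).trans h6

/-- the corner vertex -/
def cor (m : ℕ) (v : J → ℕ) : J → ℕ := fun j => kap m (v j)

theorem link_one {m : ℕ} {S : Set (J → ℕ)} {t : (J → ℕ) → Prop} {u : J → ℕ} (hu : u ∈ SS m S)
    (h : ∀ l, za (u l) = 3) (j : J) :
    Lk (m + 2) (F2 m S t) u (Function.update u j (kap m (gp u j))) := by
  have h1 := link_zero (t := t) (j := j) 3 u hu (fun l _ => h l) (h j).le (h j).le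
  have hu2 : u ∈ F2 m S t := mem_F2 hu (fun l _ => h l) (h j).le
  have h2 := h1.mem hu2
  set u0 := Function.update u j (9 * gp u j) with hu0
  have hg : gp u0 = gp u := gp_update (by simp only [gp]; omega)
  have h3 := link_side (t := t) (j := j) 3 u0 h2.1 (fun l hl => by
    rw [hu0, Function.update_of_ne hl]; exact h l) 0 rfl (by
    rw [hg]
    have : u0 j = 9 * gp u j := by rw [hu0, Function.update_self]
    by_cases hE : E m (gp u j) = gp u j
    · exact Or.inl ⟨hE, this⟩
    · exact Or.inr ⟨hE, this⟩)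
  rw [hg, hu0, Function.update_idem] at h3
  exact h1.trans h3

theorem gp_le {m : ℕ} {u : J → ℕ} (h : (D (m + 2) u).Nonempty) (j : J) : gp u j ≤ 3 ^ m := by
  have h1 := ex_le h j
  have h9 : 3 ^ (m + 2) = 9 * 3 ^ m := by ring
  simp only [gp]
  omega

theorem link_cor {m : ℕ} {S : Set (J → ℕ)} {t : (J → ℕ) → Prop} {u : J → ℕ} (hu : u ∈ SS m S)
    (h : ∀ l, za (u l) = 3) : Lk (m + 2) (F2 m S t) u (cor m (gp u)) := by
  classical
  have hu2 : u ∈ F2 m S t := mem_F2 (j := 0) hu (fun l _ => h l) (h 0).le
  have key : ∀ s : Finset J, s.piecewise (cor m (gp u)) u ∈ F2 m S t ∧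
      gp (s.piecewise (cor m (gp u)) u) = gp u ∧
      (∀ l, za (s.piecewise (cor m (gp u)) u l) = 3) ∧
      Lk (m + 2) (F2 m S t) u (s.piecewise (cor m (gp u)) u) := by
    intro s
    induction s using Finset.induction_on with
    | empty => exact ⟨by simpa using hu2, by simp, by simpa using h, by simpa using Lk.refl u⟩
    | insert j s hjs ih =>
      obtain ⟨i1, i2, i3, i4⟩ := ih
      rw [Finset.piecewise_insert]
      set w := s.piecewise (cor m (gp u)) u with hw
      have h1 := link_one (t := t) i1.1 i3 j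
      rw [i2] at h1
      have hk := kap_rel m (gp u j) (gp_le hu.1 j)
      have h2 : Function.update w j (cor m (gp u) j) = Function.update w j (kap m (gp u j)) := rfl
      rw [h2]
      refine ⟨h1.mem i1, ?_, ?_, i4.trans h1⟩
      · rw [← i2]
        refine gp_update ?_
        have : (w j + 4) / 9 = gp u j := by rw [← i2]; rfl
        rw [this]
        rw [i2]
        exact hk.1
      · intro l
        by_cases hl : l = j
        · subst hl; rw [Function.update_self]; exact hk.2
        · rw [Function.update_of_ne hl]; exact i3 l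
  have := (key Finset.univ).2.2.2
  simpa using this

/-! ### lines -/

theorem mid_two (q b : ℕ) : Mid (q + 2) b ↔ Mid q (b / 9) := by
  rw [mid_succ, mid_succ, Nat.div_div_eq_div_mul]

theorem edge_cube {m : ℕ} {v : J → ℕ} {i : J}
    (h : (D m v ∩ D m (Function.update v i (v i + 1))).Nonempty) :
    Kept 1 m (Function.update (Ec m v) i (v i)) := by
  obtain ⟨x, hx1, hx2⟩ := h
  obtain ⟨a, ha, hax⟩ := exists_cube x m
  have h1 := mem_D_cube hx1 hax
  have h2 := mem_D_cube hx2 hax
  have hai : a i = v i := by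
    have g1 := h1 i
    have g2 := h2 i
    rw [Function.update_self] at g2
    omega
  rw [kept1_iff] at ha ⊢
  have hle : ∀ j, v j ≤ 3 ^ m := ex_le ⟨x, hx1⟩
  have key : ∀ j q, Mid q (Function.update (Ec m v) i (v i) j) → Mid q (a j) := by
    intro j q hq
    by_cases hj : j = i
    · subst hj
      rw [Function.update_self] at hq
      rwa [hai]
    · rw [Function.update_of_ne hj] at hq
      exact E_min m (v j) (a j) (hle j) (h1 j) q hq
  refine ⟨fun j => ?_, fun q hq j l hj hl => ha.2 q hq j l (key j q hj) (key l q hl)⟩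
  by_cases hj : j = i
  · subst hj
    rw [Function.update_self, ← hai]
    exact ha.1 j
  · rw [Function.update_of_ne hj]
    exact (E_spec m (v j) (hle j)).2

/-- the conditions on the other coordinates of a line -/
structure LineOK (m : ℕ) (v p : J → ℕ) : Prop where
  div : ∀ j, E (m + 2) (p j) / 9 = E m (v j)
  m0 : ∀ j, ¬ Mid 0 (E (m + 2) (p j))
  m1 : ∀ j, ¬ Mid 1 (E (m + 2) (p j))
  le : ∀ j, p j ≤ 3 ^ (m + 2)

theorem lineOK_cen {m : ℕ} {v : J → ℕ} (hv : ∀ j, v j ≤ 3 ^ m) : LineOK m v (cen v) := by
  refine ⟨fun j => (E_nine m (v j) (hv j)).1, fun j => (E_nine m (v j) (hv j)).2.1,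
    fun j => (E_nine m (v j) (hv j)).2.2, fun j => ?_⟩
  have h9 : 3 ^ (m + 2) = 9 * 3 ^ m := by ring
  have := hv j
  simp only [cen]
  omega

theorem lineOK_cor {m : ℕ} {v : J → ℕ} (hv : ∀ j, v j ≤ 3 ^ m) : LineOK m v (cor m v) :=
  ⟨fun j => (E_kap m (v j) (hv j)).1, fun j => (E_kap m (v j) (hv j)).2.1,
    fun j => (E_kap m (v j) (hv j)).2.2.1, fun j => (E_kap m (v j) (hv j)).2.2.2⟩

theorem LineOK.ex {m : ℕ} {v p : J → ℕ} (h : LineOK m v p) (hv : Kept 1 m (Ec m v)) :
    (D (m + 2) p).Nonempty := by
  refine ex_of_cube (b := Ec (m + 2) p) ?_ (vtx_Ec h.le)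
  rw [kept1_iff] at hv ⊢
  refine ⟨fun j => (E_spec (m + 2) (p j) (h.le j)).2, fun q hq i j hi hj => ?_⟩
  rcases q with _ | _ | q
  · exact absurd hi (h.m0 i)
  · exact absurd hi (h.m1 i)
  · have hi' : Mid q (Ec m v i) := by
      have := (mid_two q (Ec (m + 2) p i)).1 hi
      rwa [show Ec (m + 2) p i = E (m + 2) (p i) from rfl, h.div] at this
    have hj' : Mid q (Ec m v j) := by
      have := (mid_two q (Ec (m + 2) p j)).1 hj
      rwa [show Ec (m + 2) p j = E (m + 2) (p j) from rfl, h.div] at this
    exact hv.2 q (by omega) i j hi' hj'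

theorem LineOK.adj {m : ℕ} {v p : J → ℕ} (h : LineOK m v p) {i : J}
    (hv : Kept 1 m (Function.update (Ec m v) i (v i))) {c : ℕ} (hc : c / 9 = v i) :
    (D (m + 2) (Function.update p i c) ∩ D (m + 2) (Function.update p i (c + 1))).Nonempty := by
  have hk : Kept 1 (m + 2) (Function.update (Ec (m + 2) p) i c) := by
    rw [kept1_iff] at hv ⊢
    refine ⟨fun j => ?_, fun q hq a b ha hb => ?_⟩
    · by_cases hj : j = i
      · subst hj
        rw [Function.update_self]
        have := hv.1 j
        rw [Function.update_self] at this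
        have h9 : 3 ^ (m + 2) = 9 * 3 ^ m := by ring
        omega
      · rw [Function.update_of_ne hj]
        exact (E_spec (m + 2) (p j) (h.le j)).2
    · have h0 : ∀ j, q = 0 → Mid q (Function.update (Ec (m + 2) p) i c j) → j = i := by
        intro j hq0 hj
        by_contra hji
        rw [Function.update_of_ne hji, hq0] at hj
        exact h.m0 j hj
      have h1 : ∀ j, q = 1 → Mid q (Function.update (Ec (m + 2) p) i c j) → j = i := by
        intro j hq1 hj
        by_contra hji
        rw [Function.update_of_ne hji, hq1] at hj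
        exact h.m1 j hj
      rcases q with _ | _ | q
      · rw [h0 a rfl ha, h0 b rfl hb]
      · rw [h1 a rfl ha, h1 b rfl hb]
      · have key : ∀ j, Mid (q + 2) (Function.update (Ec (m + 2) p) i c j) →
            Mid q (Function.update (Ec m v) i (v i) j) := by
          intro j hj
          rw [mid_two] at hj
          by_cases hji : j = i
          · subst hji
            rw [Function.update_self] at hj ⊢
            rwa [hc] at hj
          · rw [Function.update_of_ne hji] at hj ⊢
            rwa [show Ec (m + 2) p j = E (m + 2) (p j) from rfl, h.div] at hj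
        exact hv.2 q (by omega) a b (key a ha) (key b hb)
  have h1 := adj_of_cube (u := Function.update p i c) (i := i) hk (by
    intro j
    by_cases hj : j = i
    · subst hj; rw [Function.update_self, Function.update_self]; exact Or.inl rfl
    · rw [Function.update_of_ne hj, Function.update_of_ne hj]
      exact vtx_Ec h.le j) (by rw [Function.update_self, Function.update_self])
  rwa [Function.update_idem, Function.update_self] at h1

/-- linking along a line -/
theorem lk_line {m : ℕ} {v p : J → ℕ} (h : LineOK m v p) {i : J}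
    (hv : Kept 1 m (Function.update (Ec m v) i (v i))) {T : Set (J → ℕ)} {a : ℕ} (n : ℕ) :
    (∀ c, a ≤ c → c ≤ a + n → Function.update p i c ∈ T) → (∀ c, a ≤ c → c < a + n → c / 9 = v i) →
      Lk (m + 2) T (Function.update p i a) (Function.update p i (a + n)) := by
  induction n with
  | zero => intro _ _; exact Lk.refl _
  | succ n ih =>
    intro h1 h2
    have h3 := ih (fun c hc hc' => h1 c hc (by omega)) (fun c hc hc' => h2 c hc (by omega))
    have h4 := h.adj hv (h2 (a + n) (by omega) (by omega))
    exact h3.trans (Lk.single (h1 _ (by omega) (by omega)) (h1 _ (by omega) (by omega)) h4)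

/-! ### neighbours -/

theorem update_apply_ne {u : J → ℕ} {i j : J} {c : ℕ} (h : j ≠ i) : Function.update u i c j = u j :=
  Function.update_of_ne h _ _

theorem link_neighbours {m : ℕ} {S : Set (J → ℕ)} {t : (J → ℕ) → Prop} {v : J → ℕ} {i : J}
    (hv : v ∈ S) (hw : Function.update v i (v i + 1) ∈ S)
    (h : (D m v ∩ D m (Function.update v i (v i + 1))).Nonempty) :
    Lk (m + 2) (F1 m S t) (cen v) (cen (Function.update v i (v i + 1))) ∧
      Lk (m + 2) (F2 m S t) (cor m v) (cor m (Function.update v i (v i + 1))) := by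
  set w := Function.update v i (v i + 1) with hwdef
  have hk := edge_cube h
  have hvle : ∀ j, v j ≤ 3 ^ m := ex_le (h.mono inter_subset_left)
  have hwle : ∀ j, w j ≤ 3 ^ m := ex_le (h.mono inter_subset_right)
  have hwi : w i = v i + 1 := by rw [hwdef, Function.update_self]
  have hwj : ∀ j, j ≠ i → w j = v j := fun j hj => by rw [hwdef, Function.update_of_ne hj]
  have hwv : Function.update w i (w i - 1) = v := by
    rw [hwi, hwdef, Function.update_idem, Nat.add_sub_cancel, Function.update_eq_self]
  -- membership in the subcells and outer faces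
  have hgp : ∀ p : J → ℕ, (∀ j, (p j + 4) / 9 = v j) → ∀ c, 9 * v i ≤ c → c ≤ 9 * v i + 9 →
      (gp (Function.update p i c) = v ∧ c ≤ 9 * v i + 4) ∨
      (gp (Function.update p i c) = w ∧ 9 * v i + 5 ≤ c) := by
    intro p hp c hc1 hc2
    by_cases hc : c ≤ 9 * v i + 4
    · left
      refine ⟨?_, hc⟩
      funext j
      by_cases hj : j = i
      · subst hj; simp only [gp, Function.update_self]; omega
      · simp only [gp, Function.update_of_ne hj]; exact hp j
    · right
      refine ⟨?_, by omega⟩
      funext j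
      by_cases hj : j = i
      · subst hj; simp only [gp, Function.update_self, hwi]; omega
      · simp only [gp, Function.update_of_ne hj, hwj j hj]; exact hp j
  have hno : ∀ p : J → ℕ, (∀ j, (p j + 4) / 9 = v j) → (∀ j, j ≠ i → za (p j) ≤ 3) →
      ∀ c, 9 * v i ≤ c → c ≤ 9 * v i + 9 → ¬ Outer S (Function.update p i c) := by
    rintro p hp hza c hc1 hc2 ⟨j, hj⟩
    have hji : j = i := by
      by_contra hji
      have h1 := hza j hji
      have h2 : za (p j) = 4 := by
        rw [za_four]
        rw [Function.update_of_ne hji] at hj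
        rcases hj with h | h
        · exact Or.inl h.1
        · exact Or.inr h.1
      omega
    subst hji
    rw [Function.update_self] at hj
    rcases hgp p hp c hc1 hc2 with ⟨g1, g2⟩ | ⟨g1, g2⟩
    · rw [g1] at hj
      rcases hj with ⟨h1, h2⟩ | ⟨h1, h2⟩
      · exact h2 hw
      · omega
    · rw [g1] at hj
      rcases hj with ⟨h1, h2⟩ | ⟨h1, h2⟩
      · omega
      · rw [hwv] at h2
        exact h2 hv
  have hne : ∀ p : J → ℕ, LineOK m v p → ∀ c, 9 * v i ≤ c → c ≤ 9 * v i + 9 →
      (D (m + 2) (Function.update p i c)).Nonempty := by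
    intro p hp c hc1 hc2
    by_cases hc : c ≤ 9 * v i + 8
    · exact (hp.adj hk (c := c) (by omega)).mono inter_subset_left
    · have := (hp.adj hk (c := 9 * v i + 8) (by omega)).mono inter_subset_right
      have e : c = 9 * v i + 8 + 1 := by omega
      rw [e]
      exact this
  have hSS : ∀ p : J → ℕ, LineOK m v p → (∀ j, (p j + 4) / 9 = v j) →
      ∀ c, 9 * v i ≤ c → c ≤ 9 * v i + 9 → Function.update p i c ∈ SS m S := by
    intro p hp hp2 c hc1 hc2
    refine ⟨hne p hp c hc1 hc2, ?_⟩
    rcases hgp p hp2 c hc1 hc2 with ⟨g1, _⟩ | ⟨g1, _⟩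
    · rw [g1]; exact hv
    · rw [g1]; exact hw
  have hcen : ∀ j, (cen v j + 4) / 9 = v j := fun j => by simp only [cen]; omega
  have hcor : ∀ j, (cor m v j + 4) / 9 = v j := fun j => (kap_rel m (v j) (hvle j)).1
  have hcorza : ∀ j, za (cor m v j) = 3 := fun j => (kap_rel m (v j) (hvle j)).2
  refine ⟨?_, ?_⟩
  · have h1 := lk_line (lineOK_cen hvle) hk (T := F1 m S t) (a := 9 * v i) 9 (by
      intro c hc1 hc2
      refine ⟨hSS _ (lineOK_cen hvle) hcen c hc1 hc2, Or.inr ⟨hno _ hcen (fun j _ => ?_) c hc1 hc2,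
        ?_⟩⟩
      · simp only [cen, za]; omega
      · intro a b ha hb
        have key : ∀ d, Big (Function.update (cen v) i c d) → d = i := by
          intro d hd
          by_contra hdi
          rw [Function.update_of_ne hdi, big_iff] at hd
          simp only [cen, za] at hd
          omega
        rw [key a ha, key b hb]) (by intro c hc1 hc2; omega)
    have e1 : Function.update (cen v) i (9 * v i) = cen v := by
      rw [Function.update_eq_self_iff]; rfl
    have e2 : Function.update (cen v) i (9 * v i + 9) = cen w := by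
      funext j
      by_cases hj : j = i
      · subst hj; rw [Function.update_self]; simp only [cen, hwi]; ring
      · rw [Function.update_of_ne hj]; simp only [cen, hwj j hj]
    rwa [e1, e2] at h1
  · have hline : ∀ c, 9 * v i + 3 ≤ c → c ≤ 9 * v i + 6 →
        Function.update (cor m v) i c ∈ F2 m S t := by
      intro c hc1 hc2
      refine ⟨hSS _ (lineOK_cor hvle) hcor c (by omega) (by omega),
        not_col_cross (hno _ hcor (fun j _ => (hcorza j).le) c (by omega) (by omega)) ?_⟩
      intro hc
      obtain ⟨a, b, hab, ha, hb⟩ := exists_two_ne i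
      refine hab (hc a b ?_ ?_)
      · rw [Function.update_of_ne ha, big_iff, hcorza a]; omega
      · rw [Function.update_of_ne hb, big_iff, hcorza b]; omega
    have h1 := lk_line (lineOK_cor hvle) hk (T := F2 m S t) (a := 9 * v i + 3) 3 hline
      (by intro c hc1 hc2; omega)
    have hA := hline (9 * v i + 3) le_rfl (by omega)
    have hB := hline (9 * v i + 6) (by omega) le_rfl
    have gA : gp (Function.update (cor m v) i (9 * v i + 3)) = v := by
      rcases hgp _ hcor (9 * v i + 3) (by omega) (by omega) with ⟨g1, g2⟩ | ⟨g1, g2⟩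
      · exact g1
      · omega
    have gB : gp (Function.update (cor m v) i (9 * v i + 6)) = w := by
      rcases hgp _ hcor (9 * v i + 6) (by omega) (by omega) with ⟨g1, g2⟩ | ⟨g1, g2⟩
      · omega
      · exact g1
    have lA := link_cor (t := t) hA.1 (by
      intro l
      by_cases hl : l = i
      · subst hl; rw [Function.update_self]; unfold za; omega
      · rw [Function.update_of_ne hl]; exact hcorza l)
    have lB := link_cor (t := t) hB.1 (by
      intro l
      by_cases hl : l = i
      · subst hl; rw [Function.update_self]; unfold za; omega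
      · rw [Function.update_of_ne hl]; exact hcorza l)
    rw [gA] at lA
    rw [gB] at lB
    exact (lA.symm.trans h1).trans lB

theorem link_adjacent {m : ℕ} {S : Set (J → ℕ)} {t : (J → ℕ) → Prop} {v w : J → ℕ}
    (hv : v ∈ S) (hw : w ∈ S) (h : (D m v ∩ D m w).Nonempty) :
    Lk (m + 2) (F1 m S t) (cen v) (cen w) ∧ Lk (m + 2) (F2 m S t) (cor m v) (cor m w) := by
  by_cases hvw : v = w
  · subst hvw
    exact ⟨Lk.refl _, Lk.refl _⟩
  obtain ⟨i, hi⟩ := exists_ne_coord hvw
  obtain ⟨x, hx1, hx2⟩ := h
  obtain ⟨c, hc, h1, h2⟩ := two_cells hx1 hx2 hi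
  have heq : ∀ j, j ≠ i → v j = w j := fun j hj => two_cells_eq hx1 hx2 hi hj
  rcases lt_or_gt_of_ne hi with h3 | h3
  · have e : w = Function.update v i (v i + 1) := by
      funext j
      by_cases hj : j = i
      · subst hj; rw [Function.update_self]; omega
      · rw [Function.update_of_ne hj, heq j hj]
    subst e
    exact link_neighbours hv hw ⟨x, hx1, hx2⟩
  · have e : v = Function.update w i (w i + 1) := by
      funext j
      by_cases hj : j = i
      · subst hj; rw [Function.update_self]; omega
      · rw [Function.update_of_ne hj, heq j hj]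
    subst e
    have := link_neighbours (t := t) hw hv ⟨x, hx2, hx1⟩
    exact ⟨this.1.symm, this.2.symm⟩

theorem link_S {m : ℕ} {S : Set (J → ℕ)} {t : (J → ℕ) → Prop} {v w : J → ℕ}
    (h : Lk m S v w) : Lk (m + 2) (F1 m S t) (cen v) (cen w) ∧
      Lk (m + 2) (F2 m S t) (cor m v) (cor m w) := by
  induction h with
  | refl => exact ⟨Lk.refl _, Lk.refl _⟩
  | tail _ hbc ih =>
    have h1 := link_adjacent (t := t) hbc.1 hbc.2.1 hbc.2.2
    exact ⟨ih.1.trans h1.1, ih.2.trans h1.2⟩

/-- digital splitting for the Menger curve -/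
theorem digSplit : DigSplit D := by
  classical
  intro m S hS hadj t
  have hlk := lk_of_adjConn hadj
  have hlev : ∀ v ∈ S, ∀ j, v j ≤ 3 ^ m := fun v hv => ex_le (hS v hv)
  have hcen : ∀ v ∈ S, cen v ∈ F1 m S t := by
    intro v hv
    have hgp : gp (cen v) = v := by funext j; simp only [gp, cen]; omega
    have hza : ∀ j, za (cen v j) = 0 := fun j => by simp only [cen, za]; omega
    refine ⟨⟨(lineOK_cen (hlev v hv)).ex (ex_kept (hS v hv)), by rw [hgp]; exact hv⟩,
      Or.inr ⟨not_outer_of_za fun j => by rw [hza j]; omega, ?_⟩⟩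
    intro a b ha _
    rw [big_iff, hza a] at ha
    omega
  have hcor : ∀ v ∈ S, cor m v ∈ F2 m S t := by
    intro v hv
    have hgp : gp (cor m v) = v := funext fun j => (kap_rel m (v j) (hlev v hv j)).1
    have hza : ∀ j, za (cor m v j) = 3 := fun j => (kap_rel m (v j) (hlev v hv j)).2
    exact mem_F2 (j := 0) ⟨(lineOK_cor (hlev v hv)).ex (ex_kept (hS v hv)),
      by rw [hgp]; exact hv⟩ (fun l _ => hza l) (hza 0).le
  obtain ⟨v0, hv0⟩ := hadj.1
  have hun : F1 m S t ∪ F2 m S t = SS m S := by
    ext u
    constructor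
    · rintro (h | h) <;> exact h.1
    · intro h
      by_cases hc : Col S t u
      · exact Or.inl ⟨h, hc⟩
      · exact Or.inr ⟨h, hc⟩
  refine ⟨m + 2, F1 m S t, F2 m S t, ?_, ?_, ?_, ?_, ?_, ?_⟩
  · rw [Set.disjoint_left]
    intro u h1 h2
    exact h2.2 h1.2
  · refine adjConn_of_lk ⟨_, hcen v0 hv0⟩ fun a ha b hb => ?_
    have h1 := link_cen _ a ha le_rfl
    have h2 := link_cen _ b hb le_rfl
    exact (h1.trans (link_S (hlk _ ha.1.2 _ hb.1.2)).1).trans h2.symm
  · refine adjConn_of_lk ⟨_, hcor v0 hv0⟩ fun a ha b hb => ?_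
    have key : ∀ a ∈ F2 m S t, Lk (m + 2) (F2 m S t) a (cor m (gp a)) := by
      intro a ha
      obtain ⟨u, h1, h2, h3, h4⟩ := link_three _ a ha le_rfl
      have h5 := link_cor (t := t) h1.1 h4
      rw [h3] at h5
      exact h2.trans h5
    exact ((key a ha).trans (link_S (hlk _ ha.1.2 _ hb.1.2)).2).trans (key b hb).symm
  · intro u hu
    rw [hun] at hu
    exact hu.1
  · rw [hun]
    ext x
    simp only [mem_iUnion, exists_prop]
    constructor
    · rintro ⟨u, hu, hx⟩
      refine ⟨gp u, hu.2, ?_⟩
      rw [← par_par]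
      exact D_par m (par u) (D_par (m + 1) u hx)
    · rintro ⟨v, hv, hx⟩
      obtain ⟨u, hu, hxu⟩ := D_iter hx 2
      have h1 : gp u = v := by rw [← par_par]; exact hu
      exact ⟨u, ⟨⟨x, hxu⟩, by rw [h1]; exact hv⟩, hxu⟩
  · rintro v hv w hw x ⟨hxv, hxw⟩ u hu hxu
    rw [hun] at hu
    have hxg : x ∈ D m (gp u) := by
      rw [← par_par]
      exact D_par m (par u) (D_par (m + 1) u hxu)
    have hvw : v ≠ w := by rintro rfl; exact hw hv
    have hgv : gp u = v := by
      by_contra hne
      by_cases hgw : gp u = w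
      · rw [← hgw] at hw
        exact hw hu.2
      · exact no_triple m (gp u) v w hne hvw hgw x hxg hxv hxw
    obtain ⟨i, hi⟩ := exists_ne_coord hvw
    obtain ⟨c, hc, h1, h2⟩ := two_cells hxv hxw hi
    have heq : ∀ j, j ≠ i → v j = w j := fun j hj => two_cells_eq hxv hxw hi hj
    have hui := abs_le.1 (hxu i)
    have e9 : (3 : ℝ) ^ (m + 2) * (x : J → ℝ) i = 9 * (3 ^ m * (x : J → ℝ) i) := by ring
    rw [e9, hc] at hui
    have hu1 : u i ≤ 9 * c + 5 := by
      have : (u i : ℝ) ≤ (9 * c + 5 : ℕ) := by push_cast; linarith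
      exact_mod_cast this
    have hu2 : 9 * c + 4 ≤ u i := by
      have : ((9 * c + 4 : ℕ) : ℝ) ≤ u i := by push_cast; linarith
      exact_mod_cast this
    have hgi : (u i + 4) / 9 = v i := by rw [← hgv]; rfl
    have houter : Outer S u := by
      refine ⟨i, ?_⟩
      rw [hgv]
      rcases lt_or_gt_of_ne hi with h3 | h3
      · left
        have e : w = Function.update v i (v i + 1) := by
          funext j
          by_cases hj : j = i
          · subst hj; rw [Function.update_self]; omega
          · rw [Function.update_of_ne hj, heq j hj]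
        exact ⟨by omega, by rw [← e]; exact hw⟩
      · right
        have e : w = Function.update v i (v i - 1) := by
          funext j
          by_cases hj : j = i
          · subst hj; rw [Function.update_self]; omega
          · rw [Function.update_of_ne hj, heq j hj]
        exact ⟨by omega, by rw [← e]; exact hw⟩
    constructor
    · rintro ⟨_, h | h⟩
      · rw [← hgv]; exact h.2
      · exact absurd houter h.1
    · intro ht
      exact ⟨hu, Or.inl ⟨houter, by rw [hgv]; exact ht⟩⟩

end Run7.h116
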