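import Pool.Agent.Run7.h116.T9
import Pool.Agent.Run7.h116.T16

set_option autoImplicit false
set_option linter.unusedSectionVars false

/-!
# The main theorem for spaces locally homeomorphic to the Menger curve
-/

open Set Topology Filter
open Pool.Agent.Helper259.Menger

namespace Run7.h116

instance compactSpace_menger : CompactSpace (menger 1) := isCompact_iff_compactSpace.1 isCompact_menger

/-- a neighbourhood homeomorphic to `X` gives a chart -/
theorem exists_chart {M X : Type*} [TopologicalSpace M] [TopologicalSpace X] {x : M} {U : Set M}
    (hU : U ∈ 𝓝 x) (φ : U ≃ₜ X) : ∃ e : OpenPartialHomeomorph M X, x ∈ e.source := by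
  let O : TopologicalSpace.Opens M := ⟨interior U, isOpen_interior⟩
  have hx : x ∈ O := mem_interior_iff_mem_nhds.2 hU
  have hO : Nonempty O := ⟨⟨x, hx⟩⟩
  let j : O → X := fun y => φ ⟨y, interior_subset y.2⟩
  have hi : IsOpenEmbedding (fun y : O => (⟨y, interior_subset y.2⟩ : U)) := by
    refine ⟨⟨?_, ?_⟩, ?_⟩
    · refine Topology.IsInducing.of_comp (g := (Subtype.val : U → M)) ?_ continuous_subtype_val ?_
      · exact continuous_subtype_val.subtype_mk _
      · exact Topology.IsInducing.subtypeVal
    · intro a b hab
      exact Subtype.ext (congrArg (fun u : U => (u : M)) hab)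
    · have : range (fun y : O => (⟨y, interior_subset y.2⟩ : U)) = Subtype.val ⁻¹' interior U := by
        ext u
        constructor
        · rintro ⟨y, rfl⟩; exact y.2
        · intro hu; exact ⟨⟨u, hu⟩, rfl⟩
      rw [this]
      exact isOpen_interior.preimage continuous_subtype_val
  have hj : IsOpenEmbedding j := φ.isOpenEmbedding.comp hi
  refine ⟨(O.openPartialHomeomorphSubtypeCoe hO).symm.trans (hj.toOpenPartialHomeomorph j), ?_⟩
  simp only [OpenPartialHomeomorph.trans_source, OpenPartialHomeomorph.symm_source,
    TopologicalSpace.Opens.openPartialHomeomorphSubtypeCoe_target,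
    IsOpenEmbedding.toOpenPartialHomeomorph_source, preimage_univ, inter_univ]
  exact hx

/-- every closed subset of a metrizable separable space locally homeomorphic to the Menger curve is
the fixed point set of an involution -/
theorem main {M : Type*} [TopologicalSpace M] [TopologicalSpace.MetrizableSpace M]
    [TopologicalSpace.SeparableSpace M]
    (hM : ∀ x : M, ∃ U ∈ 𝓝 x, Nonempty (U ≃ₜ menger 1)) {A : Set M} (hA : IsClosed A) :
    ∃ h : M ≃ₜ M, Function.Involutive h ∧ {x | h x = x} = A := by
  letI : MetricSpace M := TopologicalSpace.metrizableSpaceMetric M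
  have : SecondCountableTopology M := UniformSpace.secondCountable_of_separable M
  have hlc : LocallyConnectedSpace (menger 1) := dig.locallyConnected
  refine exists_involution (X := menger 1) (dig.hasSplit digSplit) dig.hasFine
    (fun K O => dig.tameIn) ?_ hA
  intro x
  obtain ⟨U, hU, ⟨φ⟩⟩ := hM x
  exact exists_chart hU φ

end Run7.h116
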