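import Pool.Agent.Run7.h116.T1

set_option autoImplicit false

/-!
# Partitions into cells
-/

open Set Topology Filter

namespace Run7.h116

variable {M : Type*} [TopologicalSpace M] {ι κ : Type*}

/-- the sets `r i`, `i ∈ F`, form a partition of `R` into cells without triple points -/
structure IsPart (R : Set M) (F : Set ι) (r : ι → Set M) : Prop where
  cell : ∀ i ∈ F, Cell (r i)
  union : ⋃ i ∈ F, r i = R
  disj : ∀ i ∈ F, ∀ j ∈ F, i ≠ j → Disjoint (interior (r i)) (interior (r j))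
  triple : ∀ i ∈ F, ∀ j ∈ F, ∀ k ∈ F, i ≠ j → j ≠ k → i ≠ k → r i ∩ r j ∩ r k = ∅
  bdry : ∀ i ∈ F, ∀ j ∈ F, i ≠ j → r i ∩ r j ⊆ interior R

/-- the adjacency graph of `r i`, `i ∈ F`, is connected -/
def AdjConn (F : Set ι) (r : ι → Set M) : Prop :=
  F.Nonempty ∧ ∀ T ⊆ F, T.Nonempty → T ≠ F → ∃ i ∈ T, ∃ j ∈ F \ T, (r i ∩ r j).Nonempty

variable {R : Set M} {F : Set ι} {r : ι → Set M}

theorem IsPart.sub (h : IsPart R F r) {i : ι} (hi : i ∈ F) : r i ⊆ R := by
  rw [← h.union]; exact subset_biUnion_of_mem hi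

theorem IsPart.inter_frontier (h : IsPart R F r) {i j : ι} (hi : i ∈ F) (hj : j ∈ F)
    (hij : i ≠ j) : r i ∩ r j ⊆ frontier (r i) := by
  rintro x ⟨h1, h2⟩
  rw [(h.cell i hi).closed.frontier_eq]
  refine ⟨h1, fun h3 => ?_⟩
  obtain ⟨y, hy, hy2⟩ := mem_closure_iff_nhds.1 ((h.cell j hj).reg h2) _
    (isOpen_interior.mem_nhds h3)
  exact Set.disjoint_left.1 (h.disj i hi j hj hij) hy hy2

theorem IsPart.exists_of_mem (h : IsPart R F r) {x : M} (hx : x ∈ R) : ∃ i ∈ F, x ∈ r i := by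
  rw [← h.union] at hx
  simpa using hx

/-- all partial unions are closed -/
def ClU (F : Set ι) (r : ι → Set M) : Prop := ∀ T ⊆ F, IsClosed (⋃ j ∈ T, r j)

theorem ClU.of_finite (h : ∀ i ∈ F, IsClosed (r i)) (hF : F.Finite) : ClU F r :=
  fun _ hT => (hF.subset hT).isClosed_biUnion fun j hj => h j (hT hj)

theorem IsPart.clU (h : IsPart R F r) (hF : F.Finite) : ClU F r :=
  ClU.of_finite (fun i hi => (h.cell i hi).closed) hF

theorem IsPart.frontier_subset (h : IsPart R F r) (hF : ClU F r) {i : ι} (hi : i ∈ F) :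
    frontier (r i) ⊆ (⋃ j ∈ F ∩ {j | j ≠ i}, r i ∩ r j) ∪ (r i ∩ frontier R) := by
  intro x hx
  have hxi : x ∈ r i := (h.cell i hi).closed.frontier_subset hx
  rw [(h.cell i hi).closed.frontier_eq] at hx
  by_cases hR : x ∈ interior R
  · left
    by_contra hcon
    simp only [mem_iUnion, mem_inter_iff, not_exists, not_and] at hcon
    apply hx.2
    refine mem_interior.2 ⟨interior R \ ⋃ j ∈ F ∩ {j | j ≠ i}, r j, ?_,
      isOpen_interior.sdiff (hF _ inter_subset_left), hR, ?_⟩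
    · rintro y ⟨h1, h2⟩
      obtain ⟨j, hj, hyj⟩ := h.exists_of_mem (interior_subset h1)
      by_cases hji : j = i
      · exact hji ▸ hyj
      · exact absurd (mem_iUnion₂.2 ⟨j, ⟨hj, hji⟩, hyj⟩) h2
    · intro h3
      obtain ⟨j, hj, hyj⟩ := mem_iUnion₂.1 h3
      exact hcon j hj hxi hyj
  · right
    have hxR : x ∈ R := h.sub hi hxi
    exact ⟨hxi, by rw [frontier]; exact ⟨subset_closure hxR, hR⟩⟩

theorem IsPart.frontier_supset (h : IsPart R F r) {i : ι} (hi : i ∈ F) :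
    (⋃ j ∈ F ∩ {j | j ≠ i}, r i ∩ r j) ∪ (r i ∩ frontier R) ⊆ frontier (r i) := by
  rintro x (hx | hx)
  · obtain ⟨j, hj, hxj⟩ := mem_iUnion₂.1 hx
    exact h.inter_frontier hi hj.1 (Ne.symm hj.2) hxj
  · rw [(h.cell i hi).closed.frontier_eq]
    exact ⟨hx.1, fun h3 => hx.2.2 (interior_mono (h.sub hi) h3)⟩

theorem IsPart.frontier_eq (h : IsPart R F r) (hF : ClU F r) {i : ι} (hi : i ∈ F) :
    frontier (r i) = (⋃ j ∈ F ∩ {j | j ≠ i}, r i ∩ r j) ∪ (r i ∩ frontier R) :=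
  Subset.antisymm (h.frontier_subset hF hi) (h.frontier_supset hi)

/-- near a common point of `r i` and `r j` there are only these two -/
theorem IsPart.mem_interior_union (h : IsPart R F r) (hF : ClU F r) {i j : ι} (hi : i ∈ F)
    (hj : j ∈ F) (hij : i ≠ j) {x : M} (hx : x ∈ r i ∩ r j) : x ∈ interior (r i ∪ r j) := by
  refine mem_interior.2 ⟨interior R \ ⋃ k ∈ F ∩ {k | k ≠ i ∧ k ≠ j}, r k, ?_,
    isOpen_interior.sdiff (hF _ inter_subset_left), h.bdry i hi j hj hij hx, ?_⟩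
  · rintro y ⟨h1, h2⟩
    obtain ⟨k, hk, hyk⟩ := h.exists_of_mem (interior_subset h1)
    by_cases hki : k = i
    · exact Or.inl (hki ▸ hyk)
    · by_cases hkj : k = j
      · exact Or.inr (hkj ▸ hyk)
      · exact absurd (mem_iUnion₂.2 ⟨k, ⟨hk, hki, hkj⟩, hyk⟩) h2
  · intro h3
    obtain ⟨k, hk, hyk⟩ := mem_iUnion₂.1 h3
    have := h.triple i hi j hj k hk.1 hij (Ne.symm hk.2.2) (Ne.symm hk.2.1)
    exact (this ▸ (⟨hx, hyk⟩ : x ∈ r i ∩ r j ∩ r k) : x ∈ (∅ : Set M))

/-- a union of members of a partition is tame -/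
theorem IsPart.union_tame (h : IsPart R F r) (hF : F.Finite) {G : Set ι} (hG : G ⊆ F) :
    Tame (⋃ i ∈ G, r i) := by
  classical
  have hGf : G.Finite := hF.subset hG
  set U : Set M := ⋃ i ∈ G, r i with hU
  have hUc : IsClosed U := hGf.isClosed_biUnion fun i hi => (h.cell i (hG hi)).closed
  have hsub : ∀ i ∈ G, r i ⊆ U := fun i hi => subset_biUnion_of_mem hi
  -- a frontier point of `U` in `r i` is in no other member of `G`
  have hfr : ∀ i ∈ G, ∀ j ∈ G, i ≠ j → ∀ x ∈ frontier U, x ∈ r i → x ∉ r j := by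
    intro i hi j hj hij x hx h1 h2
    rw [hUc.frontier_eq] at hx
    exact hx.2 (interior_mono (union_subset (hsub i hi) (hsub j hj))
      (h.mem_interior_union (h.clU hF) (hG hi) (hG hj) hij ⟨h1, h2⟩))
  have hgerm : ∀ i ∈ G, ∀ x ∈ frontier U, x ∈ r i → GermEq (r i) U x := by
    intro i hi x hx hxi
    refine ⟨(⋃ j ∈ G ∩ {j | j ≠ i}, r j)ᶜ, (h.clU hF _ (inter_subset_left.trans hG)).isOpen_compl, ?_, ?_⟩
    · intro h3
      obtain ⟨j, hj, hxj⟩ := mem_iUnion₂.1 h3
      exact hfr i hi j hj.1 (Ne.symm hj.2) x hx hxi hxj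
    · refine Subset.antisymm (inter_subset_inter_left _ (hsub i hi)) ?_
      rintro y ⟨h1, h2⟩
      refine ⟨?_, h2⟩
      obtain ⟨j, hj, hyj⟩ := mem_iUnion₂.1 h1
      by_cases hji : j = i
      · exact hji ▸ hyj
      · exact absurd (mem_iUnion₂.2 ⟨j, ⟨hj, hji⟩, hyj⟩) h2
  have hfri : ∀ i ∈ G, frontier U ∩ r i ⊆ frontier (r i) := by
    rintro i hi x ⟨hx, hxi⟩
    exact ((hgerm i hi x hx hxi).frontier.mem_iff).2 hx
  refine ⟨hUc, ?_, ?_, ?_⟩
  · intro x hx
    obtain ⟨i, hi, hxi⟩ := mem_iUnion₂.1 hx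
    exact closure_mono (interior_mono (hsub i hi)) ((h.cell i (hG hi)).reg hxi)
  · have : frontier U = ⋃ i ∈ G, frontier U ∩ r i := by
      ext x
      simp only [mem_iUnion, mem_inter_iff]
      constructor
      · intro hx
        obtain ⟨i, hi, hxi⟩ := mem_iUnion₂.1 (hUc.frontier_subset hx)
        exact ⟨i, hi, hx, hxi⟩
      · rintro ⟨i, hi, hx, hxi⟩
        exact hx
    rw [this]
    refine td_biUnion hGf _ (fun i hi => isClosed_frontier.inter (h.cell i (hG hi)).closed) ?_ ?_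
    · intro i hi j hj hij
      rw [Set.disjoint_left]
      rintro x ⟨h1, h2⟩ ⟨_, h3⟩
      exact hfr i hi j hj hij x h1 h2 h3
    · intro i hi
      exact td_subset (h.cell i (hG hi)).td (hfri i hi)
  · intro x hx
    obtain ⟨i, hi, hxi⟩ := mem_iUnion₂.1 (hUc.frontier_subset hx)
    exact ((h.cell i (hG hi)).tameAt x (hfri i hi ⟨hx, hxi⟩)).germ (hgerm i hi x hx hxi)

/-- a union of members of a partition with connected adjacency graph is a cell -/
theorem IsPart.union_cell (h : IsPart R F r) (hF : F.Finite) {G : Set ι} (hG : G ⊆ F)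
    (hconn : AdjConn G r) : Cell (⋃ i ∈ G, r i) := by
  classical
  have hGf : G.Finite := hF.subset hG
  refine ⟨h.union_tame hF hG, ?_, ?_⟩
  · exact hGf.isCompact_biUnion fun i hi => (h.cell i (hG hi)).compact
  · obtain ⟨⟨i0, hi0⟩, hadj⟩ := hconn
    set U : Set M := ⋃ i ∈ G, r i with hU
    have hsub : ∀ i ∈ G, r i ⊆ U := fun i hi => subset_biUnion_of_mem hi
    refine ⟨((h.cell i0 (hG hi0)).conn.nonempty).mono (interior_mono (hsub i0 hi0)), ?_⟩
    -- every point of the interior of `U` is in the closure of some `interior (r i)`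
    intro A B hA hB hAB hneA hneB
    by_contra hcon
    rw [not_nonempty_iff_eq_empty] at hcon
    have hno : ∀ x ∈ interior U, x ∈ A → x ∈ B → False := by
      intro x hx h1 h2
      exact (hcon ▸ (⟨hx, h1, h2⟩ : x ∈ interior U ∩ (A ∩ B)) : x ∈ (∅ : Set M))
    have hdich : ∀ i ∈ G, interior (r i) ⊆ A ∨ interior (r i) ⊆ B := by
      intro i hi
      have hiU : interior (r i) ⊆ interior U := interior_mono (hsub i hi)
      by_contra hc
      push Not at hc
      obtain ⟨h1, h2⟩ := hc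
      obtain ⟨x, hx, hxA⟩ := not_subset.1 h1
      obtain ⟨y, hy, hyB⟩ := not_subset.1 h2
      have hxB : x ∈ B := (hAB (hiU hx)).resolve_left hxA
      have hyA : y ∈ A := (hAB (hiU hy)).resolve_right hyB
      obtain ⟨z, hz, hzA, hzB⟩ := (h.cell i (hG hi)).conn.isPreconnected A B hA hB
        (hiU.trans hAB) ⟨y, hy, hyA⟩ ⟨x, hx, hxB⟩
      exact hno z (hiU hz) hzA hzB
    have hpt : ∀ x ∈ interior U, ∀ V, IsOpen V → x ∈ V → ∃ i ∈ G, (interior (r i) ∩ V).Nonempty := by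
      intro x hx V hV hxV
      obtain ⟨i, hi, hxi⟩ := mem_iUnion₂.1 (interior_subset hx)
      obtain ⟨y, hy, hy2⟩ := mem_closure_iff_nhds.1 ((h.cell i (hG hi)).reg hxi) V
        (hV.mem_nhds hxV)
      exact ⟨i, hi, y, hy2, hy⟩
    set T : Set ι := {i ∈ G | interior (r i) ⊆ A} with hT
    have hTne : T.Nonempty := by
      obtain ⟨x, hx, hxA⟩ := hneA
      obtain ⟨i, hi, y, hy, hyA⟩ := hpt x hx A hA hxA
      refine ⟨i, hi, ?_⟩
      rcases hdich i hi with h1 | h1
      · exact h1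
      · exact absurd (h1 hy) fun hyB => hno y (interior_mono (hsub i hi) hy) hyA hyB
    have hTG : T ≠ G := by
      intro hTG
      obtain ⟨x, hx, hxB⟩ := hneB
      obtain ⟨i, hi, y, hy, hyB⟩ := hpt x hx B hB hxB
      rw [← hTG] at hi
      exact hno y (interior_mono (hsub i hi.1) hy) (hi.2 hy) hyB
    obtain ⟨i, hi, j, hj, x, hxi, hxj⟩ := hadj T (fun i hi => hi.1) hTne hTG
    have hjB : interior (r j) ⊆ B := (hdich j hj.1).resolve_left fun h1 => hj.2 ⟨hj.1, h1⟩
    have hij : i ≠ j := by rintro rfl; exact hj.2 hi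
    have hxU : x ∈ interior U := interior_mono (union_subset (hsub i hi.1) (hsub j hj.1))
      (h.mem_interior_union (h.clU hF) (hG hi.1) (hG hj.1) hij ⟨hxi, hxj⟩)
    rcases hAB hxU with h1 | h1
    · obtain ⟨y, hy, hy2⟩ := mem_closure_iff_nhds.1 ((h.cell j (hG hj.1)).reg hxj) A
        (hA.mem_nhds h1)
      exact hno y (interior_mono (hsub j hj.1) hy2) hy (hjB hy2)
    · obtain ⟨y, hy, hy2⟩ := mem_closure_iff_nhds.1 ((h.cell i (hG hi.1)).reg hxi) B
        (hB.mem_nhds h1)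
      exact hno y (interior_mono (hsub i hi.1) hy2) (hi.2 hy2) hy

/-- the adjacency graph of a partition of a connected set is connected -/
theorem IsPart.adjConn (h : IsPart R F r) (hF : F.Finite) (hR : IsConnected R) :
    AdjConn F r := by
  refine ⟨?_, ?_⟩
  · obtain ⟨x, hx⟩ := hR.nonempty
    obtain ⟨i, hi, _⟩ := h.exists_of_mem hx
    exact ⟨i, hi⟩
  · intro T hT hTne hTF
    by_contra hcon
    push Not at hcon
    obtain ⟨i, hi⟩ := hTne
    obtain ⟨j, hj, hjT⟩ : ∃ j ∈ F, j ∉ T := by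
      by_contra hc
      push Not at hc
      exact hTF (Subset.antisymm hT hc)
    have hc1 : IsClosed (⋃ i ∈ T, r i) :=
      (hF.subset hT).isClosed_biUnion fun i hi => (h.cell i (hT hi)).closed
    have hc2 : IsClosed (⋃ i ∈ F \ T, r i) :=
      (hF.subset sdiff_subset).isClosed_biUnion fun i hi => (h.cell i hi.1).closed
    obtain ⟨x, hx⟩ := (h.cell i (hT hi)).nonempty
    obtain ⟨y, hy⟩ := (h.cell j hj).nonempty
    obtain ⟨z, hz, h1, h2⟩ := isPreconnected_closed_iff.1 hR.isPreconnected _ _ hc1 hc2 (by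
      intro z hz
      obtain ⟨k, hk, hzk⟩ := h.exists_of_mem hz
      by_cases hkT : k ∈ T
      · exact Or.inl (mem_iUnion₂.2 ⟨k, hkT, hzk⟩)
      · exact Or.inr (mem_iUnion₂.2 ⟨k, ⟨hk, hkT⟩, hzk⟩))
      ⟨x, h.sub (hT hi) hx, mem_iUnion₂.2 ⟨i, hi, hx⟩⟩
      ⟨y, h.sub hj hy, mem_iUnion₂.2 ⟨j, ⟨hj, hjT⟩, hy⟩⟩
    obtain ⟨k, hk, hzk⟩ := mem_iUnion₂.1 h1
    obtain ⟨l, hl, hzl⟩ := mem_iUnion₂.1 h2
    have := hcon k hk l hl
    exact (this ▸ (⟨hzk, hzl⟩ : z ∈ r k ∩ r l) : z ∈ (∅ : Set M))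

theorem interior_frontier_closed {A : Set M} (hA : IsClosed A) : interior (frontier A) = ∅ :=
  interior_frontier hA

/-- substitution of partitions into a partition -/
theorem IsPart.subst (h : IsPart R F r) (G : ι → Set κ) (s : κ → Set M)
    (hs : ∀ i ∈ F, IsPart (r i) (G i) s) : IsPart R (⋃ i ∈ F, G i) s := by
  have hd : ∀ i ∈ F, ∀ j ∈ F, i ≠ j → ∀ k ∈ G i, ∀ l ∈ G j, s k ∩ s l ⊆ r i ∩ r j :=
    fun i hi j hj _ k hk l hl => inter_subset_inter ((hs i hi).sub hk) ((hs j hj).sub hl)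
  refine ⟨?_, ?_, ?_, ?_, ?_⟩
  · intro k hk
    obtain ⟨i, hi, hki⟩ := mem_iUnion₂.1 hk
    exact (hs i hi).cell k hki
  · rw [← h.union]
    ext x
    simp only [mem_iUnion]
    constructor
    · rintro ⟨k, ⟨i, hi, hki⟩, hx⟩
      exact ⟨i, hi, (hs i hi).sub hki hx⟩
    · rintro ⟨i, hi, hx⟩
      obtain ⟨k, hk, hxk⟩ := (hs i hi).exists_of_mem hx
      exact ⟨k, ⟨i, hi, hk⟩, hxk⟩
  · intro k hk l hl hkl
    obtain ⟨i, hi, hki⟩ := mem_iUnion₂.1 hk
    obtain ⟨j, hj, hlj⟩ := mem_iUnion₂.1 hl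
    by_cases hij : i = j
    · subst hij
      exact (hs i hi).disj k hki l hlj hkl
    · exact (h.disj i hi j hj hij).mono (interior_mono ((hs i hi).sub hki))
        (interior_mono ((hs j hj).sub hlj))
  · intro k hk l hl m hm hkl hlm hkm
    obtain ⟨i, hi, hki⟩ := mem_iUnion₂.1 hk
    obtain ⟨j, hj, hlj⟩ := mem_iUnion₂.1 hl
    obtain ⟨p, hp, hmp⟩ := mem_iUnion₂.1 hm
    rw [← subset_empty_iff]
    rintro x ⟨⟨h1, h2⟩, h3⟩
    -- two of them in the same part: the common point is interior to it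
    have two : ∀ i ∈ F, ∀ p ∈ F, i ≠ p → ∀ k ∈ G i, ∀ l ∈ G i, k ≠ l → ∀ m ∈ G p,
        x ∈ s k → x ∈ s l → x ∈ s m → False := by
      intro i hi p hp hip k hki l hli hkl m hmp h1 h2 h3
      have hx1 : x ∈ interior (r i) := (hs i hi).bdry k hki l hli hkl ⟨h1, h2⟩
      have hx2 : x ∈ frontier (r i) := h.inter_frontier hi hp hip
        ⟨(hs i hi).sub hki h1, (hs p hp).sub hmp h3⟩
      exact hx2.2 hx1
    by_cases hij : i = j
    · subst hij
      by_cases hip : i = p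
      · subst hip
        have := (hs i hi).triple k hki l hlj m hmp hkl hlm hkm
        exact (this ▸ (⟨⟨h1, h2⟩, h3⟩ : x ∈ s k ∩ s l ∩ s m) : x ∈ (∅ : Set M))
      · exact two i hi p hp hip k hki l hlj hkl m hmp h1 h2 h3
    · by_cases hip : i = p
      · subst hip
        exact two i hi j hj hij k hki m hmp hkm l hlj h1 h3 h2
      · by_cases hjp : j = p
        · subst hjp
          exact two j hj i hi (Ne.symm hij) l hlj m hmp hlm k hki h2 h3 h1
        · have := h.triple i hi j hj p hp hij hjp hip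
          exact (this ▸ (⟨⟨(hs i hi).sub hki h1, (hs j hj).sub hlj h2⟩, (hs p hp).sub hmp h3⟩ :
            x ∈ r i ∩ r j ∩ r p) : x ∈ (∅ : Set M))
  · intro k hk l hl hkl
    obtain ⟨i, hi, hki⟩ := mem_iUnion₂.1 hk
    obtain ⟨j, hj, hlj⟩ := mem_iUnion₂.1 hl
    by_cases hij : i = j
    · subst hij
      exact ((hs i hi).bdry k hki l hlj hkl).trans (interior_mono (h.sub hi))
    · exact (hd i hi j hj hij k hki l hlj).trans (h.bdry i hi j hj hij)

theorem IsPart.single {R : Set M} (i : ι) (hr : r i = R) (hR : Cell R) : IsPart R {i} r := by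
  refine ⟨?_, by simp [hr], ?_, ?_, ?_⟩
  · rintro j rfl; rw [hr]; exact hR
  · rintro j rfl k rfl h; exact absurd rfl h
  · rintro j rfl k rfl _ _ h; exact absurd rfl h
  · rintro j rfl k rfl h; exact absurd rfl h

/-- `R` is split into the cells `A` and `B` -/
structure IsSplit (R A B : Set M) : Prop where
  cellA : Cell A
  cellB : Cell B
  union : A ∪ B = R
  disj : Disjoint (interior A) (interior B)
  sub : A ∩ B ⊆ interior R
  ne : (A ∩ B).Nonempty

theorem IsSplit.symm {R A B : Set M} (h : IsSplit R A B) : IsSplit R B A :=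
  ⟨h.cellB, h.cellA, by rw [union_comm, h.union], h.disj.symm, by rw [inter_comm]; exact h.sub,
    by rw [inter_comm]; exact h.ne⟩

theorem IsSplit.isPart {R A B : Set M} (h : IsSplit R A B) {i j : ι} (hi : r i = A) (hj : r j = B)
    : IsPart R {i, j} r := by
  refine ⟨?_, by simp [hi, hj, h.union], ?_, ?_, ?_⟩
  · rintro k (rfl | rfl)
    · rw [hi]; exact h.cellA
    · rw [hj]; exact h.cellB
  · rintro k (rfl | rfl) l (rfl | rfl) hkl
    · exact absurd rfl hkl
    · rw [hi, hj]; exact h.disj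
    · rw [hi, hj]; exact h.disj.symm
    · exact absurd rfl hkl
  · rintro k (rfl | rfl) l (rfl | rfl) m (rfl | rfl) h1 h2 h3 <;>
      first | exact absurd rfl h1 | exact absurd rfl h2 | exact absurd rfl h3
  · rintro k (rfl | rfl) l (rfl | rfl) hkl
    · exact absurd rfl hkl
    · rw [hi, hj]; exact h.sub
    · rw [hi, hj, inter_comm]; exact h.sub
    · exact absurd rfl hkl

end Run7.h116
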