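import Pool.Agent.Run7.h116.T4

set_option autoImplicit false
set_option linter.unusedSectionVars false

/-!
# Partitions into small cells
-/

open Set Topology Filter

namespace Run7.h116

variable {M : Type*} [TopologicalSpace M]

/-- a tame compact neighbourhood of `K` in `O` whose frontier avoids any given compact totally
disconnected set exists -/
def TameIn (K O : Set M) : Prop := ∀ Z : Set M, IsCompact Z → IsTotallyDisconnected Z →
  ∃ G, Tame G ∧ IsCompact G ∧ K ⊆ interior G ∧ G ⊆ O ∧ Disjoint (frontier G) Z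

theorem tame_empty : Tame (∅ : Set M) :=
  ⟨isClosed_empty, by simp, by simpa using td_empty, by simp⟩

theorem tameIn_empty (O : Set M) : TameIn ∅ O := fun Z _ _ =>
  ⟨∅, tame_empty, isCompact_empty, empty_subset _, empty_subset _, by simp⟩

theorem arrangement [T2Space M] [LocallyConnectedSpace M] (K O : ℕ → Set M)
    (hO : ∀ n, TameIn (K n) (O n)) {R : Set M} (hR : Tame R) (hfr : IsCompact (frontier R))
    (hcov : R ⊆ ⋃ n, K n) :
    ∃ 𝒞 : ℕ → Set (Set M), (∀ n, (𝒞 n).Finite) ∧ (∀ n, ∀ c ∈ 𝒞 n, c ⊆ O n) ∧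
      IsPart R (⋃ n, 𝒞 n) id := by
  classical
  -- choose the sets `g n`
  have hstep : ∀ (n : ℕ) (Z : {Z : Set M // IsCompact Z ∧ IsTotallyDisconnected Z}),
      ∃ G, Tame G ∧ IsCompact G ∧ K n ⊆ interior G ∧ G ⊆ O n ∧ Disjoint (frontier G) Z.1 :=
    fun n Z => hO n Z.1 Z.2.1 Z.2.2
  choose G hGt hGc hGK hGO hGd using hstep
  have hnext : ∀ (n : ℕ) (Z : {Z : Set M // IsCompact Z ∧ IsTotallyDisconnected Z}),
      IsCompact (Z.1 ∪ frontier (G n Z)) ∧ IsTotallyDisconnected (Z.1 ∪ frontier (G n Z)) := by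
    intro n Z
    have h1 : IsCompact (frontier (G n Z)) :=
      (hGc n Z).of_isClosed_subset isClosed_frontier (hGt n Z).frontier_subset
    exact ⟨Z.2.1.union h1, td_union Z.2.1.isClosed isClosed_frontier (hGd n Z).symm Z.2.2
      (hGt n Z).td⟩
  set S : ℕ → {Z : Set M // IsCompact Z ∧ IsTotallyDisconnected Z} := fun n =>
    Nat.rec ⟨frontier R, hfr, hR.td⟩ (fun n Z => ⟨Z.1 ∪ frontier (G n Z), hnext n Z⟩) n with hS
  have hS0 : (S 0).1 = frontier R := rfl
  have hSs : ∀ n, (S (n + 1)).1 = (S n).1 ∪ frontier (G n (S n)) := fun n => rfl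
  set g : ℕ → Set M := fun n => G n (S n) with hg
  have hgt : ∀ n, Tame (g n) := fun n => hGt n _
  have hgc : ∀ n, IsCompact (g n) := fun n => hGc n _
  have hSmono : Monotone fun n => (S n).1 := by
    refine monotone_nat_of_le_succ fun n => ?_
    rw [hSs]
    exact subset_union_left
  have hgS : ∀ n, Disjoint (frontier (g n)) (S n).1 := fun n => hGd n _
  have hgS' : ∀ i j, i < j → frontier (g i) ⊆ (S j).1 := by
    intro i j hij
    have h1 : (S (i + 1)).1 ⊆ (S j).1 := hSmono (Nat.succ_le_of_lt hij)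
    refine Subset.trans ?_ h1
    rw [hSs]
    exact subset_union_right
  have hgd : ∀ i j, i < j → Disjoint (frontier (g i)) (frontier (g j)) := by
    intro i j hij
    exact ((hgS j).mono_right (hgS' i j hij)).symm
  have hgR : ∀ i, Disjoint (frontier (g i)) (frontier R) := by
    intro i
    refine (hgS i).mono_right ?_
    rw [← hS0]
    exact hSmono (Nat.zero_le i)
  -- the sets `A n`
  set A : ℕ → Set M := fun n => Nat.rec R (fun n A => A ∩ (interior (g n))ᶜ) n with hA
  have hA0 : A 0 = R := rfl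
  have hAs : ∀ n, A (n + 1) = A n ∩ (interior (g n))ᶜ := fun n => rfl
  have hAt : ∀ n, Tame (A n) ∧ frontier (A n) ⊆ (S n).1 := by
    intro n
    induction n with
    | zero => exact ⟨hR, subset_rfl⟩
    | succ n ih =>
      have h1 := (hgt n).star
      have h2 : Disjoint (frontier (A n)) (frontier (interior (g n))ᶜ) := by
        rw [h1.2]
        exact ((hgS n).mono_right ih.2).symm
      rw [hAs, hSs]
      refine ⟨ih.1.inter h1.1 h2, (frontier_inter_subset' _ _).trans ?_⟩
      rw [h1.2]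
      exact union_subset_union_left _ ih.2
  have hAR : ∀ n, A n ⊆ R := by
    intro n
    induction n with
    | zero => exact subset_rfl
    | succ n ih => rw [hAs]; exact inter_subset_left.trans ih
  have hAmem : ∀ n x, x ∈ R → (∀ j < n, x ∉ interior (g j)) → x ∈ A n := by
    intro n
    induction n with
    | zero => intro x hx _; exact hx
    | succ n ih =>
      intro x hx hj
      rw [hAs]
      exact ⟨ih x hx fun j hjn => hj j (hjn.trans n.lt_succ_self), hj n n.lt_succ_self⟩
  have hAnot : ∀ i j, i < j → A j ⊆ (interior (g i))ᶜ := by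
    intro i j hij
    induction j with
    | zero => omega
    | succ j ih =>
      rw [hAs]
      by_cases h : i = j
      · subst h; exact inter_subset_right
      · exact inter_subset_left.trans (ih (by omega))
  set r : ℕ → Set M := fun n => A n ∩ g n with hr
  have hrt : ∀ n, Tame (r n) := fun n =>
    (hAt n).1.inter (hgt n) ((hgS n).mono_right (hAt n).2).symm
  have hrc : ∀ n, IsCompact (r n) := fun n => (hgc n).inter_left (hAt n).1.closed
  have hrR : ∀ n, r n ⊆ R := fun n => inter_subset_left.trans (hAR n)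
  have hrr : ∀ i j, i < j → r i ∩ r j ⊆ frontier (g i) := by
    intro i j hij x hx
    rw [(hgt i).frontier_eq]
    exact ⟨hx.1.2, hAnot i j hij hx.2.1⟩
  have hrr' : ∀ i j, i ≠ j → r i ∩ r j ⊆ interior R := by
    have key : ∀ i j, i < j → r i ∩ r j ⊆ interior R := by
      intro i j hij x hx
      have h1 := hrr i j hij hx
      by_contra h2
      exact Set.disjoint_left.1 (hgR i) h1 (by rw [hR.frontier_eq]; exact ⟨hrR i hx.1, h2⟩)
    intro i j hij
    rcases lt_or_gt_of_ne hij with h | h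
    · exact key i j h
    · rw [inter_comm]; exact key j i h
  have hrint : ∀ i j, i ≠ j → Disjoint (interior (r i)) (interior (r j)) := by
    have key : ∀ i j, i < j → Disjoint (interior (r i)) (interior (r j)) := by
      intro i j hij
      rw [disjoint_iff_inter_eq_empty, ← interior_inter, ← subset_empty_iff,
        ← interior_frontier (hgt i).closed]
      exact interior_mono (hrr i j hij)
    intro i j hij
    rcases lt_or_gt_of_ne hij with h | h
    · exact key i j h
    · exact (key j i h).symm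
  have hrtri : ∀ i j k, i ≠ j → j ≠ k → i ≠ k → ∀ x, x ∈ r i → x ∈ r j → x ∈ r k → False := by
    have key : ∀ i j k, i < j → j < k → ∀ x, x ∈ r i → x ∈ r j → x ∈ r k → False := by
      intro i j k hij hjk x h1 h2 h3
      exact Set.disjoint_left.1 (hgd i j hij) (hrr i j hij ⟨h1, h2⟩) (hrr j k hjk ⟨h2, h3⟩)
    intro i j k hij hjk hik x h1 h2 h3
    rcases lt_or_gt_of_ne hij with h | h <;> rcases lt_or_gt_of_ne hjk with h' | h' <;>
      rcases lt_or_gt_of_ne hik with h'' | h''
    · exact key i j k h h' x h1 h2 h3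
    · omega
    · exact key i k j h'' h' x h1 h3 h2
    · exact key k i j h'' h x h3 h1 h2
    · exact key j i k h h'' x h2 h1 h3
    · exact key j k i h' h'' x h2 h3 h1
    · omega
    · exact key k j i h' h x h3 h2 h1
  have hrcov : ⋃ n, r n = R := by
    refine Subset.antisymm (iUnion_subset hrR) ?_
    intro x hx
    have hex : ∃ n, x ∈ interior (g n) := by
      obtain ⟨n, hn⟩ := mem_iUnion.1 (hcov hx)
      exact ⟨n, hGK n _ hn⟩
    have h1 := Nat.find_spec hex
    have h2 : ∀ j < Nat.find hex, x ∉ interior (g j) := fun j hj => Nat.find_min hex hj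
    exact mem_iUnion.2 ⟨Nat.find hex, hAmem _ x hx h2, interior_subset h1⟩
  choose 𝒞 hfin hcell hun hdis hfrc using fun n => (hrt n).exists_components (hrc n)
  have hsub : ∀ n, ∀ c ∈ 𝒞 n, c ⊆ r n := by
    intro n c hc
    rw [← hun n]
    exact subset_sUnion_of_mem hc
  refine ⟨𝒞, hfin, fun n c hc => (hsub n c hc).trans (inter_subset_right.trans (hGO n _)), ?_⟩
  refine ⟨?_, ?_, ?_, ?_, ?_⟩
  · intro c hc
    obtain ⟨n, hn⟩ := mem_iUnion.1 hc
    exact hcell n c hn
  · rw [← hrcov]
    ext x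
    simp only [mem_iUnion, id]
    constructor
    · rintro ⟨c, ⟨n, hn⟩, hx⟩
      exact ⟨n, hsub n c hn hx⟩
    · rintro ⟨n, hx⟩
      rw [← hun n] at hx
      obtain ⟨c, hc, hxc⟩ := hx
      exact ⟨c, ⟨n, hc⟩, hxc⟩
  · intro c hc d hd hcd
    obtain ⟨n, hn⟩ := mem_iUnion.1 hc
    obtain ⟨m, hm⟩ := mem_iUnion.1 hd
    by_cases hnm : n = m
    · subst hnm
      exact (hdis n c hn d hm hcd).mono interior_subset interior_subset
    · exact (hrint n m hnm).mono (interior_mono (hsub n c hn)) (interior_mono (hsub m d hm))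
  · intro c hc d hd e he hcd hde hce
    obtain ⟨n, hn⟩ := mem_iUnion.1 hc
    obtain ⟨m, hm⟩ := mem_iUnion.1 hd
    obtain ⟨l, hl⟩ := mem_iUnion.1 he
    rw [← subset_empty_iff]
    rintro x ⟨⟨h1, h2⟩, h3⟩
    by_cases hnm : n = m
    · subst hnm
      exact Set.disjoint_left.1 (hdis n c hn d hm hcd) h1 h2
    by_cases hml : m = l
    · subst hml
      exact Set.disjoint_left.1 (hdis m d hm e hl hde) h2 h3
    by_cases hnl : n = l
    · subst hnl
      exact Set.disjoint_left.1 (hdis n c hn e hl hce) h1 h3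
    exact hrtri n m l hnm hml hnl x (hsub n c hn h1) (hsub m d hm h2) (hsub l e hl h3)
  · intro c hc d hd hcd
    obtain ⟨n, hn⟩ := mem_iUnion.1 hc
    obtain ⟨m, hm⟩ := mem_iUnion.1 hd
    by_cases hnm : n = m
    · subst hnm
      simp only [id, disjoint_iff_inter_eq_empty.1 (hdis n c hn d hm hcd)]
      exact empty_subset _
    · exact (inter_subset_inter (hsub n c hn) (hsub m d hm)).trans (hrr' n m hnm)

/-- the arrangement lemma for a family indexed by a countable type -/
theorem arrangement' [T2Space M] [LocallyConnectedSpace M] {α : Type*} [Countable α]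
    (K O : α → Set M)
    (hO : ∀ a, TameIn (K a) (O a)) {R : Set M} (hR : Tame R) (hfr : IsCompact (frontier R))
    (hcov : R ⊆ ⋃ a, K a) :
    ∃ 𝒞 : α → Set (Set M), (∀ a, (𝒞 a).Finite) ∧ (∀ a, ∀ c ∈ 𝒞 a, c ⊆ O a) ∧
      IsPart R (⋃ a, 𝒞 a) id := by
  classical
  obtain ⟨f, hf⟩ := Countable.exists_injective_nat α
  obtain ⟨𝒞, h1, h2, h3⟩ := arrangement (Function.extend f K (fun _ => ∅))
    (Function.extend f O (fun _ => ∅)) (by
      intro n
      by_cases hn : ∃ a, f a = n
      · obtain ⟨a, rfl⟩ := hn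
        rw [hf.extend_apply, hf.extend_apply]
        exact hO a
      · rw [Function.extend_apply' _ _ _ hn]
        exact tameIn_empty _) hR hfr (by
      refine hcov.trans (iUnion_subset fun a => ?_)
      refine Subset.trans ?_ (subset_iUnion _ (f a))
      rw [hf.extend_apply])
  have hempty : ∀ n, (¬ ∃ a, f a = n) → 𝒞 n = ∅ := by
    intro n hn
    by_contra hne
    obtain ⟨c, hc⟩ := nonempty_iff_ne_empty.2 hne
    have h4 := h2 n c hc
    rw [Function.extend_apply' _ _ _ hn, subset_empty_iff] at h4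
    have h5 := (h3.cell c (mem_iUnion.2 ⟨n, hc⟩)).nonempty
    rw [id, h4] at h5
    exact not_nonempty_empty h5
  refine ⟨fun a => 𝒞 (f a), fun a => h1 _, ?_, ?_⟩
  · intro a c hc
    have := h2 (f a) c hc
    rwa [hf.extend_apply] at this
  · convert h3 using 1
    ext c
    simp only [mem_iUnion]
    constructor
    · rintro ⟨a, ha⟩; exact ⟨f a, ha⟩
    · rintro ⟨n, hn⟩
      by_cases h : ∃ a, f a = n
      · obtain ⟨a, rfl⟩ := h; exact ⟨a, hn⟩
      · rw [hempty n h] at hn; exact absurd hn (notMem_empty _)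

/-- compact version: a finite partition subordinate to a cover -/
theorem exists_fine_compact [T2Space M] [LocallyCompactSpace M] [LocallyConnectedSpace M]
    (hM : ∀ K O : Set M, IsCompact K → IsOpen O → K ⊆ O → TameIn K O)
    {R : Set M} (hR : Tame R) (hRc : IsCompact R) (U : M → Set M) (hU : ∀ x ∈ R, U x ∈ 𝓝 x) :
    ∃ 𝒯 : Set (Set M), 𝒯.Finite ∧ IsPart R 𝒯 id ∧ ∀ t ∈ 𝒯, ∃ x ∈ R, t ⊆ U x := by
  classical
  have h1 : ∀ x, ∃ K, x ∈ R → (IsCompact K ∧ K ∈ 𝓝 x ∧ K ⊆ interior (U x)) := by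
    intro x
    by_cases hx : x ∈ R
    · obtain ⟨K, hK1, hK2, hK3⟩ := local_compact_nhds (interior_mem_nhds.2 (hU x hx))
      exact ⟨K, fun _ => ⟨hK3, hK1, hK2⟩⟩
    · exact ⟨∅, fun h => absurd h hx⟩
  choose K hK using h1
  obtain ⟨t, htR, ht⟩ := hRc.elim_nhds_subcover K fun x hx => (hK x hx).2.1
  obtain ⟨𝒞, h2, h3, h4⟩ := arrangement' (α := t) (fun a => K a.1) (fun a => interior (U a.1))
    (fun a => hM _ _ (hK a.1 (htR a.1 a.2)).1 isOpen_interior (hK a.1 (htR a.1 a.2)).2.2) hR
    (hRc.of_isClosed_subset isClosed_frontier hR.frontier_subset) (by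
      intro x hx
      obtain ⟨y, hy, hxy⟩ := mem_iUnion₂.1 (ht hx)
      exact mem_iUnion.2 ⟨⟨y, hy⟩, hxy⟩)
  refine ⟨_, finite_iUnion h2, h4, ?_⟩
  intro c hc
  obtain ⟨a, ha⟩ := mem_iUnion.1 hc
  exact ⟨a.1, htR a.1 a.2, (h3 a c ha).trans interior_subset⟩

/-- noncompact version: a locally finite partition of the space subordinate to a cover -/
theorem exists_fine_space [T2Space M] [LocallyCompactSpace M] [SigmaCompactSpace M]
    [LocallyConnectedSpace M] (U : M → Set M) (hU : ∀ x, U x ∈ 𝓝 x)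
    (hM : ∀ (x : M) (K O : Set M), IsCompact K → IsOpen O → K ⊆ O → O ⊆ U x → TameIn K O) :
    ∃ 𝒯 : Set (Set M), IsPart (univ : Set M) 𝒯 id ∧ (∀ t ∈ 𝒯, ∃ x, t ⊆ U x) ∧
      LocallyFinite (fun t : 𝒯 => (t : Set M)) := by
  classical
  have hB : ∀ x : M, (𝓝 x).HasBasis (fun V : Set M => IsOpen V ∧ x ∈ V ∧ V ⊆ U x ∧
      IsCompact (closure V)) (fun V => V) := by
    intro x
    refine ⟨fun t => ⟨fun ht => ?_, ?_⟩⟩
    · obtain ⟨K, hK1, hK2, hK3⟩ := local_compact_nhds (inter_mem ht (hU x))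
      refine ⟨interior K, ⟨isOpen_interior, mem_interior_iff_mem_nhds.2 hK1,
        interior_subset.trans (hK2.trans inter_subset_right), ?_⟩,
        interior_subset.trans (hK2.trans inter_subset_left)⟩
      exact hK3.of_isClosed_subset isClosed_closure
        (closure_minimal interior_subset hK3.isClosed)
    · rintro ⟨V, ⟨hV1, hV2, _, _⟩, hV3⟩
      exact mem_of_superset (hV1.mem_nhds hV2) hV3
  obtain ⟨α, c, u, hu, hcov, hlf⟩ := refinement_of_locallyCompact_sigmaCompact_of_nhds_basis hB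
  have hcount : Countable α := by
    have := hlf.countable_univ fun a => ⟨c a, (hu a).2.1⟩
    exact countable_univ_iff.1 this
  obtain ⟨v, hv1, hv2, hv3⟩ := exists_iUnion_eq_closure_subset (fun a => (hu a).1)
    (fun x => hlf.point_finite x) hcov
  obtain ⟨𝒞, h2, h3, h4⟩ := arrangement' (fun a => closure (v a)) u (by
    intro a
    refine hM (c a) _ _ ?_ (hu a).1 (hv3 a) (hu a).2.2.1
    exact (hu a).2.2.2.of_isClosed_subset isClosed_closure
      ((hv3 a).trans subset_closure)) tame_univ (by simp) (by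
    intro x _
    have : x ∈ iUnion v := by rw [hv1]; trivial
    obtain ⟨a, ha⟩ := mem_iUnion.1 this
    exact mem_iUnion.2 ⟨a, subset_closure ha⟩)
  refine ⟨_, h4, ?_, ?_⟩
  · intro t ht
    obtain ⟨a, ha⟩ := mem_iUnion.1 ht
    exact ⟨c a, (h3 a t ha).trans (hu a).2.2.1⟩
  · intro x
    obtain ⟨W, hW, hWf⟩ := hlf x
    refine ⟨W, hW, ?_⟩
    have h5 : (⋃ a ∈ {a | (u a ∩ W).Nonempty}, 𝒞 a).Finite := hWf.biUnion fun a _ => h2 a
    refine Set.Finite.of_finite_image (f := Subtype.val) (h5.subset ?_)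
      Subtype.val_injective.injOn
    rintro _ ⟨⟨t, ht⟩, ⟨y, hy1, hy2⟩, rfl⟩
    obtain ⟨a, ha⟩ := mem_iUnion.1 ht
    exact mem_iUnion₂.2 ⟨a, ⟨y, h3 a t ha hy1, hy2⟩, ha⟩

end Run7.h116
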