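import Pool.Agent.Run7.h116.T2

set_option autoImplicit false
set_option linter.unusedSectionVars false

/-!
# Matched families of cells
-/

open Set Topology Filter

namespace Run7.h116

section graph

variable {M : Type*} [TopologicalSpace M] {ι : Type*}

theorem AdjConn.insert {T : Set ι} {r : ι → Set M} (h : AdjConn T r) {i j : ι} (hi : i ∈ T)
    (hij : (r i ∩ r j).Nonempty) : AdjConn (Insert.insert j T) r := by
  by_cases hjT : j ∈ T
  · rwa [insert_eq_of_mem hjT]
  refine ⟨insert_nonempty _ _, fun T' hT' hne hne' => ?_⟩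
  by_cases h1 : (T' ∩ T).Nonempty
  · by_cases h2 : T' ∩ T = T
    · have hTT' : T ⊆ T' := by rw [← h2]; exact inter_subset_left
      have hj : j ∉ T' := fun hj => hne' (Subset.antisymm hT' (insert_subset hj hTT'))
      exact ⟨i, hTT' hi, j, ⟨mem_insert _ _, hj⟩, hij⟩
    · obtain ⟨x, hx, y, hy, hxy⟩ := h.2 (T' ∩ T) inter_subset_right h1 h2
      exact ⟨x, hx.1, y, ⟨mem_insert_of_mem _ hy.1, fun hyT => hy.2 ⟨hyT, hy.1⟩⟩, hxy⟩
  · have hall : ∀ x ∈ T', x = j := fun x hx => (hT' hx).resolve_right fun hxT => h1 ⟨x, hx, hxT⟩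
    obtain ⟨x, hx⟩ := hne
    have hxj := hall x hx
    subst hxj
    refine ⟨x, hx, i, ⟨mem_insert_of_mem _ hi, fun hiT => ?_⟩, by rwa [inter_comm]⟩
    exact hjT (hall i hiT ▸ hi)

theorem adjConn_singleton (i : ι) (r : ι → Set M) : AdjConn {i} r := by
  refine ⟨singleton_nonempty _, ?_⟩
  intro T hT hne hne'
  exact absurd ((subset_singleton_iff_eq.1 hT).resolve_left hne.ne_empty) hne'

theorem AdjConn.exists_remove {F : Set ι} {r : ι → Set M} (h : AdjConn F r) (hF : F.Finite)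
    (hnt : F.Nontrivial) : ∃ j ∈ F, AdjConn (F \ {j}) r := by
  set 𝒯 : Set (Set ι) := {T | T ⊆ F ∧ T ≠ F ∧ AdjConn T r} with h𝒯
  have hfin : 𝒯.Finite := (hF.finite_subsets).subset fun T hT => hT.1
  obtain ⟨i, hi⟩ := h.1
  have hne : 𝒯.Nonempty := by
    refine ⟨{i}, singleton_subset_iff.2 hi, ?_, adjConn_singleton i r⟩
    intro hF'
    rw [← hF'] at hnt
    exact not_nontrivial_singleton hnt
  obtain ⟨T, hT⟩ := hfin.exists_maximal hne
  obtain ⟨a, ha, b, hb, hab⟩ := h.2 T hT.prop.1 hT.prop.2.2.1 hT.prop.2.1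
  have h1 : Insert.insert b T = F := by
    by_contra hcon
    have := hT.le_of_ge (y := Insert.insert b T) ⟨insert_subset hb.1 hT.prop.1, hcon,
      hT.prop.2.2.insert ha hab⟩ (subset_insert _ _)
    exact hb.2 (this (mem_insert _ _))
  refine ⟨b, hb.1, ?_⟩
  have h2 : F \ {b} = T := by
    rw [← h1]
    ext x
    simp only [Set.mem_sdiff, mem_insert_iff, mem_singleton_iff]
    constructor
    · rintro ⟨h | h, h'⟩
      · exact absurd h h'
      · exact h
    · intro hx
      exact ⟨Or.inr hx, by rintro rfl; exact hb.2 hx⟩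
  rw [h2]
  exact hT.prop.2.2

/-- remove one piece from a partition -/
theorem IsPart.peel {R : Set M} {F : Set ι} {r : ι → Set M} (h : IsPart R F r) (hF : F.Finite)
    (hnt : F.Nontrivial) (hR : IsConnected R) :
    ∃ j ∈ F, IsSplit R (r j) (⋃ i ∈ F \ {j}, r i) ∧
      IsPart (⋃ i ∈ F \ {j}, r i) (F \ {j}) r := by
  have hadj := h.adjConn hF hR
  obtain ⟨j, hj, hc⟩ := hadj.exists_remove hF hnt
  refine ⟨j, hj, ⟨h.cell j hj, h.union_cell hF sdiff_subset hc, ?_, ?_, ?_, ?_⟩, ?_⟩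
  · rw [← h.union]
    ext x
    simp only [mem_union, mem_iUnion, Set.mem_sdiff, mem_singleton_iff]
    constructor
    · rintro (hx | ⟨i, hi, hx⟩)
      · exact ⟨j, hj, hx⟩
      · exact ⟨i, hi.1, hx⟩
    · rintro ⟨i, hi, hx⟩
      by_cases hij : i = j
      · exact Or.inl (hij ▸ hx)
      · exact Or.inr ⟨i, ⟨hi, hij⟩, hx⟩
  · rw [Set.disjoint_left]
    intro x hx hx2
    obtain ⟨i, hi, hxi⟩ := mem_iUnion₂.1 (interior_subset hx2)
    exact (h.inter_frontier hj hi.1 (Ne.symm hi.2) ⟨interior_subset hx, hxi⟩).2 hx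
  · rintro x ⟨h1, h2⟩
    obtain ⟨i, hi, hxi⟩ := mem_iUnion₂.1 h2
    exact h.bdry j hj i hi.1 (Ne.symm hi.2) ⟨h1, hxi⟩
  · obtain ⟨a, ha, b, hb, x, hxa, hxb⟩ := hadj.2 {j} (singleton_subset_iff.2 hj)
      (singleton_nonempty _) (by
        intro hcon
        rw [← hcon] at hnt
        exact not_nontrivial_singleton hnt)
    obtain rfl : a = j := ha
    exact ⟨x, hxa, mem_iUnion₂.2 ⟨b, hb, hxb⟩⟩
  · refine ⟨fun i hi => h.cell i hi.1, rfl, fun i hi k hk => h.disj i hi.1 k hk.1,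
      fun i hi k hk l hl => h.triple i hi.1 k hk.1 l hl.1, ?_⟩
    intro i hi k hk hik x hx
    refine interior_mono (union_subset ?_ ?_)
      (h.mem_interior_union (h.clU hF) hi.1 hk.1 hik hx)
    · exact subset_biUnion_of_mem (u := fun i => r i) hi
    · exact subset_biUnion_of_mem (u := fun i => r i) hk

theorem IsPart.replace {R : Set M} {F : Set ι} {r : ι → Set M} (h : IsPart R F r) {a a1 a2 : ι}
    (ha : a ∈ F) (hs : IsSplit (r a) (r a1) (r a2)) :
    IsPart R ((F \ {a}) ∪ {a1, a2}) r := by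
  classical
  have h1 := h.subst (κ := ι) (fun b => if b = a then {a1, a2} else {b}) r (by
    intro i hi
    by_cases hia : i = a
    · subst hia
      simp only [if_true]
      exact hs.isPart rfl rfl
    · simp only [hia, if_false]
      exact IsPart.single i rfl (h.cell i hi))
  convert h1 using 1
  ext x
  simp only [mem_union, Set.mem_sdiff, mem_singleton_iff, mem_iUnion, mem_insert_iff]
  constructor
  · rintro (⟨h1, h2⟩ | h1)
    · exact ⟨x, h1, by simp [h2]⟩
    · exact ⟨a, ha, by simpa using h1⟩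
  · rintro ⟨i, hi, hx⟩
    by_cases hia : i = a
    · subst hia
      right
      simpa using hx
    · simp only [hia, if_false, mem_singleton_iff] at hx
      subst hx
      exact Or.inl ⟨hi, hia⟩

/-- interfaces have no isolated points -/
theorem IsPart.inter_acc {R : Set M} {F : Set ι} {r : ι → Set M} (h : IsPart R F r)
    (hF : ClU F r) {i j : ι} (hi : i ∈ F) (hj : j ∈ F) (hij : i ≠ j) {x : M}
    (hx : x ∈ r i ∩ r j) : AccPt x (𝓟 (r i ∩ r j)) := by
  have h1 := ((h.cell i hi).tameAt x (h.inter_frontier hi hj hij hx)).acc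
  refine accPt_germ h1 ⟨interior (r i ∪ r j), isOpen_interior,
    h.mem_interior_union hF hi hj hij hx, ?_⟩
  ext y
  simp only [mem_inter_iff]
  constructor
  · rintro ⟨h2, h3⟩
    refine ⟨⟨(h.cell i hi).closed.frontier_subset h2, ?_⟩, h3⟩
    by_contra hyj
    apply h2.2
    refine mem_interior.2 ⟨interior (r i ∪ r j) \ r j, ?_,
      isOpen_interior.sdiff (h.cell j hj).closed, h3, hyj⟩
    rintro z ⟨hz, hzj⟩
    exact (interior_subset hz).resolve_right hzj
  · rintro ⟨h2, h3⟩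
    exact ⟨h.inter_frontier hi hj hij h2, h3⟩

theorem IsPart.inter_nontrivial {R : Set M} {F : Set ι} {r : ι → Set M}
    (h : IsPart R F r) (hF : ClU F r) {i j : ι} (hi : i ∈ F) (hj : j ∈ F) (hij : i ≠ j)
    (hx : (r i ∩ r j).Nonempty) : (r i ∩ r j).Nontrivial := by
  obtain ⟨x, hx⟩ := hx
  have := h.inter_acc hF hi hj hij hx
  rw [accPt_iff_nhds] at this
  obtain ⟨y, hy, hne⟩ := this univ univ_mem
  exact ⟨x, hx, y, hy.2, Ne.symm hne⟩

end graph

section halves

variable {M : Type*} [TopologicalSpace M] [T2Space M]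

theorem exists_two_halves {T : Set M} (hT : IsCompact T) (htd : IsTotallyDisconnected T)
    (hnt : T.Nontrivial) : ∃ C1 C2 : Set M, IsClosed C1 ∧ IsClosed C2 ∧ Disjoint C1 C2 ∧
      C1 ∪ C2 = T ∧ C1.Nonempty ∧ C2.Nonempty := by
  obtain ⟨x, hx, y, hy, hxy⟩ := hnt
  have : CompactSpace T := isCompact_iff_compactSpace.1 hT
  have : TotallyDisconnectedSpace T := totallyDisconnectedSpace_subtype_iff.2 htd
  obtain ⟨V, hV, hxV, hVy⟩ := compact_exists_isClopen_in_isOpen (x := (⟨x, hx⟩ : T))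
    (U := {(⟨y, hy⟩ : T)}ᶜ) isOpen_compl_singleton (by
      intro h
      exact hxy (congrArg Subtype.val h))
  refine ⟨Subtype.val '' V, Subtype.val '' Vᶜ, ?_, ?_, ?_, ?_, ⟨x, ⟨x, hx⟩, hxV, rfl⟩,
    ⟨y, ⟨y, hy⟩, fun h => hVy h rfl, rfl⟩⟩
  · exact hT.isClosed.isClosedMap_subtype_val _ hV.isClosed
  · exact hT.isClosed.isClosedMap_subtype_val _ hV.compl.isClosed
  · rw [disjoint_image_iff Subtype.val_injective]
    exact disjoint_compl_right
  · rw [← image_union, union_compl_self, image_univ, Subtype.range_coe]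

theorem exists_halves {T : Set M} (hT : IsCompact T) (htd : IsTotallyDisconnected T)
    {p q : Prop} (hpq : T.Nonempty ↔ p ∨ q) (hnt : p → q → T.Nontrivial) :
    ∃ C1 C2 : Set M, IsClosed C1 ∧ IsClosed C2 ∧ Disjoint C1 C2 ∧
      C1 ∪ C2 = T ∧ (C1.Nonempty ↔ p) ∧ (C2.Nonempty ↔ q) := by
  by_cases hp : p
  · by_cases hq : q
    · obtain ⟨C1, C2, h1, h2, h3, h4, h5, h6⟩ := exists_two_halves hT htd (hnt hp hq)
      exact ⟨C1, C2, h1, h2, h3, h4, by simp [h5, hp], by simp [h6, hq]⟩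
    · refine ⟨T, ∅, hT.isClosed, isClosed_empty, disjoint_empty _, union_empty _, ?_, ?_⟩
      · rw [hpq]; simp [hq]
      · simp [hq]
  · refine ⟨∅, T, isClosed_empty, hT.isClosed, empty_disjoint _, empty_union _, ?_, ?_⟩
    · simp [hp]
    · rw [hpq]; simp [hp]

end halves

end Run7.h116
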