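import Pool.Agent.Run7.h116.T4

set_option autoImplicit false
set_option linter.unusedSectionVars false

/-!
# Matched families of cells: the uniqueness theorem
-/

open Set Topology Filter

namespace Run7.h116

variable {X : Type*} [TopologicalSpace X]

/-- every cell can be split along any decomposition of its frontier -/
def HasSplit (X : Type*) [TopologicalSpace X] : Prop :=
  ∀ R B1 B2 : Set X, Cell R → IsClosed B1 → IsClosed B2 → Disjoint B1 B2 →
    B1 ∪ B2 = frontier R → ∃ R1 R2, IsSplit R R1 R2 ∧ R1 ∩ frontier R = B1 ∧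
      R2 ∩ frontier R = B2

/-- `f` and `g` are inverse homeomorphisms between `A` and `B` -/
structure HomeoOn {X Y : Type*} [TopologicalSpace X] [TopologicalSpace Y] (A : Set X) (B : Set Y)
    (f : X → Y) (g : Y → X) : Prop where
  fm : MapsTo f A B
  gm : MapsTo g B A
  left : ∀ x ∈ A, g (f x) = x
  right : ∀ y ∈ B, f (g y) = y
  cf : ContinuousOn f A
  cg : ContinuousOn g B

theorem HomeoOn.symm {X Y : Type*} [TopologicalSpace X] [TopologicalSpace Y] {A : Set X}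
    {B : Set Y} {f : X → Y} {g : Y → X} (h : HomeoOn A B f g) : HomeoOn B A g f :=
  ⟨h.gm, h.fm, h.right, h.left, h.cg, h.cf⟩

/-- `f` and `g` are inverse homeomorphisms between the frontiers of `P` and `Q` -/
abbrev BdHomeo (P Q : Set X) (f g : X → X) : Prop := HomeoOn (frontier P) (frontier Q) f g

/-- a matched family of cells in `P` and `Q` -/
structure Matched (P Q : Set X) (f : X → X) (F : Set (Set X × Set X)) : Prop where
  fin : F.Finite
  part1 : IsPart P F Prod.fst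
  part2 : IsPart Q F Prod.snd
  adj : ∀ a ∈ F, ∀ b ∈ F, a ≠ b → ((a.1 ∩ b.1).Nonempty ↔ (a.2 ∩ b.2).Nonempty)
  bd : ∀ a ∈ F, ∀ x ∈ frontier P, (x ∈ a.1 ↔ f x ∈ a.2)

theorem Matched.step [T2Space X] (hs : HasSplit X) {P Q : Set X} {f g : X → X}
    {F : Set (Set X × Set X)}
    (hm : Matched P Q f F) (hfg : BdHomeo P Q f g) (hPc : IsCompact P)
    {a : Set X × Set X} (ha : a ∈ F) {R1 R2 : Set X}
    (hR : IsSplit a.1 R1 R2) : ∃ S1 S2, IsSplit a.2 S1 S2 ∧
      Matched P Q f ((F \ {a}) ∪ {(R1, S1), (R2, S2)}) := by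
  classical
  have hcl1 := hm.part1.clU hm.fin
  have hcl2 := hm.part2.clU hm.fin
  have hP1 := hm.part1
  have hQ1 := hm.part2
  have hPcl : IsClosed P := hPc.isClosed
  have hQcl : IsClosed Q := by
    have h1 := hcl2 F subset_rfl
    rwa [hQ1.union] at h1
  -- halves of the interfaces on the second side
  have hC : ∀ b : Set X × Set X, ∃ C1 C2 : Set X, b ∈ F → b ≠ a → (IsClosed C1 ∧ IsClosed C2 ∧
      Disjoint C1 C2 ∧ C1 ∪ C2 = a.2 ∩ b.2 ∧ (C1.Nonempty ↔ (R1 ∩ b.1).Nonempty) ∧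
      (C2.Nonempty ↔ (R2 ∩ b.1).Nonempty)) := by
    intro b
    by_cases hb : b ∈ F ∧ b ≠ a
    · obtain ⟨hb, hba⟩ := hb
      have hT : IsCompact (a.2 ∩ b.2) := (hQ1.cell a ha).compact.inter (hQ1.cell b hb).compact
      have htd : IsTotallyDisconnected (a.2 ∩ b.2) :=
        td_subset (hQ1.cell a ha).td (hQ1.inter_frontier ha hb (Ne.symm hba))
      obtain ⟨C1, C2, h⟩ := exists_halves hT htd (p := (R1 ∩ b.1).Nonempty)
        (q := (R2 ∩ b.1).Nonempty) (by
          rw [← hm.adj a ha b hb (Ne.symm hba), ← hR.union, union_inter_distrib_right,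
            union_nonempty]) (by
          intro hp _
          refine hQ1.inter_nontrivial hcl2 ha hb (Ne.symm hba) ?_
          refine (hm.adj a ha b hb (Ne.symm hba)).1 (hp.mono ?_)
          rw [← hR.union]
          exact inter_subset_inter_left _ subset_union_left)
      exact ⟨C1, C2, fun _ _ => h⟩
    · exact ⟨∅, ∅, fun h1 h2 => absurd ⟨h1, h2⟩ hb⟩
  choose C1 C2 hC using hC
  have hRP : a.1 ⊆ P := hP1.sub ha
  have hR1 : R1 ⊆ a.1 := by rw [← hR.union]; exact subset_union_left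
  have hR2 : R2 ⊆ a.1 := by rw [← hR.union]; exact subset_union_right
  -- generic facts on one half
  have hfin : (F \ {a}).Finite := hm.fin.subset sdiff_subset
  have hintP : ∀ x, x ∈ R1 → x ∈ R2 → x ∈ frontier P → False := by
    intro x h1 h2 h3
    exact h3.2 (interior_mono hRP (hR.sub ⟨h1, h2⟩))
  have hfR : ∀ R' : Set X, IsClosed R' → IsClosed (f '' (R' ∩ frontier P)) := by
    intro R' hR'
    have h1 : IsCompact (R' ∩ frontier P) :=
      (hPc.of_isClosed_subset isClosed_frontier hPcl.frontier_subset).inter_left hR'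
    exact (h1.image_of_continuousOn (hfg.cf.mono inter_subset_right)).isClosed
  have hfQ : ∀ R' : Set X, R' ⊆ a.1 → f '' (R' ∩ frontier P) ⊆ a.2 ∩ frontier Q := by
    rintro R' hR' _ ⟨x, ⟨h1, h2⟩, rfl⟩
    exact ⟨(hm.bd a ha x h2).1 (hR' h1), hfg.fm h2⟩
  set B : (Set X × Set X → Set X) → Set X → Set X := fun C R' =>
    (⋃ b ∈ F \ {a}, C b) ∪ f '' (R' ∩ frontier P) with hB
  have hBcl : ∀ (C : Set X × Set X → Set X) (R' : Set X), (∀ b ∈ F \ {a}, IsClosed (C b)) →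
      IsClosed R' → IsClosed (B C R') := by
    intro C R' h1 h2
    exact (hfin.isClosed_biUnion h1).union (hfR R' h2)
  have hCsub1 : ∀ b ∈ F \ {a}, C1 b ⊆ a.2 ∩ b.2 := fun b hb => by
    rw [← (hC b hb.1 hb.2).2.2.2.1]; exact subset_union_left
  have hCsub2 : ∀ b ∈ F \ {a}, C2 b ⊆ a.2 ∩ b.2 := fun b hb => by
    rw [← (hC b hb.1 hb.2).2.2.2.1]; exact subset_union_right
  have htri : ∀ b ∈ F \ {a}, ∀ c ∈ F \ {a}, ∀ x, x ∈ a.2 ∩ b.2 → x ∈ a.2 ∩ c.2 → b = c := by
    intro b hb c hc x h1 h2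
    by_contra hbc
    have := hQ1.triple a ha b hb.1 c hc.1 (Ne.symm hb.2) hbc (Ne.symm hc.2)
    exact (this ▸ (⟨⟨h1.1, h1.2⟩, h2.2⟩ : x ∈ a.2 ∩ b.2 ∩ c.2) : x ∈ (∅ : Set X))
  have hbdy : ∀ b ∈ F \ {a}, ∀ x, x ∈ a.2 ∩ b.2 → x ∈ frontier Q → False := by
    intro b hb x h1 h2
    exact h2.2 (hQ1.bdry a ha b hb.1 (Ne.symm hb.2) h1)
  have hBdisj : Disjoint (B C1 R1) (B C2 R2) := by
    rw [Set.disjoint_left]
    rintro x (hx | hx) (hy | hy)
    · obtain ⟨b, hb, hxb⟩ := mem_iUnion₂.1 hx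
      obtain ⟨c, hc, hxc⟩ := mem_iUnion₂.1 hy
      obtain rfl := htri b hb c hc x (hCsub1 b hb hxb) (hCsub2 c hc hxc)
      exact Set.disjoint_left.1 (hC b hb.1 hb.2).2.2.1 hxb hxc
    · obtain ⟨b, hb, hxb⟩ := mem_iUnion₂.1 hx
      exact hbdy b hb x (hCsub1 b hb hxb) (hfQ R2 hR2 hy).2
    · obtain ⟨c, hc, hxc⟩ := mem_iUnion₂.1 hy
      exact hbdy c hc x (hCsub2 c hc hxc) (hfQ R1 hR1 hx).2
    · obtain ⟨u, ⟨hu1, hu2⟩, rfl⟩ := hx
      obtain ⟨v, ⟨hv1, hv2⟩, hvu⟩ := hy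
      have huv : u = v := by rw [← hfg.left u hu2, ← hfg.left v hv2, hvu]
      subst huv
      exact hintP u hu1 hv1 hu2
  have hBun : B C1 R1 ∪ B C2 R2 = frontier a.2 := by
    rw [hQ1.frontier_eq hcl2 ha]
    ext x
    constructor
    · rintro ((hx | hx) | (hx | hx))
      · obtain ⟨b, hb, hxb⟩ := mem_iUnion₂.1 hx
        exact Or.inl (mem_iUnion₂.2 ⟨b, ⟨hb.1, hb.2⟩, hCsub1 b hb hxb⟩)
      · exact Or.inr (hfQ R1 hR1 hx)
      · obtain ⟨b, hb, hxb⟩ := mem_iUnion₂.1 hx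
        exact Or.inl (mem_iUnion₂.2 ⟨b, ⟨hb.1, hb.2⟩, hCsub2 b hb hxb⟩)
      · exact Or.inr (hfQ R2 hR2 hx)
    · rintro (hx | hx)
      · obtain ⟨b, hb, hxb⟩ := mem_iUnion₂.1 hx
        have hb' : b ∈ F \ {a} := ⟨hb.1, hb.2⟩
        rw [← (hC b hb.1 hb.2).2.2.2.1] at hxb
        rcases hxb with h | h
        · exact Or.inl (Or.inl (mem_iUnion₂.2 ⟨b, hb', h⟩))
        · exact Or.inr (Or.inl (mem_iUnion₂.2 ⟨b, hb', h⟩))
      · have h1 : g x ∈ frontier P := hfg.gm hx.2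
        have h2 : g x ∈ a.1 := by
          rw [hm.bd a ha _ h1, hfg.right x hx.2]; exact hx.1
        rw [← hR.union] at h2
        rcases h2 with h2 | h2
        · exact Or.inl (Or.inr ⟨g x, ⟨h2, h1⟩, hfg.right x hx.2⟩)
        · exact Or.inr (Or.inr ⟨g x, ⟨h2, h1⟩, hfg.right x hx.2⟩)
  obtain ⟨S1, S2, hS, hS1, hS2⟩ := hs a.2 (B C1 R1) (B C2 R2) (hQ1.cell a ha)
    (hBcl C1 R1 (fun b hb => (hC b hb.1 hb.2).1) hR.cellA.closed)
    (hBcl C2 R2 (fun b hb => (hC b hb.1 hb.2).2.1) hR.cellB.closed) hBdisj hBun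
  refine ⟨S1, S2, hS, ?_⟩
  -- the interface of `S1` with an old cell
  have hside : ∀ (C : Set X × Set X → Set X) (R' S' : Set X), R' ⊆ a.1 → S' ⊆ a.2 →
      (∀ b ∈ F \ {a}, C b ⊆ a.2 ∩ b.2) → S' ∩ frontier a.2 = B C R' →
      ∀ b ∈ F \ {a}, S' ∩ b.2 = C b := by
    intro C R' S' hR' hS' hCs hSB b hb
    ext x
    constructor
    · rintro ⟨h1, h2⟩
      have h3 : x ∈ B C R' := by
        rw [← hSB]
        exact ⟨h1, hQ1.inter_frontier ha hb.1 (Ne.symm hb.2) ⟨hS' h1, h2⟩⟩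
      rcases h3 with h3 | h3
      · obtain ⟨c, hc, hxc⟩ := mem_iUnion₂.1 h3
        obtain rfl := htri b hb c hc x ⟨hS' h1, h2⟩ (hCs c hc hxc)
        exact hxc
      · exact absurd (hfQ R' hR' h3).2 (hbdy b hb x ⟨hS' h1, h2⟩)
    · intro hx
      have h3 : x ∈ B C R' := Or.inl (mem_iUnion₂.2 ⟨b, hb, hx⟩)
      rw [← hSB] at h3
      exact ⟨h3.1, (hCs b hb hx).2⟩
  have hS1s : S1 ⊆ a.2 := by rw [← hS.union]; exact subset_union_left
  have hS2s : S2 ⊆ a.2 := by rw [← hS.union]; exact subset_union_right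
  have hb1 : ∀ b ∈ F \ {a}, ((R1 ∩ b.1).Nonempty ↔ (S1 ∩ b.2).Nonempty) := by
    intro b hb
    rw [hside C1 R1 S1 hR1 hS1s hCsub1 hS1 b hb]
    exact (hC b hb.1 hb.2).2.2.2.2.1.symm
  have hb2 : ∀ b ∈ F \ {a}, ((R2 ∩ b.1).Nonempty ↔ (S2 ∩ b.2).Nonempty) := by
    intro b hb
    rw [hside C2 R2 S2 hR2 hS2s hCsub2 hS2 b hb]
    exact (hC b hb.1 hb.2).2.2.2.2.2.symm
  have hbdS : ∀ (C : Set X × Set X → Set X) (R' S' : Set X), R' ⊆ a.1 → S' ⊆ a.2 →
      S' ∩ frontier a.2 = B C R' → (∀ b ∈ F \ {a}, C b ⊆ a.2 ∩ b.2) →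
      ∀ x ∈ frontier P, (x ∈ R' ↔ f x ∈ S') := by
    intro C R' S' hR' hS' hSB hCs x hx
    constructor
    · intro hxR
      have : f x ∈ B C R' := Or.inr ⟨x, ⟨hxR, hx⟩, rfl⟩
      rw [← hSB] at this
      exact this.1
    · intro hxS
      have h1 : f x ∈ frontier a.2 := by
        rw [hQ1.frontier_eq hcl2 ha]
        exact Or.inr ⟨hS' hxS, hfg.fm hx⟩
      have h2 : f x ∈ B C R' := by rw [← hSB]; exact ⟨hxS, h1⟩
      rcases h2 with h2 | h2
      · obtain ⟨b, hb, hxb⟩ := mem_iUnion₂.1 h2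
        exact absurd (hfg.fm hx) (hbdy b hb _ (hCs b hb hxb))
      · obtain ⟨u, ⟨hu1, hu2⟩, hu⟩ := h2
        have : u = x := by rw [← hfg.left u hu2, ← hfg.left x hx, hu]
        exact this ▸ hu1
  refine ⟨?_, ?_, ?_, ?_, ?_⟩
  · exact hfin.union (by simp)
  · exact hP1.replace (a := a) (a1 := (R1, S1)) (a2 := (R2, S2)) ha hR
  · exact hQ1.replace (a := a) (a1 := (R1, S1)) (a2 := (R2, S2)) ha hS
  · rintro b (hb | hb) c (hc | hc) hbc
    · exact hm.adj b hb.1 c hc.1 hbc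
    · rcases hc with rfl | rfl
      · rw [inter_comm b.1, inter_comm b.2]; exact hb1 b hb
      · rw [inter_comm b.1, inter_comm b.2]; exact hb2 b hb
    · rcases hb with rfl | rfl
      · exact hb1 c hc
      · exact hb2 c hc
    · have hA := hR.ne
      have hB' := hS.ne
      rcases hb with rfl | rfl <;> rcases hc with rfl | rfl
      · exact absurd rfl hbc
      · simp [hA, hB']
      · rw [inter_comm, iff_comm, inter_comm]; simp [hA, hB']
      · exact absurd rfl hbc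
  · rintro b (hb | rfl | rfl)
    · exact hm.bd b hb.1
    · exact hbdS C1 R1 S1 hR1 hS1s hS1 hCsub1
    · exact hbdS C2 R2 S2 hR2 hS2s hS2 hCsub2

theorem Matched.symm {P Q : Set X} {f g : X → X}
    {F : Set (Set X × Set X)} (hm : Matched P Q f F) (hfg : BdHomeo P Q f g) :
    Matched Q P g (Prod.swap '' F) := by
  have part : ∀ {R : Set X} {r s : Set X × Set X → Set X}, IsPart R F r →
      (∀ a ∈ F, s a.swap = r a) → IsPart R (Prod.swap '' F) s := by
    intro R r s h hrs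
    refine ⟨?_, ?_, ?_, ?_, ?_⟩
    · rintro _ ⟨a, ha, rfl⟩
      rw [hrs a ha]; exact h.cell a ha
    · rw [biUnion_image, ← h.union]
      exact iUnion₂_congr hrs
    · rintro _ ⟨a, ha, rfl⟩ _ ⟨b, hb, rfl⟩ hab
      rw [hrs a ha, hrs b hb]
      exact h.disj a ha b hb (fun h => hab (by rw [h]))
    · rintro _ ⟨a, ha, rfl⟩ _ ⟨b, hb, rfl⟩ _ ⟨c, hc, rfl⟩ hab hbc hac
      rw [hrs a ha, hrs b hb, hrs c hc]
      exact h.triple a ha b hb c hc (fun h => hab (by rw [h])) (fun h => hbc (by rw [h]))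
        (fun h => hac (by rw [h]))
    · rintro _ ⟨a, ha, rfl⟩ _ ⟨b, hb, rfl⟩ hab
      rw [hrs a ha, hrs b hb]
      exact h.bdry a ha b hb (fun h => hab (by rw [h]))
  refine ⟨hm.fin.image _, part hm.part2 fun a _ => rfl, part hm.part1 fun a _ => rfl, ?_, ?_⟩
  · rintro _ ⟨a, ha, rfl⟩ _ ⟨b, hb, rfl⟩ hab
    exact (hm.adj a ha b hb (fun h => hab (by rw [h]))).symm
  · rintro _ ⟨a, ha, rfl⟩ y hy
    have h1 := hm.bd a ha (g y) (hfg.gm hy)
    rw [hfg.right y hy] at h1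
    exact h1.symm

/-- refinement of matched families -/
def Ref (F F' : Set (Set X × Set X)) : Prop := ∀ a' ∈ F', ∃ a ∈ F, a'.1 ⊆ a.1 ∧ a'.2 ⊆ a.2

theorem Ref.refl (F : Set (Set X × Set X)) : Ref F F := fun a ha => ⟨a, ha, subset_rfl, subset_rfl⟩

theorem Ref.trans {F F' F'' : Set (Set X × Set X)} (h : Ref F F') (h' : Ref F' F'') :
    Ref F F'' := by
  intro a'' ha''
  obtain ⟨a', ha', h1, h2⟩ := h' a'' ha''
  obtain ⟨a, ha, h3, h4⟩ := h a' ha'
  exact ⟨a, ha, h1.trans h3, h2.trans h4⟩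

/-- peel off a partition of the first coordinate -/
theorem Matched.peel [T2Space X] (hs : HasSplit X) {P Q : Set X} {f g : X → X}
    (hfg : BdHomeo P Q f g) (hPc : IsCompact P) (good : Set X → Prop) (n : ℕ) :
    ∀ (F : Set (Set X × Set X)), Matched P Q f F → ∀ a ∈ F, ∀ 𝒯 : Set (Set X), 𝒯.Finite →
      𝒯.ncard ≤ n → IsPart a.1 𝒯 id → (∀ t ∈ 𝒯, good t) →
      ∃ F', Matched P Q f F' ∧ Ref F F' ∧ ∀ b ∈ F', ¬ good b.1 → b ∈ F \ {a} := by
  induction n with
  | zero =>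
    intro F hm a ha 𝒯 hfin hcard hpart _
    have h0 : 𝒯 = ∅ := by
      rw [← Set.ncard_eq_zero hfin]; omega
    subst h0
    have := hpart.union
    simp only [mem_empty_iff_false, iUnion_of_empty, iUnion_empty] at this
    exact absurd (hm.part1.cell a ha).nonempty (by rw [← this]; exact not_nonempty_empty)
  | succ n ih =>
    intro F hm a ha 𝒯 hfin hcard hpart hgood
    by_cases hnt : 𝒯.Nontrivial
    · obtain ⟨j, hj, hsp, hp'⟩ := hpart.peel hfin hnt (hm.part1.cell a ha).connected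
      obtain ⟨S1, S2, hS, hm'⟩ := hm.step hs hfg hPc ha hsp
      have hcard' : (𝒯 \ {j}).ncard ≤ n := by
        rw [Set.ncard_sdiff_singleton_of_mem hj]; omega
      obtain ⟨F', hF', hR, hbad⟩ := ih _ hm' (⋃ i ∈ 𝒯 \ {j}, id i, S2)
        (Or.inr (Or.inr rfl)) (𝒯 \ {j}) (hfin.subset sdiff_subset) hcard' hp'
        (fun t ht => hgood t ht.1)
      refine ⟨F', hF', ?_, ?_⟩
      · refine Ref.trans ?_ hR
        rintro b (hb | rfl | rfl)
        · exact ⟨b, hb.1, subset_rfl, subset_rfl⟩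
        · exact ⟨a, ha, by simp only [← hsp.union]; exact subset_union_left,
            by simp only [← hS.union]; exact subset_union_left⟩
        · exact ⟨a, ha, by simp only [← hsp.union]; exact subset_union_right,
            by simp only [← hS.union]; exact subset_union_right⟩
      · intro b hb hbg
        obtain ⟨h1 | h1, h2⟩ := hbad b hb hbg
        · exact h1
        · rcases h1 with rfl | rfl
          · exact absurd (hgood j hj) hbg
          · exact absurd rfl h2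
    · have hne : 𝒯.Nonempty := by
        by_contra h
        rw [not_nonempty_iff_eq_empty] at h
        subst h
        have := hpart.union
        simp only [mem_empty_iff_false, iUnion_of_empty, iUnion_empty] at this
        exact absurd (hm.part1.cell a ha).nonempty (by rw [← this]; exact not_nonempty_empty)
      obtain ⟨t, ht⟩ := hne
      have h1 : 𝒯 = {t} := (Set.not_nontrivial_iff.1 hnt).eq_singleton_of_mem ht
      have h2 : a.1 = t := by
        have := hpart.union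
        rw [h1] at this
        simpa using this.symm
      refine ⟨F, hm, Ref.refl F, ?_⟩
      intro b hb hbg
      refine ⟨hb, ?_⟩
      rintro rfl
      exact hbg (h2 ▸ hgood t ht)

end Run7.h116
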