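import Pool.Agent.Run7.h116.T6
import Pool.Agent.H812R3.CantorChar

set_option autoImplicit false
set_option linter.unusedSectionVars false

/-!
# Flips of Cantor sets and fixed point free involutions of cells
-/

open Set Topology Filter

namespace Run7.h116

/-- `τ` is a continuous involution of `S` exchanging the two closed parts `A` and `B` -/
structure Flip {X : Type*} [TopologicalSpace X] (S A B : Set X) (τ : X → X) : Prop where
  ca : IsClosed A
  cb : IsClosed B
  dis : Disjoint A B
  un : A ∪ B = S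
  ma : MapsTo τ A B
  mb : MapsTo τ B A
  inv : ∀ x ∈ S, τ (τ x) = x
  cont : ContinuousOn τ S

theorem Flip.maps {X : Type*} [TopologicalSpace X] {S A B : Set X} {τ : X → X}
    (h : Flip S A B τ) : MapsTo τ S S := by
  intro x hx
  rw [← h.un] at hx ⊢
  rcases hx with hx | hx
  · exact Or.inr (h.ma hx)
  · exact Or.inl (h.mb hx)

theorem Flip.ne {X : Type*} [TopologicalSpace X] {S A B : Set X} {τ : X → X}
    (h : Flip S A B τ) {x : X} (hx : x ∈ S) : τ x ≠ x := by
  intro hc
  rw [← h.un] at hx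
  rcases hx with hx | hx
  · have := h.ma hx
    rw [hc] at this
    exact Set.disjoint_left.1 h.dis hx this
  · have := h.mb hx
    rw [hc] at this
    exact Set.disjoint_left.1 h.dis this hx

/-- a compact totally disconnected second countable space embeds in the Cantor space -/
theorem exists_cantor_injection (Z : Type*) [TopologicalSpace Z] [CompactSpace Z] [T2Space Z]
    [TotallyDisconnectedSpace Z] [SecondCountableTopology Z] :
    ∃ e : Z → (ℕ → Bool), Continuous e ∧ Function.Injective e := by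
  classical
  have hc : Countable (TopologicalSpace.Clopens Z) :=
    TopologicalSpace.Clopens.countable_iff_secondCountable.2 inferInstance
  obtain ⟨C, hC⟩ := exists_surjective_nat (TopologicalSpace.Clopens Z)
  refine ⟨fun z n => decide (z ∈ (C n : Set Z)), ?_, ?_⟩
  · refine continuous_pi fun n => ?_
    have h1 : IsClopen (C n : Set Z) := (C n).isClopen
    rw [continuous_discrete_rng]
    intro b
    cases b
    · have : (fun z => decide (z ∈ (C n : Set Z))) ⁻¹' {false} = (C n : Set Z)ᶜ := by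
        ext z; simp
      rw [this]; exact h1.compl.isOpen
    · have : (fun z => decide (z ∈ (C n : Set Z))) ⁻¹' {true} = (C n : Set Z) := by
        ext z; simp
      rw [this]; exact h1.isOpen
  · intro x y hxy
    by_contra hne
    obtain ⟨V, hV, hxV, hVy⟩ := compact_exists_isClopen_in_isOpen (x := x)
      (U := {y}ᶜ) isOpen_compl_singleton hne
    obtain ⟨n, hn⟩ := hC ⟨V, hV⟩
    have h1 := congrFun hxy n
    simp only [hn, decide_eq_decide] at h1
    have h2 : x ∈ ((⟨V, hV⟩ : TopologicalSpace.Clopens Z) : Set Z) := hxV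
    have h3 : y ∉ ((⟨V, hV⟩ : TopologicalSpace.Clopens Z) : Set Z) := fun h => hVy h rfl
    exact h3 (h1.1 h2)

/-- the flip of the Cantor space -/
def flipC (f : ℕ → Bool) : ℕ → Bool := Function.update f 0 (!f 0)

theorem flipC_flipC (f : ℕ → Bool) : flipC (flipC f) = f := by
  funext n
  by_cases h : n = 0
  · subst h; simp [flipC]
  · simp [flipC, h]

theorem continuous_flipC : Continuous flipC := by
  unfold flipC
  exact continuous_id.update 0
    ((continuous_of_discreteTopology (f := Bool.not)).comp (continuous_apply 0))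

theorem exists_flip {X : Type*} [TopologicalSpace X] [T2Space X] [SecondCountableTopology X]
    {S : Set X} (hS : IsCompact S) (htd : IsTotallyDisconnected S)
    (hp : ∀ x ∈ S, AccPt x (𝓟 S)) : ∃ (A B : Set X) (τ : X → X), Flip S A B τ := by
  classical
  by_cases hne : S.Nonempty
  swap
  · rw [not_nonempty_iff_eq_empty] at hne
    subst hne
    exact ⟨∅, ∅, id, isClosed_empty, isClosed_empty, by simp, by simp, by simp [MapsTo],
      by simp [MapsTo], by simp, by simp⟩
  have : CompactSpace S := isCompact_iff_compactSpace.1 hS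
  have : TotallyDisconnectedSpace S := totallyDisconnectedSpace_subtype_iff.2 htd
  have : Nonempty S := hne.to_subtype
  obtain ⟨e, he, hinj⟩ := exists_cantor_injection S
  obtain ⟨φ⟩ := Pool.Agent.H812R3.CantorChar.cantor_char e he hinj (by
    intro z U hU hz
    have h1 := hp z z.2
    rw [accPt_iff_nhds] at h1
    obtain ⟨V, hV, rfl⟩ := isOpen_induced_iff.1 hU
    obtain ⟨y, ⟨hyV, hyS⟩, hyne⟩ := h1 V (hV.mem_nhds hz)
    exact ⟨⟨y, hyS⟩, hyV, fun h => hyne (congrArg Subtype.val h)⟩)
  have hcl : ∀ b : Bool, IsClosed (Subtype.val '' {s : S | φ s 0 = b}) := by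
    intro b
    refine hS.isClosed.isClosedMap_subtype_val _ ?_
    exact isClosed_singleton.preimage ((continuous_apply 0).comp φ.continuous)
  set τ : X → X := fun x => if h : x ∈ S then (φ.symm (flipC (φ ⟨x, h⟩)) : X) else x with hτ
  have hτS : ∀ s : S, τ s = (φ.symm (flipC (φ s)) : X) := by
    intro s
    simp only [hτ, s.2, dif_pos]
  refine ⟨_, _, τ, hcl true, hcl false, ?_, ?_, ?_, ?_, ?_, ?_⟩
  · rw [disjoint_image_iff Subtype.val_injective, Set.disjoint_left]
    intro s h1 h2
    simp only [mem_ofPred_eq] at h1 h2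
    rw [h1] at h2
    exact Bool.noConfusion h2
  · ext x
    constructor
    · rintro (⟨s, _, rfl⟩ | ⟨s, _, rfl⟩) <;> exact s.2
    · intro hx
      rcases h : φ ⟨x, hx⟩ 0 with _ | _
      · exact Or.inr ⟨⟨x, hx⟩, h, rfl⟩
      · exact Or.inl ⟨⟨x, hx⟩, h, rfl⟩
  · rintro _ ⟨s, hs, rfl⟩
    rw [hτS]
    refine ⟨_, ?_, rfl⟩
    simp only [mem_ofPred_eq] at hs ⊢
    rw [φ.apply_symm_apply]
    simp [flipC, hs]
  · rintro _ ⟨s, hs, rfl⟩
    rw [hτS]
    refine ⟨_, ?_, rfl⟩
    simp only [mem_ofPred_eq] at hs ⊢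
    rw [φ.apply_symm_apply]
    simp [flipC, hs]
  · intro x hx
    have h1 : τ x = (φ.symm (flipC (φ ⟨x, hx⟩)) : X) := hτS ⟨x, hx⟩
    rw [h1, hτS, φ.apply_symm_apply, flipC_flipC, φ.symm_apply_apply]
  · rw [continuousOn_iff_continuous_domRestrict]
    have : S.domRestrict τ = fun s => (φ.symm (flipC (φ s)) : X) := by
      funext s
      exact hτS s
    rw [this]
    exact continuous_subtype_val.comp (φ.symm.continuous.comp
      (continuous_flipC.comp φ.continuous))

theorem IsSplit.frontier_left {X : Type*} [TopologicalSpace X] {R A B : Set X}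
    (h : IsSplit R A B) : frontier A = (A ∩ B) ∪ (A ∩ frontier R) := by
  have h1 : IsPart R ({true, false} : Set Bool) (fun b => if b then A else B) :=
    h.isPart (by simp) (by simp)
  have h2 := h1.frontier_eq (h1.clU (by simp)) (i := true) (by simp)
  simp only [if_true] at h2
  rw [h2]
  congr 1
  ext x
  simp only [mem_iUnion, mem_inter_iff, exists_prop]
  constructor
  · rintro ⟨j, ⟨hj, hj2⟩, hx⟩
    cases j
    · simpa using hx
    · exact absurd rfl hj2
  · intro hx
    exact ⟨false, ⟨by simp, by simp⟩, by simpa using hx⟩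

/-- a fixed point free involution of a cell with prescribed boundary values -/
theorem exists_inv_cell {X : Type*} [MetricSpace X] [SecondCountableTopology X]
    (hs : HasSplit X) (hf : ∀ ε > 0, HasFine (X := X) (Small ε))
    {P : Set X} (hP : Cell P) {A B : Set X} {τ : X → X} (hτ : Flip (frontier P) A B τ) :
    ∃ h : X → X, MapsTo h P P ∧ (∀ x ∈ P, h (h x) = x) ∧ ContinuousOn h P ∧
      (∀ x ∈ P, h x ≠ x) ∧ ∀ x ∈ frontier P, h x = τ x := by
  classical
  obtain ⟨R1, R2, hR, hA, hB⟩ := hs P A B hP hτ.ca hτ.cb hτ.dis hτ.un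
  have hf1 := hR.frontier_left
  have hf2 := hR.symm.frontier_left
  rw [hA] at hf1
  rw [hB, inter_comm] at hf2
  set T := R1 ∩ R2 with hT
  have hTc : IsCompact T := hR.cellA.compact.inter hR.cellB.compact
  have hTtd : IsTotallyDisconnected T := td_subset hR.cellA.td (by rw [hf1]; exact subset_union_left)
  have hTP : ∀ x ∈ T, x ∉ frontier P := fun x hx h => h.2 (hR.sub hx)
  have hTA : ∀ x ∈ T, x ∉ A := by
    intro x hx h
    exact hTP x hx (by rw [← hτ.un]; exact Or.inl h)
  have hTB : ∀ x ∈ T, x ∉ B := by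
    intro x hx h
    exact hTP x hx (by rw [← hτ.un]; exact Or.inr h)
  have hTp : ∀ x ∈ T, AccPt x (𝓟 T) := by
    intro x hx
    have h1 := (hR.cellA.tameAt x (by rw [hf1]; exact Or.inl hx)).acc
    refine accPt_germ h1 ⟨Aᶜ, hτ.ca.isOpen_compl, hTA x hx, ?_⟩
    rw [hf1]
    ext y
    simp only [mem_inter_iff, mem_union, mem_compl_iff]
    tauto
  obtain ⟨C, D, σ, hσ⟩ := exists_flip hTc hTtd hTp
  set f : X → X := fun x => if x ∈ T then σ x else τ x with hfdef
  have hfT : ∀ x ∈ T, f x = σ x := fun x hx => by simp only [hfdef, hx, if_true]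
  have hfA : ∀ x ∈ A, f x = τ x := fun x hx => by
    have : x ∉ T := fun h => hTA x h hx
    simp only [hfdef, this, if_false]
  have hfB : ∀ x ∈ B, f x = τ x := fun x hx => by
    have : x ∉ T := fun h => hTB x h hx
    simp only [hfdef, this, if_false]
  have hAP : A ⊆ frontier P := by rw [← hτ.un]; exact subset_union_left
  have hBP : B ⊆ frontier P := by rw [← hτ.un]; exact subset_union_right
  have hcfT : ContinuousOn f T := hσ.cont.congr hfT
  have hcfA : ContinuousOn f A := (hτ.cont.mono hAP).congr hfA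
  have hcfB : ContinuousOn f B := (hτ.cont.mono hBP).congr hfB
  have hbd : BdHomeo R1 R2 f f := by
    refine ⟨?_, ?_, ?_, ?_, ?_, ?_⟩
    · rw [hf1, hf2]
      rintro x (hx | hx)
      · rw [hfT x hx]; exact Or.inl (hσ.maps hx)
      · rw [hfA x hx]; exact Or.inr (hτ.ma hx)
    · rw [hf1, hf2]
      rintro x (hx | hx)
      · rw [hfT x hx]; exact Or.inl (hσ.maps hx)
      · rw [hfB x hx]; exact Or.inr (hτ.mb hx)
    · rw [hf1]
      rintro x (hx | hx)
      · rw [hfT x hx, hfT _ (hσ.maps hx), hσ.inv x hx]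
      · rw [hfA x hx, hfB _ (hτ.ma hx), hτ.inv x (hAP hx)]
    · rw [hf2]
      rintro x (hx | hx)
      · rw [hfT x hx, hfT _ (hσ.maps hx), hσ.inv x hx]
      · rw [hfB x hx, hfA _ (hτ.mb hx), hτ.inv x (hBP hx)]
    · rw [hf1]
      exact hcfT.union_of_isClosed hcfA hTc.isClosed hτ.ca
    · rw [hf2]
      exact hcfT.union_of_isClosed hcfB hTc.isClosed hτ.cb
  obtain ⟨φ, ψ, hφψ, hφ⟩ := exists_homeoOn hs hf hR.cellA hR.cellB hbd
  have hψ : ∀ y ∈ frontier R2, ψ y = f y := by
    intro y hy
    have h1 : f y ∈ frontier R1 := hbd.gm hy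
    have h2 := hφ (f y) h1
    rw [hbd.right y hy] at h2
    calc ψ y = ψ (φ (f y)) := by rw [h2]
      _ = f y := hφψ.left _ (hR.cellA.closed.frontier_subset h1)
  have hP12 : R1 ∪ R2 = P := hR.union
  set h : X → X := fun x => if x ∈ R1 then φ x else ψ x with hh
  have h1 : ∀ x ∈ R1, h x = φ x := fun x hx => by simp only [hh, hx, if_true]
  have h2 : ∀ x ∈ R2, h x = ψ x := by
    intro x hx
    by_cases hx1 : x ∈ R1
    · rw [h1 x hx1, hφ x (by rw [hf1]; exact Or.inl ⟨hx1, hx⟩),
        hψ x (by rw [hf2]; exact Or.inl ⟨hx1, hx⟩)]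
    · simp only [hh, hx1, if_false]
  have hσne : ∀ x, x ∈ R1 → x ∈ R2 → f x ≠ x := by
    intro x hx1 hx2
    rw [hfT x ⟨hx1, hx2⟩]
    exact hσ.ne ⟨hx1, hx2⟩
  refine ⟨h, ?_, ?_, ?_, ?_, ?_⟩
  · rw [← hP12]
    rintro x (hx | hx)
    · rw [h1 x hx]; exact Or.inr (hφψ.fm hx)
    · rw [h2 x hx]; exact Or.inl (hφψ.gm hx)
  · rw [← hP12]
    rintro x (hx | hx)
    · rw [h1 x hx, h2 _ (hφψ.fm hx), hφψ.left x hx]
    · rw [h2 x hx, h1 _ (hφψ.gm hx), hφψ.right x hx]
  · rw [← hP12]
    exact (hφψ.cf.congr h1).union_of_isClosed (hφψ.cg.congr h2) hR.cellA.closed hR.cellB.closed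
  · rw [← hP12]
    rintro x (hx | hx) hc
    · have hx2 : x ∈ R2 := by
        have := hφψ.fm hx
        rw [← h1 x hx, hc] at this
        exact this
      rw [h1 x hx, hφ x (by rw [hf1]; exact Or.inl ⟨hx, hx2⟩)] at hc
      exact hσne x hx hx2 hc
    · have hx1 : x ∈ R1 := by
        have := hφψ.gm hx
        rw [← h2 x hx, hc] at this
        exact this
      rw [h2 x hx, hψ x (by rw [hf2]; exact Or.inl ⟨hx1, hx⟩)] at hc
      exact hσne x hx1 hx hc
  · intro x hx
    rw [← hτ.un] at hx
    rcases hx with hx | hx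
    · have hx1 : x ∈ R1 := by rw [← hA] at hx; exact hx.1
      rw [h1 x hx1, hφ x (by rw [hf1]; exact Or.inr hx), hfA x hx]
    · have hx2 : x ∈ R2 := by rw [← hB] at hx; exact hx.1
      rw [h2 x hx2, hψ x (by rw [hf2]; exact Or.inr hx), hfB x hx]

end Run7.h116
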