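import Pool.Agent.Run7.h116.T3
import Pool.Agent.Run7.h116.T7

set_option autoImplicit false
set_option linter.unusedSectionVars false

/-!
# Transfer through charts
-/

open Set Topology Filter

namespace Run7.h116

variable {M X : Type*} [TopologicalSpace M] [TopologicalSpace X]

theorem chart_mem_nhds (e : OpenPartialHomeomorph M X) {s : M} (hs : s ∈ e.source) {W : Set X}
    (hW : W ∈ 𝓝 (e s)) : e ⁻¹' W ∩ e.source ∈ 𝓝 s :=
  inter_mem ((e.continuousAt hs) hW) (e.open_source.mem_nhds hs)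

theorem chart_image_nhds (e : OpenPartialHomeomorph M X) {s : M} (hs : s ∈ e.source) {W : Set M}
    (hW : W ∈ 𝓝 s) : e '' (W ∩ e.source) ∈ 𝓝 (e s) := by
  have h1 : W ∩ e.source ∈ 𝓝 s := inter_mem hW (e.open_source.mem_nhds hs)
  exact e.image_mem_nhds hs h1

theorem LCAt.image (e : OpenPartialHomeomorph M X) {O : Set M} {s : M} (hs : s ∈ e.source)
    (h : LCAt O s) : LCAt (e '' (O ∩ e.source)) (e s) := by
  intro W hW
  obtain ⟨W', hW', C, hC, hCp, hC2⟩ := h _ (chart_mem_nhds e hs hW)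
  refine ⟨e '' (W' ∩ e.source), chart_image_nhds e hs hW', e '' C, ?_, ?_, ?_⟩
  · rintro _ ⟨x, hx, rfl⟩
    obtain ⟨h1, h2, h3⟩ := hC hx
    exact ⟨⟨x, ⟨h1, h3⟩, rfl⟩, h2⟩
  · refine hCp.image _ (e.continuousOn.mono ?_)
    intro x hx
    exact (hC hx).2.2
  · rintro _ ⟨⟨x, ⟨h1, h2⟩, rfl⟩, ⟨y, ⟨h3, h4⟩, hyx⟩⟩
    have : y = x := e.injOn h4 h2 hyx
    subst this
    exact ⟨y, hC2 ⟨h1, h3⟩, rfl⟩

theorem td_image (e : OpenPartialHomeomorph M X) {Z : Set M} (hZ : Z ⊆ e.source)
    (h : IsTotallyDisconnected Z) : IsTotallyDisconnected (e '' Z) := by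
  intro t ht hp
  have htt : t ⊆ e.target := by
    intro y hy
    obtain ⟨x, hx, rfl⟩ := ht hy
    exact e.map_source (hZ hx)
  have h1 : (e.symm '' t).Subsingleton := by
    refine h _ ?_ (hp.image _ (e.continuousOn_symm.mono htt))
    rintro _ ⟨y, hy, rfl⟩
    obtain ⟨x, hx, rfl⟩ := ht hy
    rw [e.left_inv (hZ hx)]
    exact hx
  intro x hx y hy
  have h2 := h1 ⟨x, hx, rfl⟩ ⟨y, hy, rfl⟩
  rw [← e.right_inv (htt hx), ← e.right_inv (htt hy), h2]

theorem chart_interior (e : OpenPartialHomeomorph M X) {R : Set M} (hR : R ⊆ e.source) :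
    interior (e '' R) = e '' interior R := by
  apply Subset.antisymm
  · intro y hy
    obtain ⟨x, hx, rfl⟩ := interior_subset hy
    refine ⟨x, ?_, rfl⟩
    refine mem_interior.2 ⟨e ⁻¹' interior (e '' R) ∩ e.source, ?_, ?_, hy, hR hx⟩
    · rintro z ⟨hz, hzs⟩
      obtain ⟨w, hw, hwz⟩ := interior_subset hz
      rw [← e.injOn (hR hw) hzs hwz]
      exact hw
    · rw [inter_comm]
      exact e.isOpen_inter_preimage isOpen_interior
  · refine interior_maximal (image_mono interior_subset) ?_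
    exact e.isOpen_image_of_subset_source isOpen_interior (interior_subset.trans hR)

theorem tame_image [T2Space M] [T2Space X] (e : OpenPartialHomeomorph M X) {R : Set M}
    (hR : Tame R) (hc : IsCompact R) (hs : R ⊆ e.source) :
    Tame (e '' R) ∧ frontier (e '' R) = e '' frontier R := by
  have hint := chart_interior e hs
  have hc' : IsCompact (e '' R) := hc.image_of_continuousOn (e.continuousOn.mono hs)
  have hfr : frontier (e '' R) = e '' frontier R := by
    rw [hc'.isClosed.frontier_eq, hint, hR.frontier_eq]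
    ext y
    constructor
    · rintro ⟨⟨x, hx, rfl⟩, h2⟩
      exact ⟨x, ⟨hx, fun h => h2 ⟨x, h, rfl⟩⟩, rfl⟩
    · rintro ⟨x, ⟨hx, hx2⟩, rfl⟩
      refine ⟨⟨x, hx, rfl⟩, ?_⟩
      rintro ⟨z, hz, hzx⟩
      rw [e.injOn (hs (interior_subset hz)) (hs hx) hzx] at hz
      exact hx2 hz
  refine ⟨⟨hc'.isClosed, ?_, ?_, ?_⟩, hfr⟩
  · rintro _ ⟨x, hx, rfl⟩
    rw [hint]
    exact mem_closure_image (e.continuousAt (hs hx)) (hR.reg hx)
  · rw [hfr]
    exact td_image e (hR.frontier_subset.trans hs) hR.td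
  · rw [hfr]
    rintro _ ⟨s, hsf, rfl⟩
    have hsR : s ∈ e.source := hs (hR.frontier_subset hsf)
    have ht := hR.tameAt s hsf
    refine ⟨?_, ?_, ?_⟩
    · rw [hfr, accPt_iff_nhds]
      intro U hU
      have h1 := ht.acc
      rw [accPt_iff_nhds] at h1
      obtain ⟨y, ⟨⟨hy1, hy2⟩, hy3⟩, hy4⟩ := h1 _ (chart_mem_nhds e hsR hU)
      exact ⟨e y, ⟨hy1, ⟨y, hy3, rfl⟩⟩, fun h => hy4 (e.injOn hy2 hsR h)⟩
    · have h1 := ht.inn.image e hsR
      rw [inter_eq_self_of_subset_left (interior_subset.trans hs)] at h1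
      rw [hint]
      exact h1
    · refine (ht.out.image e hsR).germ ⟨e.target, e.open_target, e.map_source hsR, ?_⟩
      ext y
      constructor
      · rintro ⟨⟨x, ⟨h1, h2⟩, rfl⟩, h3⟩
        refine ⟨?_, h3⟩
        rintro ⟨z, hz, hzx⟩
        rw [e.injOn (hs hz) h2 hzx] at hz
        exact h1 hz
      · rintro ⟨h1, h2⟩
        refine ⟨⟨e.symm y, ⟨fun h => h1 ⟨_, h, e.right_inv h2⟩, e.map_target h2⟩,
          e.right_inv h2⟩, h2⟩

theorem cell_image [T2Space M] [T2Space X] (e : OpenPartialHomeomorph M X) {R : Set M}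
    (hR : Cell R) (hs : R ⊆ e.source) : Cell (e '' R) := by
  refine ⟨(tame_image e hR.toTame hR.compact hs).1,
    hR.compact.image_of_continuousOn (e.continuousOn.mono hs), ?_⟩
  rw [chart_interior e hs]
  exact hR.conn.image _ (e.continuousOn.mono (interior_subset.trans hs))

/-- tame neighbourhoods in the model give tame neighbourhoods in the domain of a chart -/
theorem tameIn_of_chart [T2Space M] [T2Space X] [LocallyCompactSpace M]
    (hX : ∀ K O : Set X, IsCompact K → IsOpen O → K ⊆ O → TameIn K O)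
    (e : OpenPartialHomeomorph M X) {K O : Set M} (hK : IsCompact K) (hO : IsOpen O)
    (hKO : K ⊆ O) (hOe : O ⊆ e.source) : TameIn K O := by
  intro Z hZ hZtd
  obtain ⟨L, hL, hKL, hLO⟩ := exists_compact_between hK hO hKO
  have hLs : L ⊆ e.source := hLO.trans hOe
  have hsymm : ∀ A : Set M, A ⊆ e.source → e.symm '' (e '' A) = A := by
    intro A hA
    ext x
    constructor
    · rintro ⟨_, ⟨z, hz, rfl⟩, rfl⟩
      rw [e.left_inv (hA hz)]; exact hz
    · intro hx
      exact ⟨e x, ⟨x, hx, rfl⟩, e.left_inv (hA hx)⟩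
  obtain ⟨G, hG, hGc, hKG, hGO, hGd⟩ := hX (e '' K) (e '' interior L)
    (hK.image_of_continuousOn (e.continuousOn.mono (hKO.trans hOe)))
    (e.isOpen_image_of_subset_source isOpen_interior (interior_subset.trans hLs))
    (image_mono hKL) (e '' (Z ∩ L))
    ((hZ.inter hL).image_of_continuousOn (e.continuousOn.mono (inter_subset_right.trans hLs)))
    (td_image e (inter_subset_right.trans hLs) (td_subset hZtd inter_subset_left))
  have hGt : G ⊆ e.symm.source := by
    intro y hy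
    obtain ⟨x, hx, rfl⟩ := hGO hy
    exact e.map_source (hLs (interior_subset hx))
  have h1 := tame_image e.symm hG hGc hGt
  have hGL : e.symm '' G ⊆ interior L := by
    rintro _ ⟨y, hy, rfl⟩
    obtain ⟨x, hx, rfl⟩ := hGO hy
    rw [e.left_inv (hLs (interior_subset hx))]
    exact hx
  refine ⟨e.symm '' G, h1.1, hGc.image_of_continuousOn (e.symm.continuousOn.mono hGt), ?_,
    hGL.trans (interior_subset.trans hLO), ?_⟩
  · rw [chart_interior e.symm hGt]
    intro x hx
    exact ⟨e x, hKG ⟨x, hx, rfl⟩, e.left_inv (hOe (hKO hx))⟩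
  · rw [h1.2, Set.disjoint_left]
    rintro _ ⟨y, hy, rfl⟩ hyZ
    have hyG : y ∈ G := hG.frontier_subset hy
    refine Set.disjoint_left.1 hGd hy ⟨e.symm y, ⟨hyZ, ?_⟩, e.right_inv (hGt hyG)⟩
    exact interior_subset (hGL ⟨y, hyG, rfl⟩)

/-- a fixed point free involution of a cell inside a chart -/
theorem exists_inv_cell_chart {M X : Type*} [TopologicalSpace M] [T2Space M] [MetricSpace X]
    [SecondCountableTopology X] (hs : HasSplit X) (hf : ∀ ε > 0, HasFine (X := X) (Small ε))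
    (e : OpenPartialHomeomorph M X) {P : Set M} (hP : Cell P) (hPe : P ⊆ e.source)
    {A B : Set M} {τ : M → M} (hτ : Flip (frontier P) A B τ) :
    ∃ h : M → M, MapsTo h P P ∧ (∀ x ∈ P, h (h x) = x) ∧ ContinuousOn h P ∧
      (∀ x ∈ P, h x ≠ x) ∧ ∀ x ∈ frontier P, h x = τ x := by
  have hP' := cell_image e hP hPe
  have hfr := (tame_image e hP.toTame hP.compact hPe).2
  have hfP : frontier P ⊆ P := hP.frontier_subset
  have hfc : IsCompact (frontier P) := hP.compact.of_isClosed_subset isClosed_frontier hfP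
  have hAf : A ⊆ frontier P := by rw [← hτ.un]; exact subset_union_left
  have hBf : B ⊆ frontier P := by rw [← hτ.un]; exact subset_union_right
  have hfs : frontier P ⊆ e.source := hfP.trans hPe
  have hle : ∀ x ∈ P, e.symm (e x) = x := fun x hx => e.left_inv (hPe hx)
  have hcs : ContinuousOn e.symm (e '' P) := e.continuousOn_symm.mono (by
    rintro _ ⟨x, hx, rfl⟩
    exact e.map_source (hPe hx))
  have hms : MapsTo e.symm (e '' P) P := by
    rintro _ ⟨x, hx, rfl⟩
    rw [hle x hx]; exact hx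
  have hflip : Flip (frontier (e '' P)) (e '' A) (e '' B) (fun y => e (τ (e.symm y))) := by
    refine ⟨?_, ?_, ?_, ?_, ?_, ?_, ?_, ?_⟩
    · exact ((hfc.of_isClosed_subset hτ.ca hAf).image_of_continuousOn
        (e.continuousOn.mono (hAf.trans hfs))).isClosed
    · exact ((hfc.of_isClosed_subset hτ.cb hBf).image_of_continuousOn
        (e.continuousOn.mono (hBf.trans hfs))).isClosed
    · rw [Set.disjoint_left]
      rintro _ ⟨x, hx, rfl⟩ ⟨y, hy, hyx⟩
      rw [e.injOn (hfs (hBf hy)) (hfs (hAf hx)) hyx] at hy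
      exact Set.disjoint_left.1 hτ.dis hx hy
    · rw [← image_union, hτ.un, hfr]
    · rintro _ ⟨x, hx, rfl⟩
      simp only [hle x (hfP (hAf hx))]
      exact ⟨_, hτ.ma hx, rfl⟩
    · rintro _ ⟨x, hx, rfl⟩
      simp only [hle x (hfP (hBf hx))]
      exact ⟨_, hτ.mb hx, rfl⟩
    · rw [hfr]
      rintro _ ⟨x, hx, rfl⟩
      simp only [hle x (hfP hx), hle _ (hfP (hτ.maps hx)), hτ.inv x hx]
    · rw [hfr]
      have h1 : MapsTo e.symm (e '' frontier P) (frontier P) := by
        rintro _ ⟨x, hx, rfl⟩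
        rw [hle x (hfP hx)]; exact hx
      have h2 : ContinuousOn (fun y => τ (e.symm y)) (e '' frontier P) :=
        hτ.cont.comp (hcs.mono (image_mono hfP)) h1
      exact e.continuousOn.comp h2 fun y hy => hfs (hτ.maps (h1 hy))
  obtain ⟨h, h1, h2, h3, h4, h5⟩ := exists_inv_cell hs hf hP' hflip
  have h1' : ∀ x ∈ P, ∃ y ∈ P, e y = h (e x) := by
    intro x hx
    obtain ⟨y, hy, hyx⟩ := h1 ⟨x, hx, rfl⟩
    exact ⟨y, hy, hyx⟩
  refine ⟨fun x => e.symm (h (e x)), ?_, ?_, ?_, ?_, ?_⟩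
  · intro x hx
    exact hms (h1 ⟨x, hx, rfl⟩)
  · intro x hx
    obtain ⟨y, hy, hyx⟩ := h1' x hx
    simp only [← hyx, hle y hy]
    rw [hyx, h2 _ ⟨x, hx, rfl⟩, hle x hx]
  · refine hcs.comp (h3.comp (e.continuousOn.mono hPe) fun x hx => ⟨x, hx, rfl⟩) ?_
    intro x hx
    exact h1 ⟨x, hx, rfl⟩
  · intro x hx hc
    obtain ⟨y, hy, hyx⟩ := h1' x hx
    simp only [← hyx, hle y hy] at hc
    rw [hc] at hyx
    exact h4 _ ⟨x, hx, rfl⟩ hyx.symm
  · intro x hx
    have : e x ∈ frontier (e '' P) := by rw [hfr]; exact ⟨x, hx, rfl⟩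
    simp only [h5 _ this, hle x (hfP hx)]
    exact hle _ (hfP (hτ.maps hx))

end Run7.h116
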