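import Pool.Agent.Run7.h116.T8

set_option autoImplicit false
set_option linter.unusedSectionVars false

/-!
# Global assembly
-/

open Set Topology Filter

namespace Run7.h116

/-- a small fixed point free involution of a space modelled on `X` -/
theorem exists_inv_space {Y X : Type*} [TopologicalSpace Y] [T2Space Y]
    [SecondCountableTopology Y] [LocallyCompactSpace Y] [LocallyConnectedSpace Y]
    [MetricSpace X] [SecondCountableTopology X]
    (hs : HasSplit X) (hf : ∀ ε > 0, HasFine (X := X) (Small ε))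
    (hX : ∀ K O : Set X, IsCompact K → IsOpen O → K ⊆ O → TameIn K O)
    (e : Y → OpenPartialHomeomorph Y X) (he : ∀ y, y ∈ (e y).source)
    (U : Y → Set Y) (hU : ∀ y, U y ∈ 𝓝 y) :
    ∃ h : Y → Y, Continuous h ∧ (∀ y, h (h y) = y) ∧ (∀ y, h y ≠ y) ∧
      ∀ y, ∃ x, y ∈ U x ∧ h y ∈ U x := by
  classical
  obtain ⟨𝒯, hpart, hsub, hlf⟩ := exists_fine_space (fun y => U y ∩ (e y).source)
    (fun y => inter_mem (hU y) ((e y).open_source.mem_nhds (he y)))
    (fun x K O hK hO hKO hOU => tameIn_of_chart hX (e x) hK hO hKO (hOU.trans inter_subset_right))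
  have hlfT : ∀ T ⊆ 𝒯, LocallyFinite (fun t : T => (t : Set Y)) := fun T hT =>
    hlf.comp_injective (inclusion_injective hT)
  have hclosed : ∀ t ∈ 𝒯, IsClosed t := fun t ht => (hpart.cell t ht).closed
  have hcl : ClU 𝒯 id := by
    intro T hT
    simp only [id]
    rw [biUnion_eq_iUnion]
    exact (hlfT T hT).isClosed_iUnion fun t => hclosed t (hT t.2)
  -- flips of the interfaces
  have hfl : ∀ S : Set Y, ∃ (A B : Set Y) (τ : Y → Y), IsCompact S → IsTotallyDisconnected S →
      (∀ x ∈ S, AccPt x (𝓟 S)) → Flip S A B τ := by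
    intro S
    by_cases h : IsCompact S ∧ IsTotallyDisconnected S ∧ (∀ x ∈ S, AccPt x (𝓟 S))
    · obtain ⟨A, B, τ, hτ⟩ := exists_flip h.1 h.2.1 h.2.2
      exact ⟨A, B, τ, fun _ _ _ => hτ⟩
    · exact ⟨∅, ∅, id, fun h1 h2 h3 => absurd ⟨h1, h2, h3⟩ h⟩
  choose Af Bf τf hfl using hfl
  have hint : ∀ t ∈ 𝒯, ∀ t' ∈ 𝒯, t ≠ t' →
      Flip (t ∩ t') (Af (t ∩ t')) (Bf (t ∩ t')) (τf (t ∩ t')) := by
    intro t ht t' ht' htt'
    refine hfl _ ((hpart.cell t ht).compact.inter (hpart.cell t' ht').compact) ?_ ?_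
    · exact td_subset (hpart.cell t ht).td (hpart.inter_frontier ht ht' htt')
    · intro x hx
      exact hpart.inter_acc hcl ht ht' htt' hx
  have huniq : ∀ t ∈ 𝒯, ∀ t' ∈ 𝒯, t ≠ t' → ∀ s ∈ 𝒯, ∀ s' ∈ 𝒯, s ≠ s' → ∀ y, y ∈ t ∩ t' →
      y ∈ s ∩ s' → s ∩ s' = t ∩ t' := by
    intro t ht t' ht' htt' s hs s' hs' hss' y hy hy'
    have key : ∀ u ∈ 𝒯, y ∈ u → u = t ∨ u = t' := by
      intro u hu hyu
      by_contra hcon
      push Not at hcon
      have := hpart.triple t ht t' ht' u hu htt' (Ne.symm hcon.2) (Ne.symm hcon.1)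
      exact (this ▸ (⟨hy, hyu⟩ : y ∈ id t ∩ id t' ∩ id u) : y ∈ (∅ : Set Y))
    rcases key s hs hy'.1 with rfl | rfl <;> rcases key s' hs' hy'.2 with rfl | rfl
    · exact absurd rfl hss'
    · rfl
    · rw [inter_comm]
    · exact absurd rfl hss'
  set τ : Y → Y := fun y =>
    if h : ∃ S : Set Y, y ∈ S ∧ ∃ t ∈ 𝒯, ∃ t' ∈ 𝒯, t ≠ t' ∧ S = t ∩ t' then τf h.choose y else y
    with hτdef
  have hτ : ∀ t ∈ 𝒯, ∀ t' ∈ 𝒯, t ≠ t' → ∀ y ∈ t ∩ t', τ y = τf (t ∩ t') y := by
    intro t ht t' ht' htt' y hy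
    have h : ∃ S : Set Y, y ∈ S ∧ ∃ t ∈ 𝒯, ∃ t' ∈ 𝒯, t ≠ t' ∧ S = t ∩ t' :=
      ⟨t ∩ t', hy, t, ht, t', ht', htt', rfl⟩
    simp only [hτdef, h, dif_pos]
    obtain ⟨hy', s, hs, s', hs', hss', hS⟩ := h.choose_spec
    have : h.choose = t ∩ t' := by
      rw [hS]
      rw [hS] at hy'
      exact huniq t ht t' ht' htt' s hs s' hs' hss' y hy hy'
    rw [this]
  -- the flip of the frontier of a cell
  have hflip : ∀ t ∈ 𝒯, ∃ A B : Set Y, Flip (frontier t) A B τ := by
    intro t ht
    set N : Set (Set Y) := 𝒯 ∩ {j | j ≠ t} with hN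
    have hNT : N ⊆ 𝒯 := inter_subset_left
    have hNf : ∀ j ∈ N, Flip (t ∩ j) (Af (t ∩ j)) (Bf (t ∩ j)) (τf (t ∩ j)) :=
      fun j hj => hint t ht j hj.1 (Ne.symm hj.2)
    have hNτ : ∀ j ∈ N, ∀ y ∈ t ∩ j, τ y = τf (t ∩ j) y :=
      fun j hj => hτ t ht j hj.1 (Ne.symm hj.2)
    have hAs : ∀ j ∈ N, Af (t ∩ j) ⊆ t ∩ j := fun j hj => by
      conv_rhs => rw [← (hNf j hj).un]
      exact subset_union_left
    have hBs : ∀ j ∈ N, Bf (t ∩ j) ⊆ t ∩ j := fun j hj => by
      conv_rhs => rw [← (hNf j hj).un]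
      exact subset_union_right
    have hfr : frontier t = ⋃ j ∈ N, t ∩ j := by
      have := hpart.frontier_eq hcl ht
      simp only [id, frontier_univ, inter_empty, union_empty] at this
      exact this
    have htri : ∀ j ∈ N, ∀ k ∈ N, ∀ y, y ∈ t ∩ j → y ∈ t ∩ k → j = k := by
      intro j hj k hk y h1 h2
      by_contra hjk
      have := hpart.triple t ht j hj.1 k hk.1 (Ne.symm hj.2) hjk (Ne.symm hk.2)
      exact (this ▸ (⟨h1, h2.2⟩ : y ∈ id t ∩ id j ∩ id k) : y ∈ (∅ : Set Y))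
    refine ⟨⋃ j ∈ N, Af (t ∩ j), ⋃ j ∈ N, Bf (t ∩ j), ?_, ?_, ?_, ?_, ?_, ?_, ?_, ?_⟩
    · rw [biUnion_eq_iUnion]
      refine LocallyFinite.isClosed_iUnion ((hlfT N hNT).subset ?_) fun j => (hNf j j.2).ca
      intro j
      exact (hAs j j.2).trans inter_subset_right
    · rw [biUnion_eq_iUnion]
      refine LocallyFinite.isClosed_iUnion ((hlfT N hNT).subset ?_) fun j => (hNf j j.2).cb
      intro j
      exact (hBs j j.2).trans inter_subset_right
    · rw [Set.disjoint_left]
      intro y hy hy'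
      obtain ⟨j, hj, hyj⟩ := mem_iUnion₂.1 hy
      obtain ⟨k, hk, hyk⟩ := mem_iUnion₂.1 hy'
      obtain rfl := htri j hj k hk y (hAs j hj hyj) (hBs k hk hyk)
      exact Set.disjoint_left.1 (hNf j hj).dis hyj hyk
    · rw [hfr]
      ext y
      simp only [mem_union, mem_iUnion]
      constructor
      · rintro (⟨j, hj, hy⟩ | ⟨j, hj, hy⟩)
        · exact ⟨j, hj, hAs j hj hy⟩
        · exact ⟨j, hj, hBs j hj hy⟩
      · rintro ⟨j, hj, hy⟩
        rw [← (hNf j hj).un] at hy
        rcases hy with hy | hy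
        · exact Or.inl ⟨j, hj, hy⟩
        · exact Or.inr ⟨j, hj, hy⟩
    · intro y hy
      obtain ⟨j, hj, hyj⟩ := mem_iUnion₂.1 hy
      rw [hNτ j hj y (hAs j hj hyj)]
      exact mem_iUnion₂.2 ⟨j, hj, (hNf j hj).ma hyj⟩
    · intro y hy
      obtain ⟨j, hj, hyj⟩ := mem_iUnion₂.1 hy
      rw [hNτ j hj y (hBs j hj hyj)]
      exact mem_iUnion₂.2 ⟨j, hj, (hNf j hj).mb hyj⟩
    · rw [hfr]
      intro y hy
      obtain ⟨j, hj, hyj⟩ := mem_iUnion₂.1 hy
      rw [hNτ j hj y hyj, hNτ j hj _ ((hNf j hj).maps hyj), (hNf j hj).inv y hyj]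
    · rw [hfr, biUnion_eq_iUnion]
      refine LocallyFinite.continuousOn_iUnion ((hlfT N hNT).subset fun j => inter_subset_right)
        (fun j => (hclosed t ht).inter (hclosed j (hNT j.2))) fun j => ?_
      exact (hNf j j.2).cont.congr (hNτ j j.2)
  -- the involutions of the cells
  have hH : ∀ t : Set Y, ∃ h : Y → Y, t ∈ 𝒯 → (MapsTo h t t ∧ (∀ x ∈ t, h (h x) = x) ∧
      ContinuousOn h t ∧ (∀ x ∈ t, h x ≠ x) ∧ ∀ x ∈ frontier t, h x = τ x) := by
    intro t
    by_cases ht : t ∈ 𝒯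
    · obtain ⟨A, B, hAB⟩ := hflip t ht
      obtain ⟨x, hx⟩ := hsub t ht
      obtain ⟨h, hh⟩ := exists_inv_cell_chart hs hf (e x) (hpart.cell t ht)
        (hx.trans inter_subset_right) hAB
      exact ⟨h, fun _ => hh⟩
    · exact ⟨id, fun h => absurd h ht⟩
  choose H hH using hH
  have hcov : ∀ y : Y, ∃ t ∈ 𝒯, y ∈ t := fun y => hpart.exists_of_mem (mem_univ y)
  choose T hT hyT using hcov
  set h : Y → Y := fun y => H (T y) y with hh
  have hht : ∀ t ∈ 𝒯, ∀ y ∈ t, h y = H t y := by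
    intro t ht y hy
    by_cases htt : T y = t
    · simp only [hh, htt]
    · have h1 : y ∈ frontier (T y) := hpart.inter_frontier (hT y) ht htt ⟨hyT y, hy⟩
      have h2 : y ∈ frontier t := hpart.inter_frontier ht (hT y) (Ne.symm htt) ⟨hy, hyT y⟩
      simp only [hh]
      rw [(hH _ (hT y)).2.2.2.2 y h1, (hH _ ht).2.2.2.2 y h2]
  refine ⟨h, ?_, ?_, ?_, ?_⟩
  · refine hlf.continuous ?_ (fun t => hclosed t t.2) fun t => ?_
    · rw [← hpart.union, biUnion_eq_iUnion]
      rfl
    · exact (hH t t.2).2.2.1.congr (hht t t.2)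
  · intro y
    have h1 := hht _ (hT y) y (hyT y)
    rw [h1, hht _ (hT y) _ ((hH _ (hT y)).1 (hyT y)), (hH _ (hT y)).2.1 y (hyT y)]
  · intro y
    rw [hht _ (hT y) y (hyT y)]
    exact (hH _ (hT y)).2.2.2.1 y (hyT y)
  · intro y
    obtain ⟨x, hx⟩ := hsub _ (hT y)
    refine ⟨x, (hx (hyT y)).1, ?_⟩
    rw [hht _ (hT y) y (hyT y)]
    exact (hx ((hH _ (hT y)).1 (hyT y))).1

/-- **CIPH** for metric spaces modelled on `X` -/
theorem exists_involution {M X : Type*} [MetricSpace M] [SecondCountableTopology M]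
    [MetricSpace X] [SecondCountableTopology X] [LocallyCompactSpace X] [LocallyConnectedSpace X]
    (hs : HasSplit X) (hf : ∀ ε > 0, HasFine (X := X) (Small ε))
    (hX : ∀ K O : Set X, IsCompact K → IsOpen O → K ⊆ O → TameIn K O)
    (hM : ∀ x : M, ∃ e : OpenPartialHomeomorph M X, x ∈ e.source)
    {A : Set M} (hA : IsClosed A) :
    ∃ h : M ≃ₜ M, Function.Involutive h ∧ {x | h x = x} = A := by
  classical
  by_cases hne : Nonempty (Aᶜ : Set M)
  swap
  · have : A = univ := by
      rw [← compl_empty_iff, ← not_nonempty_iff_eq_empty]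
      exact fun h => hne h.to_subtype
    refine ⟨Homeomorph.refl M, fun x => rfl, ?_⟩
    rw [this]
    ext x
    simp
  let Y : TopologicalSpace.Opens M := ⟨Aᶜ, hA.isOpen_compl⟩
  have hY : Nonempty Y := hne
  choose c hc using hM
  let e : Y → OpenPartialHomeomorph Y X := fun y => (c y).subtypeRestr hY
  have he : ∀ y, y ∈ (e y).source := by
    intro y
    simp only [e, OpenPartialHomeomorph.subtypeRestr_source]
    exact hc y
  let chs : ChartedSpace X Y :=
    { atlas := range e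
      chartAt := e
      mem_chart_source := he
      chart_mem_atlas := fun y => mem_range_self y }
  have hlc : LocallyCompactSpace Y := ChartedSpace.locallyCompactSpace X Y
  have hlcon : LocallyConnectedSpace Y := ChartedSpace.locallyConnectedSpace X Y
  set δ : Y → ℝ := fun y => if A.Nonempty then Metric.infDist (y : M) A / 3 else 1 with hδ
  have hδpos : ∀ y, 0 < δ y := by
    intro y
    by_cases hAn : A.Nonempty
    · simp only [hδ, hAn, if_true]
      have : 0 < Metric.infDist (y : M) A := (hA.notMem_iff_infDist_pos hAn).1 y.2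
      linarith
    · simp only [hδ, hAn, if_false]
      exact one_pos
  obtain ⟨h, hcont, hinv, hfpf, hU⟩ := exists_inv_space hs hf hX e he
    (fun y => Metric.ball y (δ y)) (fun y => Metric.ball_mem_nhds y (hδpos y))
  have hdist : A.Nonempty → ∀ y : Y, dist ((h y : Y) : M) (y : M) ≤ Metric.infDist (y : M) A := by
    intro hAn y
    obtain ⟨x, hx1, hx2⟩ := hU y
    rw [Metric.mem_ball, Subtype.dist_eq] at hx1 hx2
    simp only [hδ, hAn, if_true] at hx1 hx2
    have h1 : Metric.infDist (x : M) A ≤ Metric.infDist (y : M) A + dist (x : M) (y : M) :=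
      Metric.infDist_le_infDist_add_dist
    have h2 := dist_triangle ((h y : Y) : M) (x : M) (y : M)
    rw [dist_comm (x : M) (y : M)] at h1 h2
    linarith
  set k : M → M := fun x => if hx : x ∈ Y then ((h ⟨x, hx⟩ : Y) : M) else x with hk
  have hkY : ∀ y : Y, k y = (h y : M) := by
    intro y
    simp only [hk, y.2, dif_pos]
  have hkA : ∀ x ∈ A, k x = x := by
    intro x hx
    have : x ∉ Y := fun h => h hx
    simp only [hk, this, dif_neg, not_false_iff]
  have hkinv : Function.Involutive k := by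
    intro x
    by_cases hx : x ∈ Y
    · have h1 := hkY ⟨x, hx⟩
      simp only at h1
      rw [h1, hkY, hinv]
    · have hxA : x ∈ A := by
        by_contra h
        exact hx h
      rw [hkA x hxA, hkA x hxA]
  have hkcont : Continuous k := by
    rw [continuous_iff_continuousAt]
    intro x
    by_cases hx : x ∈ Y
    · have h1 : ContinuousOn k (Y : Set M) := by
        rw [continuousOn_iff_continuous_domRestrict]
        have : (Y : Set M).domRestrict k = fun y : Y => ((h y : Y) : M) := by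
          funext y
          exact hkY y
        rw [this]
        exact continuous_subtype_val.comp hcont
      exact h1.continuousAt (Y.isOpen.mem_nhds hx)
    · have hxA : x ∈ A := by
        by_contra h
        exact hx h
      have hAn : A.Nonempty := ⟨x, hxA⟩
      rw [Metric.continuousAt_iff]
      intro ε hε
      refine ⟨ε / 2, half_pos hε, fun {z} hz => ?_⟩
      rw [hkA x hxA]
      by_cases hzY : z ∈ Y
      · have h1 := hkY ⟨z, hzY⟩
        have h2 := hdist hAn ⟨z, hzY⟩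
        simp only at h1 h2
        rw [← h1] at h2
        have h3 : Metric.infDist z A ≤ dist z x := Metric.infDist_le_dist_of_mem hxA
        have h4 := dist_triangle (k z) z x
        linarith
      · have hzA : z ∈ A := by
          by_contra h
          exact hzY h
        rw [hkA z hzA]
        linarith
  refine ⟨⟨⟨k, k, hkinv, hkinv⟩, hkcont, hkcont⟩, hkinv, ?_⟩
  ext x
  constructor
  · intro hx
    by_contra hxA
    have h1 := hkY ⟨x, hxA⟩
    simp only at h1
    have h2 : k x = x := hx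
    rw [h2] at h1
    exact hfpf ⟨x, hxA⟩ (Subtype.ext h1.symm)
  · intro hx
    exact hkA x hx

end Run7.h116
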